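import Pool.Agent.Helper64.Burn.Leaves

set_option autoImplicit false

/-!
FB-14. Metric facts on trees: geodesic points, edges, branches.
-/

namespace Pool.Agent.Helper64.FB

open Finset Pool.Agent.Helper64.Burn

variable {W : Type*} {T : SimpleGraph W}

theorem exists_between (hT : T.Connected) (x y : W) {t : ℕ} (ht : t ≤ T.dist x y) :
    ∃ z, T.dist x z = t ∧ T.dist x z + T.dist z y = T.dist x y := by
  obtain ⟨p, hp⟩ := hT.exists_walk_length_eq_dist x y
  have h1 : T.dist x (p.getVert t) ≤ t := by
    refine (SimpleGraph.dist_le (p.take t)).trans ?_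
    rw [SimpleGraph.Walk.take_length]
    exact min_le_left _ _
  have h2 : T.dist (p.getVert t) y ≤ T.dist x y - t := by
    refine (SimpleGraph.dist_le (p.drop t)).trans ?_
    rw [SimpleGraph.Walk.drop_length, hp]
  have h3 : T.dist x y ≤ T.dist x (p.getVert t) + T.dist (p.getVert t) y := hT.dist_triangle
  exact ⟨p.getVert t, by omega, by omega⟩

/-- The point at a given distance between two vertices of a tree is unique. -/
theorem between_unique (hT : T.IsTree) {c v u u' : W}
    (h1 : T.dist c u + T.dist u v = T.dist c v) (h2 : T.dist c u' + T.dist u' v = T.dist c v)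
    (h3 : T.dist c u = T.dist c u') : u = u' := by
  obtain ⟨p, hp⟩ := hT.connected.exists_walk_length_eq_dist c u
  obtain ⟨q, hq⟩ := hT.connected.exists_walk_length_eq_dist u v
  obtain ⟨p', hp'⟩ := hT.connected.exists_walk_length_eq_dist c u'
  obtain ⟨q', hq'⟩ := hT.connected.exists_walk_length_eq_dist u' v
  have h4 : (p.append q).IsPath := by
    refine SimpleGraph.Walk.isPath_of_length_eq_dist _ ?_
    rw [SimpleGraph.Walk.length_append]
    omega
  have h5 : (p'.append q').IsPath := by
    refine SimpleGraph.Walk.isPath_of_length_eq_dist _ ?_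
    rw [SimpleGraph.Walk.length_append]
    omega
  have h6 := (hT.isAcyclic.subsingleton_path c v).elim ⟨_, h4⟩ ⟨_, h5⟩
  have h7 := congrArg (fun P : T.Path c v => (P : T.Walk c v).getVert (T.dist c u)) h6
  have e1 : (p.append q).getVert (T.dist c u) = u := by
    rw [SimpleGraph.Walk.getVert_append, ← hp]
    simp
  have e2 : (p'.append q').getVert (T.dist c u) = u' := by
    rw [SimpleGraph.Walk.getVert_append, h3, ← hp']
    simp
  have h8 : (p.append q).getVert (T.dist c u) = (p'.append q').getVert (T.dist c u) := h7
  rw [e1, e2] at h8
  exact h8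

/-- Crossing an edge. -/
theorem edge_cross (hT : T.IsTree) {u u' x z : W} (h : T.Adj u u')
    (hx : T.dist x u' = T.dist x u + 1) (hz : T.dist z u = T.dist z u' + 1) :
    T.dist x z = T.dist x u + 1 + T.dist u' z := by
  have key : ∀ n : ℕ, ∀ z : W, T.dist u' z = n → T.dist z u = T.dist z u' + 1 →
      T.dist x z = T.dist x u + 1 + T.dist u' z := by
    intro n
    induction n using Nat.strong_induction_on with
    | _ n ih =>
      intro z hn hz
      rcases Nat.eq_zero_or_pos n with h0 | h0
      · have h1 : u' = z := (hT.connected.dist_eq_zero_iff).1 (by omega)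
        rw [← h1, hx, SimpleGraph.dist_self]
      -- the neighbour of `z` towards `u'`
      obtain ⟨w, hw1, hw2⟩ := exists_between hT.connected u' z (t := n - 1) (by omega)
      have hwz : T.dist w z = 1 := by omega
      have hadj : T.Adj w z := SimpleGraph.dist_eq_one_iff_adj.1 hwz
      have cu' : T.dist z u' = n := by rw [SimpleGraph.dist_comm]; exact hn
      have cw' : T.dist w u' = n - 1 := by rw [SimpleGraph.dist_comm]; exact hw1
      have t1 : T.dist z u ≤ T.dist z w + T.dist w u := hT.connected.dist_triangle
      have t2 : T.dist w u ≤ T.dist w u' + T.dist u' u := hT.connected.dist_triangle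
      have t3 : T.dist u' u = 1 := SimpleGraph.dist_eq_one_iff_adj.2 h.symm
      have t4 : T.dist z w = 1 := by rw [SimpleGraph.dist_comm]; exact hwz
      have hw3 : T.dist w u = T.dist w u' + 1 := by omega
      have h1 := ih (n - 1) (by omega) w hw1 hw3
      rcases hT.dist_eq_dist_add_one_of_adj x hadj with h2 | h2
      · -- `z` is a parent of `w`
        exfalso
        have hzx : T.dist z x + 1 = T.dist w x := by
          rw [SimpleGraph.dist_comm (u := z), SimpleGraph.dist_comm (u := w)]
          omega
        rcases Nat.eq_zero_or_pos (n - 1) with h3 | h3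
        · have h4 : u' = w := (hT.connected.dist_eq_zero_iff).1 (by omega)
          subst h4
          have h5 : T.dist u x + 1 = T.dist u' x := by
            rw [SimpleGraph.dist_comm (u := u), SimpleGraph.dist_comm (u := u')]
            omega
          have h6 := parent_unique hT (r := x) hadj h.symm hzx h5
          rw [h6] at hz
          rw [SimpleGraph.dist_self] at hz
          omega
        · obtain ⟨y, hy1, hy2⟩ := exists_between hT.connected u' w (t := n - 2) (by omega)
          have hyw : T.dist y w = 1 := by omega
          have hadj' : T.Adj y w := SimpleGraph.dist_eq_one_iff_adj.1 hyw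
          have s1 : T.dist w u ≤ T.dist w y + T.dist y u := hT.connected.dist_triangle
          have s2 : T.dist y u ≤ T.dist y u' + T.dist u' u := hT.connected.dist_triangle
          have s3 : T.dist w y = 1 := by rw [SimpleGraph.dist_comm]; exact hyw
          have s4 : T.dist y u' = n - 2 := by rw [SimpleGraph.dist_comm]; exact hy1
          have h7 := ih (n - 2) (by omega) y hy1 (by omega)
          have h8 : T.dist y x + 1 = T.dist w x := by
            rw [SimpleGraph.dist_comm (u := y), SimpleGraph.dist_comm (u := w)]
            omega
          have h6 := parent_unique hT (r := x) hadj hadj'.symm hzx h8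
          rw [h6] at hn
          omega
      · omega
  exact key _ z rfl hz

/-- Metric convexity. -/
def Conv (T : SimpleGraph W) (S : Finset W) : Prop :=
  ∀ x ∈ S, ∀ y ∈ S, ∀ z, T.dist x z + T.dist z y = T.dist x y → z ∈ S

end Pool.Agent.Helper64.FB
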