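import Pool.Agent.Helper64.Burn.Forest

set_option autoImplicit false

/-!
FB-25. Disjoint paths are contained in a subtree with few leaves.
-/

namespace Pool.Agent.Helper64.FB

open Finset Pool.Agent.Helper64.Burn

variable {V : Type*}

theorem hull [Fintype V] {G : SimpleGraph V} (hG : G.Connected) {t : ℕ} {L : Fin t → ℕ}
    {A : Fin t → ℕ → V} (h : FewPaths G L A) (hne : (allVerts L A).Nonempty) :
    ∃ H : G.Subgraph, H.coe.IsTree ∧
      {x : H.verts | (H.coe.neighborSet x).ncard = 1}.ncard ≤ 2 * t ∧
      allVerts L A ⊆ H.verts := by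
  classical
  obtain ⟨T, hTG, hT, hTP, -⟩ := exists_tree hG h hne
  obtain ⟨M, ⟨hM1, hM2⟩, hmin⟩ : ∃ M : Finset V,
      (allVerts L A ⊆ (M : Set V) ∧ (T.induce (M : Set V)).Connected) ∧
      ∀ M' : Finset V, (allVerts L A ⊆ (M' : Set V) ∧ (T.induce (M' : Set V)).Connected) →
        #M ≤ #M' := by
    have hu : (Finset.univ : Finset V) ∈ Finset.filter (fun M : Finset V =>
        allVerts L A ⊆ (M : Set V) ∧ (T.induce (M : Set V)).Connected) Finset.univ := by
      refine Finset.mem_filter.2 ⟨Finset.mem_univ _, ?_, ?_⟩
      · intro x _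
        simp
      · rw [Finset.coe_univ]
        exact (SimpleGraph.induceUnivIso T).connected_iff.2 hT.connected
    obtain ⟨M, hM, hmin⟩ := Finset.exists_min_image _ Finset.card ⟨_, hu⟩
    refine ⟨M, (Finset.mem_filter.1 hM).2, fun M' hM' => hmin M' ?_⟩
    exact Finset.mem_filter.2 ⟨Finset.mem_univ _, hM'⟩
  let H : G.Subgraph :=
    { verts := (M : Set V)
      Adj := fun x y => T.Adj x y ∧ x ∈ M ∧ y ∈ M
      adj_sub := fun hxy => hTG hxy.1
      edge_vert := fun hxy => hxy.2.1
      symm := ⟨fun x y hxy => ⟨hxy.1.symm, hxy.2.2, hxy.2.1⟩⟩ }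
  have hHM : H.coe = T.induce (M : Set V) := by
    ext x y
    exact ⟨fun hxy => hxy.1, fun hxy => ⟨hxy, x.2, y.2⟩⟩
  have htree : (T.induce (M : Set V)).IsTree := ⟨hM2, hT.isAcyclic.induce _⟩
  refine ⟨H, ?_, ?_, hM1⟩
  · rw [hHM]
    exact htree
  · have hkey : ∀ x : (M : Set V), ((T.induce (M : Set V)).neighborSet x).ncard = 1 →
        x.1 ∈ (Finset.univ.image (fun i : Fin t => A i 0)) ∪
          (Finset.univ.image (fun i : Fin t => A i (L i - 1))) := by
      intro x hx
      by_contra hcon
      rw [Finset.mem_union, not_or] at hcon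
      by_cases hxS : x.1 ∈ allVerts L A
      · obtain ⟨i, j, hj, hij⟩ := hxS
        have hj0 : j ≠ 0 := by
          rintro rfl
          exact hcon.1 (Finset.mem_image.2 ⟨i, Finset.mem_univ _, hij⟩)
        have hj1 : j ≠ L i - 1 := by
          rintro rfl
          exact hcon.2 (Finset.mem_image.2 ⟨i, Finset.mem_univ _, hij⟩)
        obtain ⟨z, hz⟩ := Set.ncard_eq_one.1 hx
        have m1 : A i (j - 1) ∈ (M : Set V) := hM1 ⟨i, j - 1, by omega, rfl⟩
        have m2 : A i (j + 1) ∈ (M : Set V) := hM1 ⟨i, j + 1, by omega, rfl⟩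
        have a1 : T.Adj x.1 (A i (j - 1)) := by
          have := (hTP.path i).adj (j - 1) (by omega)
          have e : j - 1 + 1 = j := by omega
          rw [e, hij] at this
          exact this.symm
        have a2 : T.Adj x.1 (A i (j + 1)) := by
          have := (hTP.path i).adj j (by omega)
          rw [hij] at this
          exact this
        have n1 : (⟨A i (j - 1), m1⟩ : (M : Set V)) ∈ (T.induce (M : Set V)).neighborSet x := a1
        have n2 : (⟨A i (j + 1), m2⟩ : (M : Set V)) ∈ (T.induce (M : Set V)).neighborSet x := a2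
        rw [hz, Set.mem_singleton_iff] at n1 n2
        have e := congrArg Subtype.val (n1.trans n2.symm)
        have := (hTP.path i).inj _ _ (by omega) (by omega) e
        omega
      · have hdeg : (T.induce (M : Set V)).degree x = 1 := by
          rw [← SimpleGraph.card_neighborSet_eq_degree, ← Set.toFinset_card,
            ← Set.ncard_eq_toFinset_card']
          exact hx
        have hc := hM2.induce_compl_singleton_of_degree_eq_one hdeg
        have hM' : (T.induce ((M.erase x.1 : Finset V) : Set V)).Connected := by
          have hmem : ∀ y : V, y ∈ ((M.erase x.1 : Finset V) : Set V) ↔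
              ∃ hy : y ∈ (M : Set V), (⟨y, hy⟩ : (M : Set V)) ∈ ({x}ᶜ : Set (M : Set V)) := by
            intro y
            rw [Finset.mem_coe, Finset.mem_erase]
            constructor
            · rintro ⟨h1, h2⟩
              refine ⟨h2, fun h3 => h1 ?_⟩
              exact congrArg Subtype.val h3
            · rintro ⟨h1, h2⟩
              exact ⟨fun h3 => h2 (Subtype.ext h3), h1⟩
          let e : ((T.induce (M : Set V)).induce ({x}ᶜ : Set (M : Set V))) ≃g
              T.induce ((M.erase x.1 : Finset V) : Set V) :=
            { toFun := fun y => ⟨y.1.1, (hmem y.1.1).2 ⟨y.1.2, y.2⟩⟩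
              invFun := fun y => ⟨⟨y.1, ((hmem y.1).1 y.2).1⟩, ((hmem y.1).1 y.2).2⟩
              left_inv := fun y => rfl
              right_inv := fun y => rfl
              map_rel_iff' := Iff.rfl }
          exact e.connected_iff.1 hc
        have h1 := hmin (M.erase x.1) ⟨?_, hM'⟩
        · have := Finset.card_erase_lt_of_mem (show x.1 ∈ M from x.2)
          omega
        · intro y hy
          rw [Finset.mem_coe, Finset.mem_erase]
          refine ⟨?_, hM1 hy⟩
          rintro rfl
          exact hxS hy
    have h1 : {x : H.verts | (H.coe.neighborSet x).ncard = 1}.ncard =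
        (Subtype.val '' {x : H.verts | (H.coe.neighborSet x).ncard = 1}).ncard :=
      (Set.ncard_image_of_injective _ Subtype.val_injective).symm
    rw [h1]
    refine (Set.ncard_le_ncard (t := (((Finset.univ.image (fun i : Fin t => A i 0)) ∪
          (Finset.univ.image (fun i : Fin t => A i (L i - 1))) : Finset V) : Set V)) ?_
      (Finset.finite_toSet _)).trans ?_
    · rintro _ ⟨x, hx, rfl⟩
      refine hkey x ?_
      rw [← hHM]
      exact hx
    · rw [Set.ncard_coe_finset]
      refine (Finset.card_union_le _ _).trans ?_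
      have e1 := Finset.card_image_le (s := (Finset.univ : Finset (Fin t))) (f := fun i => A i 0)
      have e2 := Finset.card_image_le (s := (Finset.univ : Finset (Fin t)))
        (f := fun i => A i (L i - 1))
      rw [Finset.card_univ, Fintype.card_fin] at e1 e2
      omega

end Pool.Agent.Helper64.FB
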