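import Pool.Agent.Helper64.FB.TreeMain
import Pool.Agent.Helper64.FB.Hull

set_option autoImplicit false

/-!
Assembly for graphs with a subtree with few leaves close to all vertices.
-/

namespace Pool.Agent.Helper64.FB

open Finset Pool.Agent.Helper64.Burn

variable {V : Type*}

theorem graph_main [Fintype V] {G : SimpleGraph V} (hG : G.Connected) {l p k : ℕ}
    (H : G.Subgraph) (hH : H.coe.IsTree)
    (hleaf : {x : H.verts | (H.coe.neighborSet x).ncard = 1}.ncard ≤ l)
    (hd : ∀ w, ∃ x ∈ H.verts, G.dist w x ≤ p) (hk : Fintype.card V ≤ k ^ 2)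
    (hC : 10 ^ 20 * (l + p + 1) * (Nat.log 2 k + 1) ≤ k) :
    ∃ c : ℕ → V, ∀ v, ∃ r, r < k ∧ G.dist (c r) v ≤ r := by
  classical
  obtain ⟨S, hS⟩ : ∃ S : Set V, S = H.verts := ⟨_, rfl⟩
  obtain ⟨x₀⟩ := hH.connected.nonempty
  have hne : S.Nonempty := ⟨x₀, by rw [hS]; exact x₀.2⟩
  have hd' : ∀ w, dS G S w ≤ p := by
    intro w
    obtain ⟨x, hx, hx'⟩ := hd w
    exact (dS_le (by rw [hS]; exact hx) w).trans hx'
  have hroot : ∀ w, root G S w ∈ H.verts := by
    intro w
    rw [← hS]
    exact root_mem hG hne w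
  have hdist : ∀ x y : H.verts, G.dist (x : V) (y : V) ≤ H.coe.dist x y := by
    intro x y
    obtain ⟨q, hq⟩ := hH.connected.exists_walk_length_eq_dist x y
    rw [← hq]
    have := SimpleGraph.dist_le (q.map H.hom)
    rw [SimpleGraph.Walk.length_map] at this
    exact this
  have hsum : ∑ x : H.verts, (1 + height G S (x : V)) ≤ k ^ 2 := by
    have h1 := sum_height_le hG hne (X := S.toFinset) (by
      intro x hx
      exact Set.mem_toFinset.1 hx)
    have h2 : ∑ x : H.verts, (1 + height G S (x : V)) =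
        ∑ x ∈ S.toFinset, (height G S x + 1) := by
      rw [Finset.sum_subtype (s := S.toFinset) (p := fun x => x ∈ H.verts) (fun x => by simp [hS])]
      exact Finset.sum_congr rfl (fun x _ => Nat.add_comm _ _)
    omega
  have hlog : 1 ≤ Nat.log 2 k + 1 := by omega
  have hC1 : 10 ^ 20 * (l + p + 1) ≤ k := le_trans (Nat.le_mul_of_pos_right _ hlog) hC
  rcases tree_main hH (hH := fun x : H.verts => height G S (x : V)) (p := p) (k := k) (l := l)
    (fun x => height_le (by rw [hS]; exact x.2) hd') hsum (sum_degree_le hH hleaf) hC with ⟨c, hc⟩ | ⟨L, A, hA, hA'⟩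
  · refine ⟨fun r => (c r : V), ?_⟩
    intro v
    obtain ⟨r, hr, hr'⟩ := hc ⟨root G S v, hroot v⟩
    refine ⟨r, hr, ?_⟩
    have h1 := hdist (c r) ⟨root G S v, hroot v⟩
    have h2 := dist_root hG hne v
    have h3 := dS_le_height (G := G) (S := S) v
    have h4 := hG.dist_triangle (u := (c r : V)) (v := root G S v) (w := v)
    rw [SimpleGraph.dist_comm (u := root G S v)] at h4
    simp only at hr' h1 ⊢
    omega
  · have h9 : 10 ^ 8 * (l + p + 1) + p ≤ 10 ^ 9 * (l + p + 1) := by
      have : 0 ≤ l + p + 1 := by omega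
      nlinarith
    have h8 : 360000 * (10 ^ 9 * (l + p + 1)) ≤ k := by
      refine le_trans ?_ hC1
      rw [← mul_assoc]
      exact Nat.mul_le_mul_right _ (by norm_num)
    have hw : ∀ w, dS G (verts L (fun j => (A j : V))) w ≤ 10 ^ 9 * (l + p + 1) := by
      intro w
      obtain ⟨j, hj, hj'⟩ := hA' ⟨root G S w, hroot w⟩
      have h1 := hdist (A j) ⟨root G S w, hroot w⟩
      have h2 := dist_root hG hne w
      have h3 := hd' w
      have h4 := hG.dist_triangle (u := w) (v := root G S w) (w := (A j : V))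
      have h5 := SimpleGraph.dist_comm (G := G) (u := root G S w) (v := (A j : V))
      have h6 := dS_le (G := G) (S := verts L (fun j => (A j : V))) (x := (A j : V))
        ⟨j, hj, rfl⟩ w
      linarith
    refine burn_of_path hG (p := 10 ^ 9 * (l + p + 1)) (L := L) (A := fun j => (A j : V))
      ⟨hA.pos, ?_, ?_⟩ hw hk (Or.inr (Or.inl h8))
    · intro i hi
      exact H.coe_adj_sub _ _ (hA.adj i hi)
    · intro i j hi hj hij
      exact hA.inj i j hi hj (Subtype.ext hij)

end Pool.Agent.Helper64.FB
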