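import Pool.Agent.Helper64.FB.Coord

set_option autoImplicit false

/-!
FB-19. Balls centred on the path.
-/

namespace Pool.Agent.Helper64.FB

open Finset Pool.Agent.Helper64.Burn

variable {W : Type*} [DecidableEq W]

/-- Off-path vertices in the ball of radius `ρ` about `x (max a ρ)`. -/
def gN (S : Finset W) (pos ht : W → ℕ) (a ρ : ℕ) : ℕ :=
  (S.filter (fun v => 0 < ht v ∧ (max a ρ - pos v) + (pos v - max a ρ) + ht v ≤ ρ)).card

/-- Off-path vertices on the sphere of radius `ρ + 1` about `x (max a ρ)`. -/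
def xN (S : Finset W) (pos ht : W → ℕ) (a ρ : ℕ) : ℕ :=
  (S.filter (fun v => 0 < ht v ∧ (max a ρ - pos v) + (pos v - max a ρ) + ht v = ρ + 1)).card

theorem gN_step {S : Finset W} {pos ht : W → ℕ} (hl : ∀ v ∈ S, ht v ≤ pos v) (a ρ : ℕ) :
    gN S pos ht a ρ + xN S pos ht a ρ ≤ gN S pos ht a (ρ + 1) := by
  unfold gN xN
  rw [← Finset.card_union_of_disjoint]
  · apply Finset.card_le_card
    intro v hv
    rcases Finset.mem_union.1 hv with hv | hv
    · obtain ⟨h1, h2, h3⟩ := Finset.mem_filter.1 hv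
      have h4 := hl v h1
      refine Finset.mem_filter.2 ⟨h1, h2, ?_⟩
      omega
    · obtain ⟨h1, h2, h3⟩ := Finset.mem_filter.1 hv
      have h4 := hl v h1
      refine Finset.mem_filter.2 ⟨h1, h2, ?_⟩
      omega
  · rw [Finset.disjoint_left]
    intro v hv hv'
    have h1 := (Finset.mem_filter.1 hv).2.2
    have h2 := (Finset.mem_filter.1 hv').2.2
    omega

theorem gN_ge {T : SimpleGraph W} (hT : T.Connected) {S : Finset W} (hS : Conv T S)
    {d : ℕ} {x : ℕ → W} {pos ht : W → ℕ} (C : Coord T S d x pos ht) {v : W} (hv : v ∈ S)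
    {p' ρ : ℕ} (hp : p' ≤ ht v) (hρ : p' ≤ ρ) : p' ≤ gN S pos ht (pos v) ρ := by
  unfold gN
  have h1 : Finset.Icc 1 p' ⊆ (S.filter (fun u => 0 < ht u ∧
      (max (pos v) ρ - pos u) + (pos u - max (pos v) ρ) + ht u ≤ ρ)).image ht := by
    intro t htm
    rw [Finset.mem_Icc] at htm
    obtain ⟨u, hu, hu1, hu2⟩ := C.chain hT hS hv (t := t) (by omega)
    have h2 := C.left v hv
    refine Finset.mem_image.2 ⟨u, Finset.mem_filter.2 ⟨hu, by omega, ?_⟩, hu2⟩
    omega
  calc p' = (Finset.Icc 1 p').card := by simp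
    _ ≤ _ := Finset.card_le_card h1
    _ ≤ _ := Finset.card_image_le

/-- The path vertices are different. -/
theorem coord_inj_path {T : SimpleGraph W} (hT : T.Connected) {S : Finset W}
    {d : ℕ} {x : ℕ → W} {pos ht : W → ℕ} (C : Coord T S d x pos ht) {i j : ℕ}
    (hi : i ≤ d) (hj : j ≤ d) (h : x i = x j) : i = j := by
  rw [← (C.self hT hi).1, h, (C.self hT hj).1]

theorem ball_card {T : SimpleGraph W} (hT : T.Connected) {S : Finset W}
    {d : ℕ} {x : ℕ → W} {pos ht : W → ℕ} (C : Coord T S d x pos ht) {a ρ : ℕ}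
    (h1 : a + ρ ≤ d) (h2 : 2 * ρ ≤ d) :
    2 * ρ + 1 + gN S pos ht a ρ ≤ (ball T S (x (max a ρ)) ρ).card := by
  obtain ⟨c, hc⟩ : ∃ c, c = max a ρ := ⟨_, rfl⟩
  unfold gN
  rw [← hc]
  have hc1 : ρ ≤ c := by omega
  have hc2 : c + ρ ≤ d := by omega
  have h3 : ((Finset.Icc (c - ρ) (c + ρ)).image x).card = 2 * ρ + 1 := by
    rw [Finset.card_image_of_injOn]
    · rw [Nat.card_Icc]
      omega
    · intro i hi j hj hij
      rw [Finset.mem_coe, Finset.mem_Icc] at hi hj
      exact coord_inj_path hT C (by omega) (by omega) hij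
  rw [← h3, ← Finset.card_union_of_disjoint]
  · apply Finset.card_le_card
    intro v hv
    unfold ball
    rw [Finset.mem_filter]
    rcases Finset.mem_union.1 hv with hv | hv
    · obtain ⟨j, hj, rfl⟩ := Finset.mem_image.1 hv
      rw [Finset.mem_Icc] at hj
      have h4 := C.mem j (by omega)
      refine ⟨h4, ?_⟩
      rw [C.dist _ h4 c (by omega), (C.self hT (show j ≤ d by omega)).1,
        (C.self hT (show j ≤ d by omega)).2]
      omega
    · obtain ⟨h4, h5, h6⟩ := Finset.mem_filter.1 hv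
      refine ⟨h4, ?_⟩
      rw [C.dist _ h4 c (by omega)]
      exact h6
  · rw [Finset.disjoint_left]
    intro v hv hv'
    obtain ⟨j, hj, rfl⟩ := Finset.mem_image.1 hv
    rw [Finset.mem_Icc] at hj
    have h4 := (Finset.mem_filter.1 hv').2.1
    rw [(C.self hT (show j ≤ d by omega)).2] at h4
    exact absurd h4 (lt_irrefl _)

theorem sphere_le {T : SimpleGraph W} (hT : T.Connected) {S : Finset W}
    {d : ℕ} {x : ℕ → W} {pos ht : W → ℕ} (C : Coord T S d x pos ht) {a ρ : ℕ}
    (h1 : a + ρ ≤ d) (h2 : 2 * ρ ≤ d) :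
    (sphere T S (x (max a ρ)) ρ).card ≤ xN S pos ht a ρ + 2 := by
  obtain ⟨c, hc⟩ : ∃ c, c = max a ρ := ⟨_, rfl⟩
  unfold xN sphere
  rw [← hc]
  have hc2 : c ≤ d := by omega
  calc (S.filter (fun v => T.dist (x c) v = ρ + 1)).card
      ≤ (S.filter (fun v => 0 < ht v ∧ (c - pos v) + (pos v - c) + ht v = ρ + 1) ∪
        {x (c + ρ + 1), x (c - (ρ + 1))}).card := by
        apply Finset.card_le_card
        intro v hv
        obtain ⟨h3, h4⟩ := Finset.mem_filter.1 hv
        rw [C.dist v h3 c hc2] at h4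
        rw [Finset.mem_union]
        rcases Nat.eq_zero_or_pos (ht v) with h5 | h5
        · right
          have h6 := C.eq_of_ht hT h3 h5
          rw [Finset.mem_insert, Finset.mem_singleton]
          rcases le_total c (pos v) with h7 | h7
          · left
            rw [h6]
            congr 1
            omega
          · right
            rw [h6]
            congr 1
            omega
        · left
          exact Finset.mem_filter.2 ⟨h3, h5, h4⟩
    _ ≤ _ := Finset.card_union_le _ _
    _ ≤ _ := by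
        have := Finset.card_le_two (a := x (c + ρ + 1)) (b := x (c - (ρ + 1)))
        omega

/-- A junction has degree at least three. -/
theorem junction_degree [Fintype W] {T : SimpleGraph W} [DecidableRel T.Adj] (hT : T.IsTree)
    {S : Finset W} (hS : Conv T S) {d : ℕ} {x : ℕ → W} {pos ht : W → ℕ}
    (C : Coord T S d x pos ht) {v : W} (hv : v ∈ S) (h0 : 0 < ht v) :
    3 ≤ T.degree (x (pos v)) := by
  have hc := hT.connected
  obtain ⟨p, hp⟩ : ∃ p, p = pos v := ⟨_, rfl⟩
  have h1 := C.left v hv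
  have h2 := C.right v hv
  obtain ⟨u, hu, hu1, hu2⟩ := C.chain hc hS hv (t := 1) (by omega)
  rw [← hp] at h1 h2 hu1 ⊢
  have ha := C.self hc (show p - 1 ≤ d by omega)
  have hb := C.self hc (show p + 1 ≤ d by omega)
  have hA : T.Adj (x p) (x (p - 1)) := by
    rw [← SimpleGraph.dist_eq_one_iff_adj, C.dist _ (C.mem _ (by omega)) p (by omega), ha.1, ha.2]
    omega
  have hB : T.Adj (x p) (x (p + 1)) := by
    rw [← SimpleGraph.dist_eq_one_iff_adj, C.dist _ (C.mem _ (by omega)) p (by omega), hb.1, hb.2]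
    omega
  have hU : T.Adj (x p) u := by
    rw [← SimpleGraph.dist_eq_one_iff_adj, C.dist _ hu p (by omega), hu1, hu2]
    omega
  have hAB : x (p - 1) ≠ x (p + 1) := fun h => by
    have := coord_inj_path hc C (by omega) (by omega) h
    omega
  have hAU : x (p - 1) ≠ u := fun h => by
    have h3 := ha.2
    rw [h, hu2] at h3
    omega
  have hBU : x (p + 1) ≠ u := fun h => by
    have h3 := hb.2
    rw [h, hu2] at h3
    omega
  have h3 : ({x (p - 1), x (p + 1), u} : Finset W) ⊆ T.neighborFinset (x p) := by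
    intro w hw
    rw [SimpleGraph.mem_neighborFinset]
    rw [Finset.mem_insert, Finset.mem_insert, Finset.mem_singleton] at hw
    rcases hw with rfl | rfl | rfl
    · exact hA
    · exact hB
    · exact hU
  have h4 := Finset.card_le_card h3
  rw [Finset.card_eq_three.2 ⟨_, _, _, hAB, hAU, hBU, rfl⟩, SimpleGraph.card_neighborFinset_eq_degree]
    at h4
  exact h4

end Pool.Agent.Helper64.FB
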