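import Pool.Agent.Helper64.FB.QuietPt

set_option autoImplicit false

/-!
FB-12. Covering a family of long pieces.
-/

namespace Pool.Agent.Helper64.FB

open Finset Pool.Agent.Helper64.Burn

/-- The statement for long families. -/
theorem big_core {k φ n : ℕ} {L : ℕ → ℕ} {h : ℕ → ℕ → ℕ} {F : Finset ℕ} (hn : 0 < n)
    (hk : 10 ^ 6 * φ ≤ k) (hbig : ∀ f ∈ F, 4000 * φ ≤ f)
    (hcard : F.card + 5 * n + 5 ≤ φ)
    (hlen : ∀ s, s < n → 7 * k ≤ 5 * L s)
    (hl : ∀ s, s < n → ∀ i, i < L s → h s i ≤ i)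
    (hr : ∀ s, s < n → ∀ i, i < L s → i + h s i < L s)
    (hp : ∀ s, s < n → ∀ i, i < L s → 10 ^ 11 * h s i ≤ k)
    (hT : k ^ 2 ≤ 5 * off L n)
    (hS : ∑ s ∈ Finset.range n, ∑ i ∈ Finset.range (L s), h s i ≤ k ^ 2)
    (hb : 4 * off L n + 3 * ∑ s ∈ Finset.range n, ∑ i ∈ Finset.range (L s), h s i +
      4 * ((n + 1) * (30000 * φ)) ≤ 4 * ∑ x ∈ Finset.range k \ F, (2 * x + 1)) :
    ∃ J : ℕ → Finset ℕ,
      (∀ s, s < n → J s ⊆ Finset.range k \ F ∧ Cov (L s) (h s) (J s) 0 (L s)) ∧
      ∀ s s', s < n → s' < n → s ≠ s' → Disjoint (J s) (J s') := by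
  have hφ : 10 ≤ φ := by omega
  have hk0 : 0 < k := by omega
  have hoff : 0 < off L n := by
    have : 0 < k ^ 2 := by positivity
    omega
  -- bound for the heights
  have hp' : ∀ s, s < n → ∀ i, i < L s → h s i ≤ k / 10 ^ 11 := by
    intro s hs i hi
    have := hp s hs i hi
    rw [Nat.le_div_iff_mul_le (by norm_num)]
    omega
  have hpk : 10 ^ 11 * (k / 10 ^ 11) ≤ k := Nat.mul_div_le _ _
  obtain ⟨Q, hQ, hQe⟩ := exists_quiet_pt hp' hoff
  obtain ⟨i0, hi0, hQ1, hQ2⟩ := exists_piece hQ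
  have hSe : ∃ S, S = ∑ s ∈ Finset.range n, ∑ i ∈ Finset.range (L s), h s i := ⟨_, rfl⟩
  obtain ⟨S, hSdef⟩ := hSe
  rw [← hSdef] at hQe hS hb
  have hee : ∃ e, e = (dng L h n Q).card := ⟨_, rfl⟩
  obtain ⟨e, he⟩ := hee
  rw [← he] at hQe
  have hpe : ∃ p, p = k / 10 ^ 11 := ⟨_, rfl⟩
  obtain ⟨p, hpdef⟩ := hpe
  rw [← hpdef] at hp' hpk hQe
  have hTe : ∃ T, T = off L n := ⟨_, rfl⟩
  obtain ⟨T, hTdef⟩ := hTe
  rw [← hTdef] at hQe hT hb hoff
  -- few dangerous positions
  have h10 : 10 * e * k ≤ S := by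
    have h1 : 50 * (e * T) ≤ k * S := by
      have h2 : 50 * (2 * 10 ^ 9 * p * S) = (10 ^ 11 * p) * S := by ring
      have h3 : (10 ^ 11 * p) * S ≤ k * S := Nat.mul_le_mul_right _ hpk
      calc 50 * (e * T) ≤ 50 * (2 * 10 ^ 9 * p * S) := Nat.mul_le_mul_left _ hQe
        _ = (10 ^ 11 * p) * S := h2
        _ ≤ k * S := h3
    have h2 : e * k ^ 2 ≤ e * (5 * T) := Nat.mul_le_mul_left _ hT
    have h3 : (10 * e * k) * k ≤ S * k := by nlinarith
    exact Nat.le_of_mul_le_mul_right h3 hk0
  have hek : 10 * e ≤ k := by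
    have : (10 * e) * k ≤ k * k := by nlinarith
    exact Nat.le_of_mul_le_mul_right this hk0
  -- the large radii
  have hU0c : k ≤ (Finset.range k \ F).card + φ := by
    have h1 := Finset.le_card_sdiff F (Finset.range k)
    rw [Finset.card_range] at h1
    omega
  have hSt0 : St φ (Finset.range k \ F) F := St.init hbig (by omega)
  obtain ⟨E, hEU, hEc, hStE, hEtop⟩ := hSt0.tops (e := e) (by omega)
  have hEp : ∀ x ∈ E, p ≤ x := by
    intro x hx
    by_contra hcon
    push Not at hcon
    have h1 : (Finset.range k \ F) \ E ⊆ Finset.range p := by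
      intro y hy
      have := hEtop x hx y hy
      exact Finset.mem_range.2 (by omega)
    have h2 := Finset.card_le_card h1
    rw [Finset.card_range, Finset.card_sdiff_of_subset hEU] at h2
    omega
  -- the heights without the dangerous positions
  let h' : ℕ → ℕ → ℕ := fun s i => if (s, i) ∈ dng L h n Q then 0 else h s i
  have hh' : ∀ s i, h' s i ≤ h s i := by
    intro s i
    simp only [h']
    split_ifs <;> omega
  have D : Fam k L h' n Q i0 := by
    refine ⟨hlen, ?_, ?_, hi0, hQ1, hQ2, ?_⟩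
    · intro s hs i hi
      exact le_trans (hh' s i) (hl s hs i hi)
    · intro s hs i hi
      have h1 := hh' s i
      have h2 := hr s hs i hi
      omega
    · intro s hs i hi hpos
      by_cases hd : (s, i) ∈ dng L h n Q
      · simp only [h', if_pos hd] at hpos
        omega
      · have e1 : h' s i = h s i := by simp only [h', if_neg hd]
        rw [e1] at hpos ⊢
        exact mem_dng hs hi hpos hd
  have hinner : ∑ s ∈ Finset.Icc 0 (n - 1), (inner (L s) (h' s) 0 (L s)).card ≤ 2 * S := by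
    have e1 : Finset.Icc 0 (n - 1) = Finset.range n := by
      ext s
      rw [Finset.mem_Icc, Finset.mem_range]
      omega
    rw [e1, hSdef, Finset.mul_sum]
    refine Finset.sum_le_sum ?_
    intro s hs
    rw [Finset.mem_range] at hs
    refine le_trans (Finset.card_filter_le _ _) (le_trans (card_cuts ?_) ?_)
    · intro i hi
      exact le_trans (hh' s i) (hl s hs i hi)
    · exact Nat.mul_le_mul_left _ (Finset.sum_le_sum fun i _ => hh' s i)
  have hEsum : ∑ x ∈ E, (2 * x + 1) ≤ 2 * (e * k) := by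
    have h1 : ∑ x ∈ E, (2 * x + 1) ≤ ∑ _x ∈ E, 2 * k := by
      refine Finset.sum_le_sum ?_
      intro x hx
      have h2 := Finset.mem_range.1 (Finset.mem_sdiff.1 (hEU hx)).1
      omega
    rw [Finset.sum_const, smul_eq_mul, hEc] at h1
    refine le_trans h1 (le_of_eq ?_)
    ring
  have hUsum : ∑ x ∈ (Finset.range k \ F) \ E, (2 * x + 1) + ∑ x ∈ E, (2 * x + 1) =
      ∑ x ∈ Finset.range k \ F, (2 * x + 1) := Finset.sum_sdiff hEU
  have hn1 : n - 1 + 1 = n := by omega
  have hn2 : n - 1 + 2 = n + 1 := by omega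
  have hbud : 4 * (off L (n - 1 + 1) - off L 0) +
      ∑ s ∈ Finset.Icc 0 (n - 1), (inner (L s) (h' s) 0 (L s)).card +
      4 * ((n - 1 + 2) * (30000 * φ)) ≤ 4 * ∑ x ∈ (Finset.range k \ F) \ E, (2 * x + 1) := by
    rw [hn1, hn2, ← hTdef]
    have h1 : 10 * e * k = 10 * (e * k) := by ring
    rw [h1] at h10
    generalize ∑ x ∈ (Finset.range k \ F) \ E, (2 * x + 1) = X1 at hUsum ⊢
    generalize ∑ x ∈ E, (2 * x + 1) = X2 at hUsum hEsum
    generalize ∑ x ∈ Finset.range k \ F, (2 * x + 1) = X3 at hUsum hb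
    generalize ∑ s ∈ Finset.Icc 0 (n - 1), (inner (L s) (h' s) 0 (L s)).card = X4 at hinner ⊢
    generalize (n + 1) * (30000 * φ) = X5 at hb ⊢
    generalize e * k = X6 at h10 hEsum
    generalize off L 0 = X7
    clear hEtop hEp hQe hT hS hpk hp'
    omega
  obtain ⟨J, hJ1, hJ2⟩ := two_sided D (n - 1) 0 (n - 1) ((Finset.range k \ F) \ E) F (by omega)
    (Nat.zero_le _) (by omega) (by omega)
    (Finset.sdiff_subset.trans Finset.sdiff_subset) hStE (by omega) hbud
  -- radii for the dangerous positions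
  have hfe : ∃ f : ℕ × ℕ → ℕ, (∀ z ∈ dng L h n Q, f z ∈ E) ∧
      ∀ z ∈ dng L h n Q, ∀ z' ∈ dng L h n Q, f z = f z' → z = z' := by
    have g : {x // x ∈ dng L h n Q} ≃ {x // x ∈ E} := Finset.equivOfCardEq (by rw [hEc, ← he])
    refine ⟨fun z => if hz : z ∈ dng L h n Q then (g ⟨z, hz⟩ : ℕ) else 0, ?_, ?_⟩
    · intro z hz
      simp only [dif_pos hz]
      exact (g ⟨z, hz⟩).2
    · intro z hz z' hz' hzz
      simp only [dif_pos hz, dif_pos hz'] at hzz
      have h1 := g.injective (Subtype.ext hzz)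
      exact congrArg Subtype.val h1
  obtain ⟨f, hfE, hfi⟩ := hfe
  let Dg : ℕ → Finset ℕ := fun s => (Finset.range (L s)).filter (fun i => (s, i) ∈ dng L h n Q)
  have hDg : ∀ s i, i ∈ Dg s → (s, i) ∈ dng L h n Q := fun s i hi => (Finset.mem_filter.1 hi).2
  have himg : ∀ s, (Dg s).image (fun i => f (s, i)) ⊆ E := by
    intro s x hx
    rw [Finset.mem_image] at hx
    obtain ⟨i, hi, rfl⟩ := hx
    exact hfE _ (hDg s i hi)
  refine ⟨fun s => J s ∪ (Dg s).image (fun i => f (s, i)), ?_, ?_⟩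
  · intro s hs
    obtain ⟨h1, h2⟩ := hJ1 s (Nat.zero_le _) (by omega)
    refine ⟨Finset.union_subset (h1.trans Finset.sdiff_subset) ((himg s).trans hEU), ?_⟩
    refine cov_add (h' := h' s) ?_ (fun i => f (s, i)) ?_ ?_ ?_ h2
    · intro i hi
      have hd : (s, i) ∉ dng L h n Q := by
        intro hd
        apply hi
        refine Finset.mem_filter.2 ⟨Finset.mem_range.2 ?_, hd⟩
        exact (Finset.mem_filter.1 hd).2.1
      simp only [h', if_neg hd]
    · intro i j hi hj hij
      have := hfi _ (hDg s i hi) _ (hDg s j hj) hij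
      exact congrArg Prod.snd this
    · intro i hi hmem
      exact (Finset.mem_sdiff.1 (h1 hmem)).2 (hfE _ (hDg s i hi))
    · intro i hi
      have h3 := hfE _ (hDg s i hi)
      exact le_trans (hp' s hs i (Finset.mem_range.1 (Finset.mem_filter.1 hi).1)) (hEp _ h3)
  · intro s s' hs hs' hss
    have hd1 := hJ2 s s' (Nat.zero_le _) (by omega) (Nat.zero_le _) (by omega) hss
    have h1 := (hJ1 s (Nat.zero_le _) (by omega)).1
    have h1' := (hJ1 s' (Nat.zero_le _) (by omega)).1
    rw [Finset.disjoint_left] at hd1 ⊢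
    intro x hx hx'
    rw [Finset.mem_union] at hx hx'
    rcases hx with hx | hx
    · rcases hx' with hx' | hx'
      · exact hd1 hx hx'
      · exact (Finset.mem_sdiff.1 (h1 hx)).2 (himg s' hx')
    · rcases hx' with hx' | hx'
      · exact (Finset.mem_sdiff.1 (h1' hx')).2 (himg s hx)
      · rw [Finset.mem_image] at hx hx'
        obtain ⟨i, hi, rfl⟩ := hx
        obtain ⟨j, hj, hij⟩ := hx'
        have := hfi _ (hDg s' j hj) _ (hDg s i hi) hij
        exact hss (congrArg Prod.fst this).symm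

theorem big_pieces {k φ n : ℕ} {L : ℕ → ℕ} {h : ℕ → ℕ → ℕ} {F : Finset ℕ}
    (hk : 10 ^ 6 * φ ≤ k) (hbig : ∀ f ∈ F, 4000 * φ ≤ f)
    (hcard : F.card + 5 * n + 5 ≤ φ)
    (hlen : ∀ s, s < n → 19 * k ≤ 10 * L s)
    (hl : ∀ s, s < n → ∀ i, i < L s → h s i ≤ i)
    (hr : ∀ s, s < n → ∀ i, i < L s → i + h s i < L s)
    (hp : ∀ s, s < n → ∀ i, i < L s → 10 ^ 11 * h s i ≤ k)
    (hb : ∑ s ∈ Finset.range n, (L s + ∑ i ∈ Finset.range (L s), h s i + 120000 * φ) ≤
      ∑ x ∈ Finset.range k \ F, (2 * x + 1)) :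
    ∃ J : ℕ → Finset ℕ,
      (∀ s, s < n → J s ⊆ Finset.range k \ F ∧ Cov (L s) (h s) (J s) 0 (L s)) ∧
      ∀ s s', s < n → s' < n → s ≠ s' → Disjoint (J s) (J s') := by
  rcases Nat.eq_zero_or_pos n with hn | hn
  · subst hn
    exact ⟨fun _ => ∅, fun s hs => absurd hs (by omega), fun s _ hs => absurd hs (by omega)⟩
  have hφ : 10 ≤ φ := by omega
  have hk0 : 0 < k := by omega
  -- rewrite the budget
  have hsplit : ∑ s ∈ Finset.range n, (L s + ∑ i ∈ Finset.range (L s), h s i + 120000 * φ) =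
      off L n + ∑ s ∈ Finset.range n, ∑ i ∈ Finset.range (L s), h s i + n * (120000 * φ) := by
    rw [Finset.sum_add_distrib, Finset.sum_add_distrib, Finset.sum_const, Finset.card_range,
      smul_eq_mul, off]
  rw [hsplit] at hb
  have hup : ∑ x ∈ Finset.range k \ F, (2 * x + 1) ≤ k ^ 2 := by
    rw [← sum_range_radii k]
    exact Finset.sum_le_sum_of_subset Finset.sdiff_subset
  have hlow : (k - φ) ^ 2 ≤ ∑ x ∈ Finset.range k \ F, (2 * x + 1) := by
    have h1 := sum_sub_ge 0 _ (Finset.range k \ F) rfl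
    simp only [Nat.mul_zero, Nat.sub_zero] at h1
    refine le_trans (Nat.pow_le_pow_left ?_ 2) h1
    have h2 := Finset.le_card_sdiff F (Finset.range k)
    rw [Finset.card_range] at h2
    omega
  have hS : ∑ s ∈ Finset.range n, ∑ i ∈ Finset.range (L s), h s i ≤ k ^ 2 := by omega
  rcases Nat.lt_or_ge (5 * off L n) (k ^ 2) with hshort | hlong
  · -- padding
    obtain ⟨pad, hpad⟩ : ∃ pad, off L n + pad = k ^ 2 / 5 + 1 := by
      refine ⟨k ^ 2 / 5 + 1 - off L n, ?_⟩
      omega
    let L' : ℕ → ℕ := fun s => if s = 0 then L 0 + pad else L s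
    let h' : ℕ → ℕ → ℕ := fun s i => if i < L s then h s i else 0
    have hLL' : ∀ s, L s ≤ L' s := by
      intro s
      simp only [L']
      split_ifs with h1
      · subst h1; omega
      · exact le_refl _
    have hoff' : off L' n = off L n + pad := by
      obtain ⟨m, rfl⟩ : ∃ m, n = m + 1 := ⟨n - 1, by omega⟩
      rw [off, off, Finset.sum_range_succ', Finset.sum_range_succ']
      simp only [L', if_true, Nat.add_eq_zero_iff, one_ne_zero, and_false, if_false]
      omega
    have hsum' : ∑ s ∈ Finset.range n, ∑ i ∈ Finset.range (L' s), h' s i =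
        ∑ s ∈ Finset.range n, ∑ i ∈ Finset.range (L s), h s i := by
      refine Finset.sum_congr rfl ?_
      intro s _
      obtain ⟨d, hd⟩ := Nat.exists_eq_add_of_le (hLL' s)
      rw [hd, Finset.sum_range_add]
      have e1 : ∑ x ∈ Finset.range d, h' s (L s + x) = 0 := by
        refine Finset.sum_eq_zero ?_
        intro x _
        simp only [h']
        rw [if_neg (by omega)]
      rw [e1, Nat.add_zero]
      refine Finset.sum_congr rfl ?_
      intro i hi
      simp only [h']
      rw [if_pos (Finset.mem_range.1 hi)]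
    obtain ⟨J, hJ1, hJ2⟩ := big_core (L := L') (h := h') hn hk hbig hcard (by
        intro s hs
        have h1 := hlen s hs
        have h2 := hLL' s
        omega) (by
        intro s hs i hi
        simp only [h']
        split_ifs with h1
        · exact hl s hs i h1
        · exact Nat.zero_le _) (by
        intro s hs i hi
        simp only [h']
        split_ifs with h1
        · have := hr s hs i h1
          have := hLL' s
          omega
        · exact hi) (by
        intro s hs i hi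
        simp only [h']
        split_ifs with h1
        · exact hp s hs i h1
        · simp) (by
        rw [hoff', hpad]
        omega) (by rw [hsum']; exact hS) (by
        rw [hsum', hoff', hpad]
        obtain ⟨d, hd⟩ : ∃ d, k = φ + d := Nat.exists_eq_add_of_le (by omega)
        have e1 : k - φ = d := by omega
        rw [e1] at hlow
        have h1 : k ^ 2 = φ ^ 2 + 2 * (φ * d) + d ^ 2 := by rw [hd]; ring
        have h2 : 10 ^ 5 * φ ≤ d := by omega
        have h3 : 10 ^ 5 * (φ * d) ≤ d ^ 2 := by nlinarith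
        have h4 : 10 ^ 5 * φ ^ 2 ≤ φ * d := by nlinarith
        have h5 : (n + 1) * (30000 * φ) ≤ 6000 * φ ^ 2 := by
          have h6 : 5 * (n + 1) ≤ φ := by omega
          have h7 : 5 * (n + 1) * (6000 * φ) ≤ φ * (6000 * φ) := Nat.mul_le_mul_right _ h6
          nlinarith
        have h8 : 100 ≤ φ ^ 2 := by nlinarith
        have h9 : k ^ 2 / 5 ≤ (φ ^ 2 + 2 * (φ * d) + d ^ 2) / 5 := by rw [h1]
        generalize ∑ x ∈ Finset.range k \ F, (2 * x + 1) = X1 at *
        generalize ∑ s ∈ Finset.range n, ∑ i ∈ Finset.range (L s), h s i = X2 at *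
        generalize (n + 1) * (30000 * φ) = X3 at *
        generalize k ^ 2 = X4 at *
        generalize φ ^ 2 = X5 at *
        generalize φ * d = X6 at *
        generalize d ^ 2 = X7 at *
        clear hoff' hsum'
        omega)
    refine ⟨J, ?_, hJ2⟩
    intro s hs
    obtain ⟨h1, c, hc⟩ := hJ1 s hs
    refine ⟨h1, c, ?_⟩
    intro i hi h2 h3
    have e1 : h' s i = h s i := by simp only [h']; rw [if_pos hi]
    have h4 := hLL' s
    have := hc i (by omega) (by rw [e1]; exact h2) (by rw [e1]; omega)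
    rw [e1] at this
    exact this
  · refine big_core hn hk hbig hcard ?_ hl hr hp hlong hS ?_
    · intro s hs
      have := hlen s hs
      omega
    · have h1 : n * (120000 * φ) = 4 * (n * (30000 * φ)) := by ring
      have h2 : (n + 1) * (30000 * φ) = n * (30000 * φ) + 30000 * φ := by ring
      have h3 : 30000 * φ ≤ n * (30000 * φ) := Nat.le_mul_of_pos_left _ hn
      rw [h1] at hb
      rw [h2]
      generalize n * (30000 * φ) = X3 at *
      omega

end Pool.Agent.Helper64.FB
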