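import Pool.Agent.Helper64.FB.Split

set_option autoImplicit false

/-!
FB-17. Coordinates of a convex set along a longest geodesic.
-/

namespace Pool.Agent.Helper64.FB

open Finset Pool.Agent.Helper64.Burn

variable {W : Type*}

/-- `x 0, ..., x d` is a longest geodesic of `S`; `pos v` is the index of the projection of `v`
and `ht v` the distance of `v` to it. -/
structure Coord (T : SimpleGraph W) (S : Finset W) (d : ℕ) (x : ℕ → W) (pos ht : W → ℕ) :
    Prop where
  mem : ∀ j, j ≤ d → x j ∈ S
  dist : ∀ v ∈ S, ∀ j, j ≤ d → T.dist (x j) v = (j - pos v) + (pos v - j) + ht v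
  left : ∀ v ∈ S, ht v ≤ pos v
  right : ∀ v ∈ S, pos v + ht v ≤ d

theorem exists_coord {T : SimpleGraph W} (hT : T.IsTree) {S : Finset W} (hS : Conv T S)
    (hne : S.Nonempty) : ∃ (d : ℕ) (x : ℕ → W) (pos ht : W → ℕ), Coord T S d x pos ht := by
  classical
  obtain ⟨e, he, hmax⟩ := Finset.exists_max_image (S ×ˢ S) (fun e => T.dist e.1 e.2)
    (hne.product hne)
  obtain ⟨a, b⟩ := e
  obtain ⟨ha, hb⟩ := Finset.mem_product.1 he
  simp only at ha hb
  have hmax' : ∀ u ∈ S, ∀ v ∈ S, T.dist u v ≤ T.dist a b := fun u hu v hv =>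
    hmax (u, v) (Finset.mem_product.2 ⟨hu, hv⟩)
  obtain ⟨d, hd⟩ : ∃ d, d = T.dist a b := ⟨_, rfl⟩
  rw [← hd] at hmax'
  have hc := hT.connected
  have h1 : ∀ j, ∃ z, j ≤ d → T.dist a z = j ∧ T.dist a z + T.dist z b = d := by
    intro j
    by_cases hj : j ≤ d
    · obtain ⟨z, hz1, hz2⟩ := exists_between hc a b (t := j) (by omega)
      exact ⟨z, fun _ => ⟨hz1, by omega⟩⟩
    · exact ⟨a, fun h => absurd h hj⟩
  choose x hx using h1
  have hxS : ∀ j, j ≤ d → x j ∈ S := by
    intro j hj
    exact hS a ha b hb (x j) (by rw [(hx j hj).2, hd])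
  -- distances on the path
  have hxx : ∀ i j, i ≤ j → j ≤ d → T.dist (x i) (x j) = j - i := by
    intro i j hij hj
    have hj1 := hx j hj
    have hi1 := hx i (hij.trans hj)
    obtain ⟨z, hz1, hz2⟩ := exists_between hc a (x j) (t := i) (by omega)
    have hz3 : T.dist a z + T.dist z b = T.dist a b := by
      have h3 := hc.dist_triangle (u := z) (v := x j) (w := b)
      have h4 := hc.dist_triangle (u := a) (v := z) (w := b)
      omega
    have hz4 : x i = z := between_unique hT (by rw [hi1.2, hd]) hz3 (by rw [hi1.1, hz1])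
    rw [hz4]
    omega
  have hx0 : x 0 = a := by
    have := (hx 0 (Nat.zero_le _)).1
    exact (hc.dist_eq_zero_iff.1 this).symm
  have hxd : x d = b := by
    have h3 := hx d le_rfl
    exact hc.dist_eq_zero_iff.1 (by omega)
  -- the projection
  have h2 : ∀ v, ∃ p h, v ∈ S → (∀ j, j ≤ d → T.dist (x j) v = (j - p) + (p - j) + h) ∧
      h ≤ p ∧ p + h ≤ d := by
    intro v
    by_cases hv : v ∈ S
    swap
    · exact ⟨0, 0, fun h => absurd h hv⟩
    let Q : Finset ℕ := (Finset.range (d + 1)).filter
      (fun p => p + T.dist (x p) v = T.dist a v)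
    have hQ : Q.Nonempty := ⟨0, Finset.mem_filter.2 ⟨Finset.mem_range.2 (Nat.succ_pos _), by
      rw [hx0, Nat.zero_add]⟩⟩
    obtain ⟨p, hpQ, hpmax⟩ := Finset.exists_max_image Q id hQ
    obtain ⟨hp1, hp2⟩ := Finset.mem_filter.1 hpQ
    rw [Finset.mem_range] at hp1
    have hpd : p ≤ d := by omega
    have key : ∀ j, j ≤ d → T.dist (x j) v = (j - p) + (p - j) + T.dist (x p) v := by
      intro j hj
      rcases le_or_gt j p with hjp | hjp
      · have h3 := hc.dist_triangle (u := x j) (v := x p) (w := v)
        have h4 := hc.dist_triangle (u := a) (v := x j) (w := v)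
        rw [hxx j p hjp hpd] at h3
        rw [(hx j hj).1] at h4
        omega
      · have hadj : T.Adj (x p) (x (p + 1)) := by
          rw [← SimpleGraph.dist_eq_one_iff_adj, hxx p (p + 1) (Nat.le_succ p) (by omega)]
          omega
        have hne' : T.dist v (x (p + 1)) = T.dist v (x p) + 1 := by
          rcases hT.dist_eq_dist_add_one_of_adj v hadj with h5 | h5
          · exfalso
            have h6 : p + 1 ∈ Q := by
              refine Finset.mem_filter.2 ⟨Finset.mem_range.2 (by omega), ?_⟩
              rw [SimpleGraph.dist_comm (u := x (p + 1))]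
              rw [SimpleGraph.dist_comm (u := x p)] at hp2
              omega
            have h7 : p + 1 ≤ p := hpmax _ h6
            omega
          · exact h5
        have h8 : T.dist (x j) (x p) = T.dist (x j) (x (p + 1)) + 1 := by
          rw [SimpleGraph.dist_comm (u := x j), SimpleGraph.dist_comm (u := x j),
            hxx p j hjp.le hj, hxx (p + 1) j hjp hj]
          omega
        have h9 := edge_cross hT hadj hne' h8
        rw [SimpleGraph.dist_comm (u := v), SimpleGraph.dist_comm (u := v),
          hxx (p + 1) j hjp hj] at h9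
        omega
    refine ⟨p, T.dist (x p) v, fun _ => ⟨key, ?_, ?_⟩⟩
    · have h3 := key d le_rfl
      have h4 := hmax' (x d) (hxS d le_rfl) v hv
      omega
    · have h4 := hmax' a ha v hv
      omega
  choose pos ht hph using h2
  exact ⟨d, x, pos, ht, hxS, fun v hv => (hph v hv).1, fun v hv => (hph v hv).2.1,
    fun v hv => (hph v hv).2.2⟩

theorem Coord.rev {T : SimpleGraph W} {S : Finset W} {d : ℕ} {x : ℕ → W} {pos ht : W → ℕ}
    (C : Coord T S d x pos ht) : Coord T S d (fun j => x (d - j)) (fun v => d - pos v) ht where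
  mem j _ := C.mem _ (Nat.sub_le d j)
  dist v hv j hj := by
    have h1 := C.dist v hv (d - j) (Nat.sub_le d j)
    have h2 := C.right v hv
    omega
  left v hv := by
    have h2 := C.right v hv
    omega
  right v hv := by
    have h1 := C.left v hv
    have h2 := C.right v hv
    omega

/-- The coordinates of the path vertices. -/
theorem Coord.self {T : SimpleGraph W} (hT : T.Connected) {S : Finset W} {d : ℕ} {x : ℕ → W}
    {pos ht : W → ℕ} (C : Coord T S d x pos ht) {j : ℕ} (hj : j ≤ d) :
    pos (x j) = j ∧ ht (x j) = 0 := by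
  have h1 := C.dist (x j) (C.mem j hj) j hj
  rw [SimpleGraph.dist_self] at h1
  omega

/-- A vertex of height `0` is a path vertex. -/
theorem Coord.eq_of_ht {T : SimpleGraph W} (hT : T.Connected) {S : Finset W} {d : ℕ}
    {x : ℕ → W} {pos ht : W → ℕ} (C : Coord T S d x pos ht) {v : W} (hv : v ∈ S)
    (h0 : ht v = 0) : v = x (pos v) := by
  have h1 := C.dist v hv (pos v) (by have := C.right v hv; omega)
  have h2 : T.dist (x (pos v)) v = 0 := by omega
  exact (hT.dist_eq_zero_iff.1 h2).symm

/-- The chain from the path to `v`. -/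
theorem Coord.chain {T : SimpleGraph W} (hT : T.Connected) {S : Finset W} (hS : Conv T S)
    {d : ℕ} {x : ℕ → W} {pos ht : W → ℕ} (C : Coord T S d x pos ht) {v : W} (hv : v ∈ S)
    {t : ℕ} (ht' : t ≤ ht v) : ∃ u ∈ S, pos u = pos v ∧ ht u = t := by
  have hr := C.right v hv
  have h1 := C.dist v hv (pos v) (by omega)
  obtain ⟨u, hu1, hu2⟩ := exists_between hT (x (pos v)) v (t := t) (by omega)
  have huS : u ∈ S := hS _ (C.mem _ (by omega)) v hv u hu2
  have hru := C.right u huS
  have h2 := C.dist u huS (pos v) (by omega)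
  have h3 := C.dist u huS (pos u) (by omega)
  have h4 := C.dist v hv (pos u) (by omega)
  have h5 := hT.dist_triangle (u := x (pos u)) (v := u) (w := v)
  exact ⟨u, huS, by omega, by omega⟩

end Pool.Agent.Helper64.FB
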