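import Pool.Agent.Helper64.FB.Pair

set_option autoImplicit false

/-!
FB-6. The end of a segment when few radii are left.
-/

namespace Pool.Agent.Helper64.FB

open Finset Pool.Agent.Helper64.Burn

theorem cov_trivial {L : ℕ} {h : ℕ → ℕ} {a : ℕ} (hL : L ≤ a) : Cov L h ∅ a L :=
  ⟨fun _ => 0, fun i hi h1 _ => absurd hi (by omega)⟩

/-- Adding the largest radius to a set of smaller radii. -/
theorem crude_insert {L : ℕ} {h : ℕ → ℕ} {φ η : ℕ} {U F J' : Finset ℕ} {a : ℕ}
    (hne : U.Nonempty) (hη : ∀ i, i < L → a + h i ≤ i → h i ≤ η)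
    (hJ' : J' ⊆ U.erase (top U)) (hSt : St φ (U.erase (top U) \ J') F)
    (hc : Cov L h J' (a + (2 * top U + 1) - 2 * η) L) :
    insert (top U) J' ⊆ U ∧ St φ (U \ insert (top U) J') F ∧ Cov L h (insert (top U) J') a L ∧
      (∑ x ∈ insert (top U) J', (2 * x + 1) = (2 * top U + 1) + ∑ x ∈ J', (2 * x + 1)) ∧
      (insert (top U) J').card = J'.card + 1 := by
  have hr : top U ∈ U := top_mem hne
  have hrJ : top U ∉ J' := fun hx => (Finset.mem_erase.1 (hJ' hx)).1 rfl
  refine ⟨?_, ?_, ?_, Finset.sum_insert hrJ, Finset.card_insert_of_notMem hrJ⟩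
  · intro x hx
    rcases Finset.mem_insert.1 hx with h1 | h1
    · rw [h1]; exact hr
    · exact Finset.mem_of_mem_erase (hJ' h1)
  · have e : U \ insert (top U) J' = U.erase (top U) \ J' := by
      ext x
      simp only [Finset.mem_sdiff, Finset.mem_insert, Finset.mem_erase]
      tauto
    rw [e]; exact hSt
  · refine Cov.bad (η := η) (Finset.mem_insert_self _ _) (fun i hi h1 _ => hη i hi h1) ?_
    rw [Finset.erase_insert hrJ]
    exact hc

/-- Boundedly many radii. -/
theorem crude_few {L : ℕ} {h : ℕ → ℕ} {φ η : ℕ} {F : Finset ℕ} : ∀ (s : ℕ) (U : Finset ℕ) (a : ℕ),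
    St φ U F → (∀ i, i < L → a + h i ≤ i → h i ≤ η) → s ≤ U.card →
    L - a ≤ s * (2 * (U.card - s) + 1 - 2 * η) →
    ∃ J : Finset ℕ, J ⊆ U ∧ St φ (U \ J) F ∧ Cov L h J a L ∧
      ∑ x ∈ J, (2 * x + 1) ≤ (L - a) + (2 * top U + 1) + 2 * η * s := by
  intro s
  induction s with
  | zero =>
    intro U a hU _ _ hs
    rw [Nat.zero_mul] at hs
    refine ⟨∅, Finset.empty_subset _, ?_, cov_trivial (by omega), ?_⟩
    · rw [Finset.sdiff_empty]; exact hU
    · simp
  | succ s ih =>
    intro U a hU hη hsU hs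
    rcases Nat.lt_or_ge a L with hlt | hge
    swap
    · refine ⟨∅, Finset.empty_subset _, ?_, cov_trivial hge, ?_⟩
      · rw [Finset.sdiff_empty]; exact hU
      · simp
    have hne : U.Nonempty := Finset.card_pos.1 (by omega)
    have hr : top U ∈ U := top_mem hne
    have hct := card_le_top hne
    have hcard : (U.erase (top U)).card = U.card - 1 := Finset.card_erase_of_mem hr
    have hE := hU.erase_top hne
    rcases Nat.lt_or_ge (a + (2 * top U + 1) - 2 * η) L with hlt' | hge'
    · have hη' : ∀ i, i < L → a + (2 * top U + 1) - 2 * η + h i ≤ i → h i ≤ η := by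
        intro i hi h1
        rcases Nat.lt_or_ge (2 * top U + 1) (2 * η) with h2 | h2
        · -- impossible: all effective lengths vanish
          exfalso
          have e : 2 * (U.card - (s + 1)) + 1 - 2 * η = 0 := by omega
          rw [e, Nat.mul_zero] at hs
          omega
        · exact hη i hi (by omega)
      have hs' : L - (a + (2 * top U + 1) - 2 * η) ≤
          s * (2 * ((U.erase (top U)).card - s) + 1 - 2 * η) := by
        have e1 : (U.erase (top U)).card - s = U.card - (s + 1) := by omega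
        rw [e1]
        rw [Nat.succ_mul] at hs
        rcases Nat.eq_zero_or_pos (2 * (U.card - (s + 1)) + 1 - 2 * η) with h2 | h2
        · rw [h2] at hs
          omega
        · omega
      obtain ⟨J', hJ', hSt', hCov', hsum'⟩ := ih (U.erase (top U)) _ hE hη' (by omega) hs'
      obtain ⟨h1, h2, h3, h4, _⟩ := crude_insert hne hη hJ' hSt' hCov'
      refine ⟨_, h1, h2, h3, ?_⟩
      rw [h4]
      have htm : top (U.erase (top U)) ≤ top U := top_mono (Finset.erase_subset _ _)
      have e2 : 2 * η * (s + 1) = 2 * η * s + 2 * η := by ring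
      rw [e2]
      omega
    · obtain ⟨h1, h2, h3, h4, _⟩ := crude_insert (J' := ∅) hne hη (Finset.empty_subset _)
        (by rw [Finset.sdiff_empty]; exact hE) (cov_trivial hge')
      refine ⟨_, h1, h2, h3, ?_⟩
      rw [h4]
      simp only [Finset.sum_empty]
      omega

/-- All windows have height zero. -/
theorem crude_zero {L : ℕ} {h : ℕ → ℕ} {φ : ℕ} {F : Finset ℕ} : ∀ (n : ℕ) (U : Finset ℕ) (a : ℕ),
    U.card = n → St φ U F → (∀ i, i < L → a + h i ≤ i → h i ≤ 0) →
    L - a ≤ ∑ x ∈ U, (2 * x + 1) →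
    ∃ J : Finset ℕ, J ⊆ U ∧ St φ (U \ J) F ∧ Cov L h J a L ∧
      ∑ x ∈ J, (2 * x + 1) ≤ (L - a) + (2 * top U + 1) := by
  intro n
  induction n with
  | zero =>
    intro U a hn hU _ hs
    rw [Finset.card_eq_zero] at hn
    subst hn
    rw [Finset.sum_empty] at hs
    refine ⟨∅, Finset.empty_subset _, ?_, cov_trivial (by omega), ?_⟩
    · rw [Finset.sdiff_empty]; exact hU
    · simp
  | succ n ih =>
    intro U a hn hU hη hs
    rcases Nat.lt_or_ge a L with hlt | hge
    swap
    · refine ⟨∅, Finset.empty_subset _, ?_, cov_trivial hge, ?_⟩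
      · rw [Finset.sdiff_empty]; exact hU
      · simp
    have hne : U.Nonempty := Finset.card_pos.1 (by omega)
    have hr : top U ∈ U := top_mem hne
    have hcard : (U.erase (top U)).card = n := by
      rw [Finset.card_erase_of_mem hr]; omega
    have hE := hU.erase_top hne
    have hsum : ∑ x ∈ U.erase (top U), (2 * x + 1) + (2 * top U + 1) = ∑ x ∈ U, (2 * x + 1) :=
      Finset.sum_erase_add U _ hr
    rcases Nat.lt_or_ge (a + (2 * top U + 1) - 2 * 0) L with hlt' | hge'
    · have hη' : ∀ i, i < L → a + (2 * top U + 1) - 2 * 0 + h i ≤ i → h i ≤ 0 := by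
        intro i hi h1
        exact hη i hi (by omega)
      obtain ⟨J', hJ', hSt', hCov', hsum'⟩ := ih (U.erase (top U)) _ hcard hE hη' (by omega)
      obtain ⟨h1, h2, h3, h4, _⟩ := crude_insert (η := 0) hne hη hJ' hSt' hCov'
      refine ⟨_, h1, h2, h3, ?_⟩
      rw [h4]
      have htm : top (U.erase (top U)) ≤ top U := top_mono (Finset.erase_subset _ _)
      omega
    · obtain ⟨h1, h2, h3, h4, _⟩ := crude_insert (J' := ∅) (η := 0) hne hη
        (Finset.empty_subset _) (by rw [Finset.sdiff_empty]; exact hE) (cov_trivial hge')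
      refine ⟨_, h1, h2, h3, ?_⟩
      rw [h4]
      simp only [Finset.sum_empty]
      omega

theorem crude_step {L : ℕ} {h : ℕ → ℕ} {R φ : ℕ} {U F : Finset ℕ} {a : ℕ} (S : Seg L h R)
    (hU : St φ U F) (hφ : 5 ≤ φ) (haL : a ≤ L) (hm : U.card ≤ 14000 * φ)
    (h8 : L ≤ a + 8 * U.card ∨ U.card < 31000)
    (hb : 4 * ((L - a) + R) + (inner L h a L).card ≤ 4 * ∑ x ∈ U, (2 * x + 1)) :
    ∃ J : Finset ℕ, J ⊆ U ∧ St φ (U \ J) F ∧ Cov L h J a L ∧
      4 * ∑ x ∈ J, (2 * x + 1) ≤ 4 * (L - a) + 4 * (30000 * φ) := by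
  have hheight := S.height hU hb
  rcases Nat.lt_or_ge U.card 31000 with hsmall | hlarge
  · have h0 : ∀ i, i < L → a + h i ≤ i → h i ≤ 0 := by
      intro i hi h1
      have := hheight i hi h1
      omega
    obtain ⟨J, hJ, hSt, hCov, hsum⟩ := crude_zero U.card U a rfl hU h0 (by omega)
    refine ⟨J, hJ, hSt, hCov, ?_⟩
    rcases U.eq_empty_or_nonempty with he | hne
    · subst he
      have : top (∅ : Finset ℕ) = 0 := by simp [top]
      omega
    · have hf := (hU.facts hne).2.1
      omega
  · have h8' : L ≤ a + 8 * U.card := by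
      rcases h8 with h1 | h1
      · exact h1
      · omega
    have hne : U.Nonempty := Finset.card_pos.1 (by omega)
    have hf := (hU.facts hne).2.1
    obtain ⟨J, hJ, hSt, hCov, hsum⟩ := crude_few 5 U a hU hheight (by omega) (by omega)
    refine ⟨J, hJ, hSt, hCov, ?_⟩
    omega

end Pool.Agent.Helper64.FB
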