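import Pool.Agent.Helper64.Burn.Leaves

set_option autoImplicit false

/-!
FB-23. Degrees and leaves.
-/

namespace Pool.Agent.Helper64.FB

open Finset Pool.Agent.Helper64.Burn

variable {W : Type*}

theorem sum_degree_le [Fintype W] {T : SimpleGraph W} [DecidableRel T.Adj] (hT : T.IsTree)
    {l : ℕ} (hl : {x | (T.neighborSet x).ncard = 1}.ncard ≤ l) :
    ∑ v, (T.degree v - 2) ≤ l := by
  classical
  have hE : #T.edgeFinset + 1 = Fintype.card W := hT.card_edgeFinset
  have hS := T.sum_degrees_eq_twice_card_edges
  have hnc : ∀ v, (T.neighborSet v).ncard = T.degree v := by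
    intro v
    rw [← SimpleGraph.card_neighborSet_eq_degree, Set.ncard_eq_toFinset_card', Set.toFinset_card]
  rcases subsingleton_or_nontrivial W with hW | hW
  · have h0 : ∀ v, T.degree v - 2 = 0 := by
      intro v
      have h1 : T.degree v = 0 := by
        rw [SimpleGraph.degree, Finset.card_eq_zero, Finset.eq_empty_iff_forall_notMem]
        intro w hw
        rw [SimpleGraph.mem_neighborFinset] at hw
        exact hw.ne (Subsingleton.elim _ _)
      omega
    rw [Finset.sum_eq_zero (fun v _ => h0 v)]
    exact Nat.zero_le _
  · have hpos : ∀ v, 0 < T.degree v := fun v =>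
      hT.connected.preconnected.degree_pos_of_nontrivial v
    have h1 : ∑ v, (T.degree v - 2) + ∑ _v : W, 2 =
        ∑ v, T.degree v + ∑ v, (if T.degree v = 1 then 1 else 0) := by
      rw [← Finset.sum_add_distrib, ← Finset.sum_add_distrib]
      refine Finset.sum_congr rfl (fun v _ => ?_)
      have := hpos v
      split_ifs with h <;> omega
    have h2 : ∑ v, (if T.degree v = 1 then 1 else 0) =
        {x | (T.neighborSet x).ncard = 1}.ncard := by
      rw [← Finset.card_filter, ← Set.ncard_coe_finset]
      congr 1
      ext v
      simp [hnc]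
    rw [h2, hS, Finset.sum_const, Finset.card_univ, smul_eq_mul] at h1
    omega

end Pool.Agent.Helper64.FB
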