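import Pool.Agent.Helper64.FB.SegMain

set_option autoImplicit false

/-!
FB-8. The piece which contains the quiet point `q`.
-/

namespace Pool.Agent.Helper64.FB

open Finset Pool.Agent.Helper64.Burn

theorem inner_reflect {L : ℕ} {h : ℕ → ℕ} (hl : ∀ i, i < L → h i ≤ i)
    (hr : ∀ i, i < L → i + h i < L) :
    (inner L (fun i => h (L - 1 - i)) 0 L).card ≤ (inner L h 0 L).card := by
  refine Finset.card_le_card_of_injOn (fun z => L - z) ?_ ?_
  · intro z hz
    rw [Finset.mem_coe] at hz ⊢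
    simp only [Burn.inner, Finset.mem_filter, cuts, Finset.mem_biUnion, Finset.mem_range,
      Finset.mem_Ioc] at hz ⊢
    obtain ⟨⟨i, hi, hi1, hi2⟩, hz1, hz2⟩ := hz
    have h5 := hr (L - 1 - i) (by omega)
    have h6 := hl (L - 1 - i) (by omega)
    exact ⟨⟨L - 1 - i, by omega, by omega, by omega⟩, by omega, by omega⟩
  · intro z hz z' hz' hzz
    rw [Finset.mem_coe] at hz hz'
    simp only [Burn.inner, Finset.mem_filter] at hz hz'
    simp only at hzz
    omega

namespace FinalTwoAux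

theorem sq_ge (x : ℕ) : x ≤ 10 ^ 9 * x ^ 2 := by
  nlinarith [Nat.zero_le x, sq_nonneg x]

theorem inner_split {L : ℕ} {h : ℕ → ℕ} {q : ℕ} (hq : q ≤ L)
    (S1 : Seg q h (L - q)) (S2 : Seg (L - q) (fun j => h (L - 1 - j)) 0) :
    (inner q h 0 q).card + (inner (L - q) (fun j => h (L - 1 - j)) 0 (L - q)).card ≤
      (inner L h 0 L).card := by
  have e1 : (inner (L - q) (fun j => h (L - 1 - j)) 0 (L - q)).card =
      ((inner (L - q) (fun j => h (L - 1 - j)) 0 (L - q)).image (fun z => L - z)).card := by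
    rw [Finset.card_image_of_injOn]
    intro z hz z' hz' hzz
    rw [Finset.mem_coe] at hz hz'
    simp only [Burn.inner, Finset.mem_filter] at hz hz'
    simp only at hzz
    omega
  rw [e1, ← Finset.card_union_of_disjoint]
  · refine Finset.card_le_card ?_
    intro z hz
    rw [Finset.mem_union, Finset.mem_image] at hz
    simp only [Burn.inner, Finset.mem_filter, cuts, Finset.mem_biUnion, Finset.mem_range,
      Finset.mem_Ioc] at hz ⊢
    rcases hz with ⟨⟨i, hi, hi1, hi2⟩, hz1, hz2⟩ | ⟨y, ⟨⟨j, hj, hj1, hj2⟩, hy1, hy2⟩, rfl⟩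
    · exact ⟨⟨i, by omega, hi1, hi2⟩, hz1, by omega⟩
    · have h1 := S2.hl j hj
      have h2 := S2.hr j hj
      exact ⟨⟨L - 1 - j, by omega, by omega, by omega⟩, by omega, by omega⟩
  · rw [Finset.disjoint_left]
    intro z hz hz'
    rw [Finset.mem_image] at hz'
    obtain ⟨y, hy, rfl⟩ := hz'
    simp only [Burn.inner, Finset.mem_filter] at hz hy
    omega

theorem cov_join {L : ℕ} {h : ℕ → ℕ} {q : ℕ} (hq : q ≤ L)
    (S1 : Seg q h (L - q)) (S2 : Seg (L - q) (fun j => h (L - 1 - j)) 0) {J1 J2 : Finset ℕ}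
    (hd : Disjoint J1 J2) (h1 : Cov q h J1 0 q)
    (h2 : Cov (L - q) (fun j => h (L - 1 - j)) J2 0 (L - q)) : Cov L h (J1 ∪ J2) 0 L := by
  classical
  obtain ⟨c1, hc1⟩ := h1
  obtain ⟨c2, hc2⟩ := h2
  refine ⟨fun r => if r ∈ J1 then c1 r else (L : ℤ) - 1 - c2 r, ?_⟩
  intro i hi h3 h4
  rcases Nat.lt_or_ge i q with h5 | h5
  · obtain ⟨r, hr, hr1, hr2⟩ := hc1 i h5 h3 (S1.hr i h5)
    refine ⟨r, Finset.mem_union_left _ hr, ?_⟩
    simp only [if_pos hr]
    exact ⟨hr1, hr2⟩
  · have hj : L - 1 - i < L - q := by omega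
    have e : L - 1 - (L - 1 - i) = i := by omega
    have h6 := S2.hl _ hj
    have h7 := S2.hr _ hj
    obtain ⟨r, hr, hr1, hr2⟩ := hc2 (L - 1 - i) hj (by rw [Nat.zero_add]; exact h6) h7
    have hrJ : r ∉ J1 := fun hr' => Finset.disjoint_left.1 hd hr' hr
    refine ⟨r, Finset.mem_union_right _ hr, ?_⟩
    simp only [if_neg hrJ]
    simp only [e] at hr1 hr2
    have e2 : ((L - 1 - i : ℕ) : ℤ) = (L : ℤ) - 1 - i := by omega
    rw [e2] at hr1 hr2
    constructor <;> linarith

theorem cov_single_top {L : ℕ} {h : ℕ → ℕ} {K η : ℕ}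
    (hη : ∀ i, i < L → h i ≤ i → h i ≤ η) (hK : L + 2 * η ≤ 2 * K + 1) :
    Cov L h {K} 0 L := by
  refine Cov.crude (η := η) 1 {K} 0 L (Finset.card_singleton K) ?_ ?_
  · intro i hi h1 _
    exact hη i hi (by omega)
  · rw [Finset.sum_singleton]
    omega

theorem core {L : ℕ} {h : ℕ → ℕ} {q φ : ℕ} {U F : Finset ℕ}
    (hl : ∀ i, i < L → h i ≤ i) (hr : ∀ i, i < L → i + h i < L) (hq : q ≤ L) (hq2 : L ≤ 2 * q)
    (hquiet : ∀ i, i < L → 0 < h i → i + 10 ^ 9 * h i ^ 2 < q ∨ q + 10 ^ 9 * h i ^ 2 ≤ i)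
    (hU : St φ U F) (hF : F.card + 5 ≤ φ)
    (hb : 4 * L + (inner L h 0 L).card + 4 * (2 * (30000 * φ)) ≤ 4 * ∑ x ∈ U, (2 * x + 1)) :
    Cov L h U 0 L := by
  classical
  have S1 : Seg q h (L - q) := by
    refine ⟨fun i hi => hl i (by omega), ?_, ?_⟩
    · intro i hi
      rcases Nat.eq_zero_or_pos (h i) with h0 | h0
      · omega
      · have h1 := sq_ge (h i)
        rcases hquiet i (by omega) h0 with h2 | h2 <;> omega
    · intro i hi h0
      rcases hquiet i (by omega) h0 with h2 | h2 <;> omega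
  have S2 : Seg (L - q) (fun j => h (L - 1 - j)) 0 := by
    refine ⟨?_, ?_, ?_⟩
    · intro j hj
      have := hr (L - 1 - j) (by omega)
      show h (L - 1 - j) ≤ j
      omega
    · intro j hj
      show j + h (L - 1 - j) < L - q
      rcases Nat.eq_zero_or_pos (h (L - 1 - j)) with h0 | h0
      · omega
      · have h1 := sq_ge (h (L - 1 - j))
        rcases hquiet (L - 1 - j) (by omega) h0 with h2 | h2 <;> omega
    · intro j hj h0
      show 10 ^ 9 * h (L - 1 - j) ^ 2 ≤ (L - q - j) + 0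
      rcases hquiet (L - 1 - j) (by omega) h0 with h2 | h2 <;> omega
  have hin := inner_split hq S1 S2
  have hsum : ∀ J, J ⊆ U → ∑ x ∈ U \ J, (2 * x + 1) + ∑ x ∈ J, (2 * x + 1) =
      ∑ x ∈ U, (2 * x + 1) := fun J hJ => Finset.sum_sdiff hJ
  by_cases h7 : 7 * U.card ≤ 5 * q
  · obtain ⟨J, F', hJ, -, -, hSt, hCov, hcost⟩ := seg_lemma U.card (a := 0) rfl S1 hU hF
      (Nat.zero_le _) (by omega) (by omega)
    have h1 := hsum J hJ
    have hlast := last_seg (U \ J).card (a := 0) rfl S2 hSt (Nat.zero_le _) (by omega)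
    exact (cov_join hq S1 S2 Finset.disjoint_sdiff hCov hlast).mono
      (Finset.union_subset hJ Finset.sdiff_subset)
  · push Not at h7
    by_cases hm : U.card < 31000
    · obtain ⟨J, hJ, hSt, hCov, hcost⟩ := crude_step (a := 0) S1 hU (by omega) (Nat.zero_le _)
        (by omega) (Or.inr hm) (by omega)
      have h1 := hsum J hJ
      have hlast := last_seg (U \ J).card (a := 0) rfl S2 hSt (Nat.zero_le _) (by omega)
      exact (cov_join hq S1 S2 Finset.disjoint_sdiff hCov hlast).mono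
        (Finset.union_subset hJ Finset.sdiff_subset)
    · push Not at hm
      have hne : U.Nonempty := Finset.card_pos.1 (by omega)
      have hK := top_mem hne
      have hK1 := card_le_top hne
      have hc1 : (U.erase (top U)).card = U.card - 1 := Finset.card_erase_of_mem hK
      have hne1 : (U.erase (top U)).Nonempty := Finset.card_pos.1 (by omega)
      have hK' := top_mem hne1
      have hK1' := card_le_top hne1
      have hh1 := Seg.height (a := 0) S1 hU (by omega)
      have hh2 := Seg.height (a := 0) S2 hU (by omega)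
      have hη : 31000 * (U.card / 31000) ≤ U.card := Nat.mul_div_le _ _
      have c1 : Cov q h {top U} 0 q :=
        cov_single_top (η := U.card / 31000) (fun i hi h1 => hh1 i hi (by omega)) (by omega)
      have c2 : Cov (L - q) (fun j => h (L - 1 - j)) {top (U.erase (top U))} 0 (L - q) :=
        cov_single_top (η := U.card / 31000) (fun i hi h1 => hh2 i hi (by omega)) (by omega)
      refine (cov_join hq S1 S2 ?_ c1 c2).mono ?_
      · rw [Finset.disjoint_singleton]
        exact (Finset.ne_of_mem_erase hK').symm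
      · refine Finset.union_subset ?_ ?_
        · rw [Finset.singleton_subset_iff]
          exact hK
        · rw [Finset.singleton_subset_iff]
          exact Finset.mem_of_mem_erase hK'

end FinalTwoAux

theorem final_two {L : ℕ} {h : ℕ → ℕ} {q φ : ℕ} {U F : Finset ℕ}
    (hl : ∀ i, i < L → h i ≤ i) (hr : ∀ i, i < L → i + h i < L) (hq : q ≤ L)
    (hquiet : ∀ i, i < L → 0 < h i → i + 10 ^ 9 * h i ^ 2 < q ∨ q + 10 ^ 9 * h i ^ 2 ≤ i)
    (hU : St φ U F) (hF : F.card + 5 ≤ φ)
    (hb : 4 * L + (inner L h 0 L).card + 4 * (2 * (30000 * φ)) ≤ 4 * ∑ x ∈ U, (2 * x + 1)) :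
    Cov L h U 0 L := by
  by_cases h2 : L ≤ 2 * q
  · exact FinalTwoAux.core hl hr hq h2 hquiet hU hF hb
  · have hrefl := inner_reflect hl hr
    refine Cov.reflect (le_refl L) ?_
    rw [Nat.sub_self, Nat.sub_zero]
    refine FinalTwoAux.core (q := L - q) ?_ ?_ (Nat.sub_le _ _) (by omega) ?_ hU hF (by omega)
    · intro i hi
      have := hr (L - 1 - i) (by omega)
      show h (L - 1 - i) ≤ i
      omega
    · intro i hi
      have := hl (L - 1 - i) (by omega)
      show i + h (L - 1 - i) < L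
      omega
    · intro i hi h0
      have h1 := hquiet (L - 1 - i) (by omega) h0
      show i + 10 ^ 9 * h (L - 1 - i) ^ 2 < L - q ∨ L - q + 10 ^ 9 * h (L - 1 - i) ^ 2 ≤ i
      omega

end Pool.Agent.Helper64.FB
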