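import Pool.Agent.Helper64.Burn.Radii

set_option autoImplicit false

/-!
FB-4. Exact fit with `t ≤ 5` radii (pure counting).
-/

namespace Pool.Agent.Helper64.FB

open Finset Pool.Agent.Helper64.Burn

namespace FitRadAux

/-- Counting the arguments sent into a finite set by an injective function. -/
theorem card_bad {S : ℕ} {A : Finset ℕ} (f : ℕ → ℕ)
    (hinj : ∀ s s', s < S → s' < S → f s = f s' → s = s') :
    ((Finset.range S).filter (fun s => f s ∈ A)).card ≤ A.card := by
  apply Finset.card_le_card_of_injOn f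
  · intro s hs
    have h := Finset.mem_filter.mp (Finset.mem_coe.mp hs)
    exact h.2
  · intro s hs s' hs' h
    have h1 := Finset.mem_filter.mp (Finset.mem_coe.mp hs)
    have h2 := Finset.mem_filter.mp (Finset.mem_coe.mp hs')
    exact hinj s s' (Finset.mem_range.mp h1.1) (Finset.mem_range.mp h2.1) h

/-- A set of arguments with at most one element. -/
theorem card_one {S : ℕ} (p : ℕ → Prop) [DecidablePred p]
    (huniq : ∀ s s', s < S → s' < S → p s → p s' → s = s') :
    ((Finset.range S).filter p).card ≤ 1 := by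
  apply Finset.card_le_one.mpr
  intro s hs s' hs'
  have h1 := Finset.mem_filter.mp hs
  have h2 := Finset.mem_filter.mp hs'
  exact huniq s s' (Finset.mem_range.mp h1.1) (Finset.mem_range.mp h2.1) h1.2 h2.2

/-- The pigeonhole step: a good shift exists. -/
theorem pigeon {S t a : ℕ} {U D Z : Finset ℕ} (x : ℕ → ℕ → ℕ)
    (hD : ∀ j s, j < t → s < S → x s j ∉ U → x s j ∈ D)
    (inj1 : ∀ j, j < t → ∀ s s', s < S → s' < S → x s j = x s' j → s = s')
    (inj2 : ∀ i, 0 < i → i < t → ∀ s s', s < S → s' < S →
      a + ∑ j ∈ Finset.range i, (2 * x s j + 1) = a + ∑ j ∈ Finset.range i, (2 * x s' j + 1) →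
      s = s')
    (inj3 : ∀ j, j < t - 1 → ∀ s s', s < S → s' < S → x s (t - 1) = x s j →
      x s' (t - 1) = x s' j → s = s')
    (hcard : t * D.card + (t - 1) * Z.card + t < S) :
    ∃ s, s < S ∧ (∀ j, j < t → x s j ∈ U) ∧
      (∀ i, 0 < i → i < t → a + ∑ j ∈ Finset.range i, (2 * x s j + 1) ∉ Z) ∧
      (∀ j, j < t - 1 → x s (t - 1) ≠ x s j) := by
  classical
  by_contra hcon
  push Not at hcon
  have hsub : Finset.range S ⊆
      ((Finset.range t).biUnion (fun j => (Finset.range S).filter (fun s => x s j ∈ D))) ∪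
      ((Finset.range (t - 1)).biUnion (fun i => (Finset.range S).filter (fun s =>
        a + ∑ j ∈ Finset.range (i + 1), (2 * x s j + 1) ∈ Z))) ∪
      ((Finset.range t).biUnion (fun j => (Finset.range S).filter (fun s => j < t - 1 ∧
        x s (t - 1) = x s j))) := by
    intro s hs
    have hsS := Finset.mem_range.mp hs
    by_cases c1 : ∀ j, j < t → x s j ∈ U
    · by_cases c2 : ∀ i, 0 < i → i < t → a + ∑ j ∈ Finset.range i, (2 * x s j + 1) ∉ Z
      · obtain ⟨j, hj, hj2⟩ := hcon s hsS c1 c2
        apply Finset.mem_union_right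
        apply Finset.mem_biUnion.mpr
        exact ⟨j, Finset.mem_range.mpr (by omega),
          Finset.mem_filter.mpr ⟨hs, hj, hj2⟩⟩
      · push Not at c2
        obtain ⟨i, hi, hit, hi2⟩ := c2
        apply Finset.mem_union_left
        apply Finset.mem_union_right
        apply Finset.mem_biUnion.mpr
        refine ⟨i - 1, Finset.mem_range.mpr (by omega), Finset.mem_filter.mpr ⟨hs, ?_⟩⟩
        rw [show i - 1 + 1 = i by omega]
        exact hi2
    · push Not at c1
      obtain ⟨j, hj, hj2⟩ := c1
      apply Finset.mem_union_left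
      apply Finset.mem_union_left
      apply Finset.mem_biUnion.mpr
      exact ⟨j, Finset.mem_range.mpr hj, Finset.mem_filter.mpr ⟨hs, hD j s hj hsS hj2⟩⟩
  have hc := Finset.card_le_card hsub
  rw [Finset.card_range] at hc
  have h1 : ((Finset.range t).biUnion
      (fun j => (Finset.range S).filter (fun s => x s j ∈ D))).card ≤ t * D.card := by
    have := Finset.card_biUnion_le_card_mul (Finset.range t)
      (fun j => (Finset.range S).filter (fun s => x s j ∈ D)) D.card
      (fun j hj => card_bad (fun s => x s j) (inj1 j (Finset.mem_range.mp hj)))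
    rwa [Finset.card_range] at this
  have h2 : ((Finset.range (t - 1)).biUnion (fun i => (Finset.range S).filter (fun s =>
        a + ∑ j ∈ Finset.range (i + 1), (2 * x s j + 1) ∈ Z))).card ≤ (t - 1) * Z.card := by
    have := Finset.card_biUnion_le_card_mul (Finset.range (t - 1))
      (fun i => (Finset.range S).filter (fun s =>
        a + ∑ j ∈ Finset.range (i + 1), (2 * x s j + 1) ∈ Z)) Z.card ?_
    · rwa [Finset.card_range] at this
    · intro i hi
      have hi' := Finset.mem_range.mp hi
      exact card_bad (S := S) (A := Z)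
        (fun s => a + ∑ j ∈ Finset.range (i + 1), (2 * x s j + 1))
        (inj2 (i + 1) (by omega) (by omega))
  have h3 : ((Finset.range t).biUnion (fun j => (Finset.range S).filter (fun s => j < t - 1 ∧
        x s (t - 1) = x s j))).card ≤ t * 1 := by
    have := Finset.card_biUnion_le_card_mul (Finset.range t)
      (fun j => (Finset.range S).filter (fun s => j < t - 1 ∧ x s (t - 1) = x s j)) 1 ?_
    · rwa [Finset.card_range] at this
    · intro j hj
      apply card_one (S := S) (fun s => j < t - 1 ∧ x s (t - 1) = x s j)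
      intro s s' hs hs' hp hp'
      exact inj3 j hp.1 s s' hs hs' hp.2 hp'.2
  have h4 := Finset.card_union_le
    (((Finset.range t).biUnion (fun j => (Finset.range S).filter (fun s => x s j ∈ D))) ∪
      ((Finset.range (t - 1)).biUnion (fun i => (Finset.range S).filter (fun s =>
        a + ∑ j ∈ Finset.range (i + 1), (2 * x s j + 1) ∈ Z))))
    ((Finset.range t).biUnion (fun j => (Finset.range S).filter (fun s => j < t - 1 ∧
        x s (t - 1) = x s j)))
  have h5 := Finset.card_union_le
    ((Finset.range t).biUnion (fun j => (Finset.range S).filter (fun s => x s j ∈ D)))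
    ((Finset.range (t - 1)).biUnion (fun i => (Finset.range S).filter (fun s =>
        a + ∑ j ∈ Finset.range (i + 1), (2 * x s j + 1) ∈ Z)))
  omega

/-- The radii for the shift `s`. -/
def xr (X c n : ℕ) (s j : ℕ) : ℕ :=
  if j < n then c + j + s else X - ∑ i ∈ Finset.range n, (c + i + s)

theorem prefix_xr (X c n : ℕ) (s i : ℕ) (hi : i ≤ n) :
    ∑ j ∈ Finset.range i, (2 * xr X c n s j + 1) = 2 * (i * s) + ∑ j ∈ Finset.range i, (2 * (c + j) + 1) := by
  induction i with
  | zero => simp
  | succ k ih =>
    rw [Finset.sum_range_succ, Finset.sum_range_succ, ih (by omega)]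
    have : xr X c n s k = c + k + s := by
      unfold xr
      rw [if_pos (by omega)]
    rw [this]
    ring

end FitRadAux

open FitRadAux in
theorem fit_radii {m : ℕ} {U Z : Finset ℕ} {a σ t : ℕ} (hm : 10 ^ 4 ≤ m)
    (hU : 360 * (Finset.range (top U + 1) \ U).card ≤ m) (htop : m ≤ top U + 1)
    (hZ : 400 * Z.card ≤ m) (ht : 2 ≤ t) (ht5 : t ≤ 5) (hpar : σ % 2 = t % 2)
    (h1 : 69 * t * m ≤ 100 * σ) (h2 : 100 * σ ≤ 171 * t * m) :
    ∃ x : ℕ → ℕ, (∀ j, j < t → x j ∈ U ∧ 29 * m ≤ 100 * x j ∧ 100 * x j ≤ 91 * m) ∧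
      (∀ j j', j < t → j' < t → x j = x j' → j = j') ∧
      ∑ j ∈ Finset.range t, (2 * x j + 1) = σ ∧
      ∀ i, 0 < i → i < t → a + ∑ j ∈ Finset.range i, (2 * x j + 1) ∉ Z := by
  obtain ⟨n, rfl⟩ : ∃ n, t = n + 1 := ⟨t - 1, by omega⟩
  have hn1 : 1 ≤ n := by omega
  have hn4 : n ≤ 4 := by omega
  obtain ⟨X, hX⟩ : ∃ X, σ = 2 * X + (n + 1) := ⟨(σ - (n + 1)) / 2, by
    have : n + 1 ≤ σ := by
      have : 69 * (n + 1) * m ≥ 69 * (n + 1) * 10 ^ 4 := Nat.mul_le_mul_left _ hm
      omega
    omega⟩
  have hm' : 10000 ≤ m := by simpa using hm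
  -- the base point and the number of shifts
  obtain ⟨S, hS⟩ : ∃ S, S = m / 40 := ⟨_, rfl⟩
  obtain ⟨q, hq⟩ : ∃ q, q = X / (n + 1) := ⟨_, rfl⟩
  obtain ⟨c, hc⟩ : ∃ c, c = q - S / 2 := ⟨_, rfl⟩
  have hdm := Nat.div_add_mod X (n + 1)
  have hml := Nat.mod_lt X (show 0 < n + 1 by omega)
  have hq1 : (n + 1) * q ≤ X := by rw [hq]; omega
  have hq2 : X < (n + 1) * q + (n + 1) := by
    rw [hq]; omega
  clear hdm hml hq hm
  -- bounds of every radius
  have hbd : ∀ s j, s < S → j < n + 1 →
      29 * m ≤ 100 * xr X c n s j ∧ 100 * xr X c n s j ≤ 91 * m := by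
    intro s j hs hj
    unfold xr
    interval_cases n <;> simp only [Finset.sum_range_succ, Finset.sum_range_zero] <;>
      split_ifs <;> constructor <;> omega
  have hinj : ∀ j, j < n + 1 → ∀ s s', s < S → s' < S →
      xr X c n s j = xr X c n s' j → s = s' := by
    intro j hj s s' hs hs' h
    unfold xr at h
    interval_cases n <;> simp only [Finset.sum_range_succ, Finset.sum_range_zero] at h <;>
      split_ifs at h <;> omega
  have hinj3 : ∀ j, j < n + 1 - 1 → ∀ s s', s < S → s' < S → xr X c n s (n + 1 - 1) = xr X c n s j →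
      xr X c n s' (n + 1 - 1) = xr X c n s' j → s = s' := by
    intro j hj s s' hs hs' h h'
    unfold xr at h h'
    interval_cases n <;> simp only [Finset.sum_range_succ, Finset.sum_range_zero] at h h' <;>
      split_ifs at h h' <;> omega
  have hinj2 : ∀ i, 0 < i → i < n + 1 → ∀ s s', s < S → s' < S →
      a + ∑ j ∈ Finset.range i, (2 * xr X c n s j + 1) =
        a + ∑ j ∈ Finset.range i, (2 * xr X c n s' j + 1) → s = s' := by
    intro i hi hit s s' _ _ h
    rw [prefix_xr X c n s i (by omega), prefix_xr X c n s' i (by omega)] at h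
    have h' : i * s = i * s' := by omega
    exact Nat.eq_of_mul_eq_mul_left hi h'
  have hD : ∀ j s, j < n + 1 → s < S → xr X c n s j ∉ U →
      xr X c n s j ∈ Finset.range (top U + 1) \ U := by
    intro j s hj hs hnot
    refine Finset.mem_sdiff.mpr ⟨Finset.mem_range.mpr ?_, hnot⟩
    have := (hbd s j hs hj).2
    omega
  have hcard : (n + 1) * (Finset.range (top U + 1) \ U).card + (n + 1 - 1) * Z.card + (n + 1) < S := by
    interval_cases n <;> omega
  obtain ⟨s, hs, g1, g2, g3⟩ := pigeon (a := a) (xr X c n) hD hinj hinj2 hinj3 hcard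
  refine ⟨xr X c n s, fun j hj => ⟨g1 j hj, hbd s j hs hj⟩, ?_, ?_, g2⟩
  · intro j j' hj hj' h
    by_cases e : j = j'
    · exact e
    · exfalso
      rcases Nat.lt_or_ge j n with c1 | c1
      · rcases Nat.lt_or_ge j' n with c2 | c2
        · have e1 : xr X c n s j = c + j + s := by unfold xr; rw [if_pos c1]
          have e2 : xr X c n s j' = c + j' + s := by unfold xr; rw [if_pos c2]
          omega
        · have : j' = n + 1 - 1 := by omega
          subst this
          exact g3 j (by omega) h.symm
      · have hjn : j = n + 1 - 1 := by omega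
        have hj'n : j' < n + 1 - 1 := by omega
        subst hjn
        exact g3 j' hj'n h
  · rw [Finset.sum_range_succ, prefix_xr X c n s n le_rfl]
    have hlast : xr X c n s n = X - ∑ i ∈ Finset.range n, (c + i + s) := by
      unfold xr; rw [if_neg (by omega)]
    rw [hlast]
    interval_cases n <;> simp only [Finset.sum_range_succ, Finset.sum_range_zero] <;> omega

end Pool.Agent.Helper64.FB
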