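import Pool.Agent.Helper64.FB.Pair
import Pool.Agent.Helper64.FB.FitRad

set_option autoImplicit false

/-!
FB-5. The end of a segment when many radii are left.
-/

namespace Pool.Agent.Helper64.FB

open Finset Pool.Agent.Helper64.Burn

/-- Successive intervals with good cuts. -/
theorem cov_seq_good {L : ℕ} {h : ℕ → ℕ} (hl : ∀ i, i < L → h i ≤ i)
    (hr : ∀ i, i < L → i + h i < L) :
    ∀ (t : ℕ) (x : ℕ → ℕ) (a : ℕ), (∀ j j', j < t → j' < t → x j = x j' → j = j') →
      (∀ i, 0 < i → i < t → a + ∑ j ∈ Finset.range i, (2 * x j + 1) ∉ cuts L h) →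
      L ≤ a + ∑ j ∈ Finset.range t, (2 * x j + 1) →
      Cov L h ((Finset.range t).image x) a L := by
  intro t
  induction t with
  | zero =>
    intro x a _ _ hL
    simp only [Finset.range_zero, Finset.sum_empty, Nat.add_zero] at hL
    refine ⟨fun _ => 0, ?_⟩
    intro i hi h1 _
    omega
  | succ t ih =>
    intro x a hinj hcut hL
    have h0 : x 0 ∈ (Finset.range (t + 1)).image x :=
      Finset.mem_image.2 ⟨0, Finset.mem_range.2 (Nat.succ_pos t), rfl⟩
    have hsum : ∀ i, ∑ j ∈ Finset.range (i + 1), (2 * x j + 1) =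
        ∑ j ∈ Finset.range i, (2 * x (j + 1) + 1) + (2 * x 0 + 1) := fun i =>
      Finset.sum_range_succ' (fun j => 2 * x j + 1) i
    have hZ : a + (2 * x 0 + 1) ∉ cuts L h := by
      rcases Nat.eq_zero_or_pos t with ht | ht
      · subst ht
        rw [hsum 0] at hL
        simp only [Finset.range_zero, Finset.sum_empty, Nat.zero_add] at hL
        intro hc
        have := mem_cuts_lt hr hc
        omega
      · have h1 := hcut 1 Nat.one_pos (by omega)
        rw [hsum 0] at h1
        simpa using h1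
    refine Cov.good hl h0 hZ ((ih (fun j => x (j + 1)) (a + (2 * x 0 + 1)) ?_ ?_ ?_).mono ?_)
    · intro j j' hj hj' hjj
      have := hinj (j + 1) (j' + 1) (by omega) (by omega) hjj
      omega
    · intro i hi hit
      have h1 := hcut (i + 1) (by omega) (by omega)
      rw [hsum i] at h1
      rw [show a + (2 * x 0 + 1) + ∑ j ∈ Finset.range i, (2 * x (j + 1) + 1) =
        a + (∑ j ∈ Finset.range i, (2 * x (j + 1) + 1) + (2 * x 0 + 1)) by ring]
      exact h1
    · rw [hsum t] at hL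
      omega
    · intro y hy
      obtain ⟨j, hj, rfl⟩ := Finset.mem_image.1 hy
      have hj' := Finset.mem_range.1 hj
      refine Finset.mem_erase.2 ⟨fun hc => ?_,
        Finset.mem_image.2 ⟨j + 1, Finset.mem_range.2 (by omega), rfl⟩⟩
      have := hinj (j + 1) 0 (by omega) (by omega) hc
      omega

private theorem exists_t {m D : ℕ} (h7 : 7 * m ≤ 5 * D) (h8 : D ≤ 8 * m) :
    ∃ t, 2 ≤ t ∧ t ≤ 5 ∧ 69 * t * m ≤ 100 * D ∧ 100 * D ≤ 170 * t * m := by
  rcases Nat.lt_or_ge (34 * m) (10 * D) with h1 | h1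
  · rcases Nat.lt_or_ge (51 * m) (10 * D) with h2 | h2
    · rcases Nat.lt_or_ge (68 * m) (10 * D) with h3 | h3
      · exact ⟨5, by norm_num, le_rfl, by omega, by omega⟩
      · exact ⟨4, by norm_num, by norm_num, by omega, by omega⟩
    · exact ⟨3, by norm_num, by norm_num, by omega, by omega⟩
  · exact ⟨2, le_rfl, by norm_num, by omega, by omega⟩

private theorem par_fix (n t : ℕ) : ∃ σ, n ≤ σ ∧ σ ≤ n + 1 ∧ σ % 2 = t % 2 := by
  rcases Nat.lt_or_ge ((n + t) % 2) 1 with h | h
  · exact ⟨n, le_rfl, by omega, by omega⟩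
  · exact ⟨n + 1, by omega, le_rfl, by omega⟩

theorem fit_step {L : ℕ} {h : ℕ → ℕ} {R φ : ℕ} {U F : Finset ℕ} {a : ℕ} (S : Seg L h R)
    (hU : St φ U F) (hF : F.card + 5 ≤ φ) (hm : 14000 * φ ≤ U.card)
    (h7 : 7 * U.card ≤ 5 * (L - a)) (h8 : L ≤ a + 8 * U.card)
    (hb : 4 * ((L - a) + R) + (inner L h a L).card ≤ 4 * ∑ x ∈ U, (2 * x + 1)) :
    ∃ J : Finset ℕ, J ⊆ U ∧ J.card ≤ 5 ∧ St φ (U \ J) (F ∪ J) ∧ Cov L h J a L ∧
      4 * ∑ x ∈ J, (2 * x + 1) ≤ 4 * (L - a) + (inner L h a L).card + 4 := by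
  classical
  have hne : U.Nonempty := Finset.card_pos.1 (by omega)
  obtain ⟨f1, f2, f3⟩ := hU.facts hne
  have hheight := S.height hU hb
  have hct := card_le_top hne
  have htop : U.card ≤ top U + 1 := by omega
  obtain ⟨t, ht2, ht5, ht69, ht170⟩ := exists_t h7 (show L - a ≤ 8 * U.card by omega)
  have h69t : ∀ s, L - a ≤ s → 69 * t * U.card ≤ 100 * s := fun s hs => by omega
  have h171 : ∀ s, 1000 * s ≤ 1000 * (L - a) + U.card + 2000 → 100 * s ≤ 171 * t * U.card := by
    intro s hs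
    have e1 : 171 * t * U.card = 170 * t * U.card + t * U.card := by ring
    have e2 : 2 * U.card ≤ t * U.card := Nat.mul_le_mul_right _ ht2
    omega
  -- the conclusion from a choice of radii
  have fin : ∀ (x : ℕ → ℕ) (σ : ℕ),
      (∀ j, j < t → x j ∈ U ∧ 29 * U.card ≤ 100 * x j ∧ 100 * x j ≤ 91 * U.card) →
      (∀ j j', j < t → j' < t → x j = x j' → j = j') →
      ∑ j ∈ Finset.range t, (2 * x j + 1) = σ →
      Cov L h ((Finset.range t).image x) a L →
      4 * σ ≤ 4 * (L - a) + (inner L h a L).card + 4 →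
      ∃ J : Finset ℕ, J ⊆ U ∧ J.card ≤ 5 ∧ St φ (U \ J) (F ∪ J) ∧ Cov L h J a L ∧
        4 * ∑ x ∈ J, (2 * x + 1) ≤ 4 * (L - a) + (inner L h a L).card + 4 := by
    intro x σ hx hinj hsum hcov hcost
    have hJU : (Finset.range t).image x ⊆ U := by
      intro y hy
      obtain ⟨j, hj, rfl⟩ := Finset.mem_image.1 hy
      exact (hx j (Finset.mem_range.1 hj)).1
    have hJc : ((Finset.range t).image x).card ≤ 5 := by
      refine le_trans Finset.card_image_le ?_
      rw [Finset.card_range]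
      exact ht5
    refine ⟨(Finset.range t).image x, hJU, hJc, hU.take hJU ?_ (by omega), hcov, ?_⟩
    · intro y hy
      obtain ⟨j, hj, rfl⟩ := Finset.mem_image.1 hy
      have := (hx j (Finset.mem_range.1 hj)).2.1
      omega
    · rw [Finset.sum_image (fun j hj j' hj' hjj => hinj j j' (Finset.mem_range.1 hj)
        (Finset.mem_range.1 hj') hjj), hsum]
      exact hcost
  rcases Nat.lt_or_ge U.card (400 * (inner L h a L).card) with hin | hin
  · -- many cuts
    obtain ⟨η, hη⟩ : ∃ η, η = U.card / 31000 := ⟨_, rfl⟩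
    have hη1 : 31000 * η ≤ U.card := by omega
    obtain ⟨σ, hσ1, hσ2, hσ3⟩ := par_fix ((L - a) + 2 * η * t) t
    have hηt : 2 * η * t ≤ 10 * η := by
      have := Nat.mul_le_mul_left (2 * η) ht5
      omega
    obtain ⟨x, hx, hinj, hsum, -⟩ := fit_radii (m := U.card) (U := U) (Z := ∅) (a := a) (σ := σ)
      (t := t) (by omega) f3 htop (by simp) ht2 ht5 hσ3 (h69t σ (by omega)) (h171 σ (by omega))
    refine fin x σ hx hinj hsum ?_ (by omega)
    refine Cov.crude (η := η) _ _ a L rfl (fun i hi h1 _ => ?_) ?_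
    · rw [hη]
      exact hheight i hi h1
    · rw [Finset.sum_image (fun j hj j' hj' hjj => hinj j j' (Finset.mem_range.1 hj)
        (Finset.mem_range.1 hj') hjj)]
      have h1 : ∑ j ∈ Finset.range t, (2 * x j + 1 - 2 * η) + 2 * η * t = σ := by
        rw [← hsum]
        have h2 : 2 * η * t = ∑ j ∈ Finset.range t, 2 * η := by
          rw [Finset.sum_const, Finset.card_range, smul_eq_mul, Nat.mul_comm]
        rw [h2, ← Finset.sum_add_distrib]
        refine Finset.sum_congr rfl fun j hj => ?_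
        have := (hx j (Finset.mem_range.1 hj)).2.1
        omega
      omega
  · -- few cuts
    obtain ⟨σ, hσ1, hσ2, hσ3⟩ := par_fix (L - a) t
    obtain ⟨x, hx, hinj, hsum, hZ⟩ := fit_radii (m := U.card) (U := U) (Z := inner L h a L)
      (a := a) (σ := σ) (t := t) (by omega) f3 htop hin ht2 ht5 hσ3 (h69t σ (by omega))
      (h171 σ (by omega))
    refine fin x σ hx hinj hsum ?_ (by omega)
    refine cov_seq_good S.hl S.hr t x a hinj (fun i hi hit => ?_) (by omega)
    intro hc
    apply hZ i hi hit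
    have h1 : ∑ j ∈ Finset.range (i + 1), (2 * x j + 1) ≤ ∑ j ∈ Finset.range t, (2 * x j + 1) :=
      Finset.sum_le_sum_of_subset (Finset.range_subset_range.2 hit)
    rw [Finset.sum_range_succ, hsum] at h1
    have h2 := (hx i hit).2.1
    have h3 : 2 * x 0 + 1 ≤ ∑ j ∈ Finset.range i, (2 * x j + 1) :=
      Finset.single_le_sum (f := fun j => 2 * x j + 1) (fun _ _ => Nat.zero_le _)
        (Finset.mem_range.2 hi)
    refine Finset.mem_filter.2 ⟨hc, by omega, by omega⟩

end Pool.Agent.Helper64.FB
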