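import Pool.Agent.Helper64.FB.Split

set_option autoImplicit false

/-!
FB-16. The number of vertices of a sphere is controlled by the degrees inside.
-/

namespace Pool.Agent.Helper64.FB

open Finset Pool.Agent.Helper64.Burn

variable {W : Type*} [DecidableEq W]

omit [DecidableEq W] in
theorem level_parent {T : SimpleGraph W} (hT : T.IsTree) {c u : W} {j : ℕ}
    (h : T.dist c u = j + 1) : ∃ z, T.dist c z = j ∧ T.Adj z u ∧
      T.dist c z + T.dist z u = T.dist c u := by
  obtain ⟨z, h1, h2⟩ := exists_between hT.connected c u (t := j) (by omega)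
  refine ⟨z, h1, ?_, h2⟩
  have h3 : T.dist z u = 1 := by omega
  exact SimpleGraph.dist_eq_one_iff_adj.1 h3

/-- The children of a vertex that is not the centre. -/
theorem level_children [Fintype W] {T : SimpleGraph W} [DecidableRel T.Adj] (hT : T.IsTree)
    {c v : W} {j : ℕ} (h : T.dist c v = j + 1) :
    ((T.neighborFinset v).filter (fun u => T.dist c u = j + 2)).card ≤ 1 + (T.degree v - 2) := by
  obtain ⟨z, h1, h2, -⟩ := level_parent hT h
  have hz : z ∈ T.neighborFinset v := by
    rw [SimpleGraph.mem_neighborFinset]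
    exact h2.symm
  have hsub : (T.neighborFinset v).filter (fun u => T.dist c u = j + 2) ⊆
      (T.neighborFinset v).erase z := by
    intro u hu
    rw [Finset.mem_filter] at hu
    rw [Finset.mem_erase]
    refine ⟨?_, hu.1⟩
    rintro rfl
    omega
  have h3 := Finset.card_le_card hsub
  rw [Finset.card_erase_of_mem hz, SimpleGraph.card_neighborFinset_eq_degree] at h3
  omega

theorem level_card [Fintype W] {T : SimpleGraph W} [DecidableRel T.Adj] (hT : T.IsTree)
    {S : Finset W} (hS : Conv T S) {c : W} (hc : c ∈ S) (j : ℕ) :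
    (S.filter (fun v => T.dist c v = j + 1)).card ≤
      ∑ v ∈ S.filter (fun v => T.dist c v = j),
        ((T.neighborFinset v).filter (fun u => T.dist c u = j + 1)).card := by
  refine le_trans (Finset.card_le_card ?_) Finset.card_biUnion_le
  intro u hu
  rw [Finset.mem_filter] at hu
  obtain ⟨z, h1, h2, h3⟩ := level_parent hT hu.2
  rw [Finset.mem_biUnion]
  refine ⟨z, ?_, ?_⟩
  · rw [Finset.mem_filter]
    exact ⟨hS c hc u hu.1 z h3, h1⟩
  · rw [Finset.mem_filter, SimpleGraph.mem_neighborFinset]
    exact ⟨h2, hu.2⟩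

theorem sphere_card [Fintype W] {T : SimpleGraph W} [DecidableRel T.Adj] (hT : T.IsTree)
    {S : Finset W} (hS : Conv T S) {c : W} (hc : c ∈ S) (ρ : ℕ) :
    (sphere T S c ρ).card ≤ 2 + ∑ v ∈ ball T S c ρ, (T.degree v - 2) := by
  induction ρ with
  | zero =>
    have h1 := level_card hT hS hc 0
    have h2 : S.filter (fun v => T.dist c v = 0) = {c} := by
      ext v
      rw [Finset.mem_filter, Finset.mem_singleton]
      constructor
      · rintro ⟨-, h⟩
        exact ((hT.connected.dist_eq_zero_iff).1 h).symm
      · rintro rfl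
        exact ⟨hc, SimpleGraph.dist_self⟩
    rw [h2, Finset.sum_singleton] at h1
    have h3 : ((T.neighborFinset c).filter (fun u => T.dist c u = 0 + 1)).card ≤ T.degree c := by
      rw [← SimpleGraph.card_neighborFinset_eq_degree]
      exact Finset.card_filter_le _ _
    have h4 : c ∈ ball T S c 0 := by
      rw [ball, Finset.mem_filter]
      exact ⟨hc, by rw [SimpleGraph.dist_self]⟩
    have h5 := Finset.single_le_sum (f := fun v => T.degree v - 2) (fun v _ => Nat.zero_le _) h4
    have h6 : T.degree c - 2 ≤ ∑ v ∈ ball T S c 0, (T.degree v - 2) := h5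
    have h7 : (sphere T S c 0).card = (S.filter (fun v => T.dist c v = 0 + 1)).card := rfl
    rw [h7]
    omega
  | succ ρ ih =>
    have h1 := level_card hT hS hc (ρ + 1)
    have h2 : ∑ v ∈ S.filter (fun v => T.dist c v = ρ + 1),
        ((T.neighborFinset v).filter (fun u => T.dist c u = ρ + 1 + 1)).card ≤
        ∑ v ∈ S.filter (fun v => T.dist c v = ρ + 1), (1 + (T.degree v - 2)) := by
      refine Finset.sum_le_sum fun v hv => ?_
      rw [Finset.mem_filter] at hv
      exact level_children hT hv.2
    rw [Finset.sum_add_distrib, Finset.sum_const, smul_eq_mul, mul_one] at h2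
    have h3 : ball T S c (ρ + 1) = ball T S c ρ ∪ sphere T S c ρ := by
      ext v
      rw [Finset.mem_union, ball, ball, sphere, Finset.mem_filter, Finset.mem_filter,
        Finset.mem_filter]
      constructor
      · rintro ⟨h, h'⟩
        rcases Nat.lt_or_ge ρ (T.dist c v) with h4 | h4
        · exact Or.inr ⟨h, by omega⟩
        · exact Or.inl ⟨h, h4⟩
      · rintro (⟨h, h'⟩ | ⟨h, h'⟩)
        · exact ⟨h, by omega⟩
        · exact ⟨h, by omega⟩
    have h4 : Disjoint (ball T S c ρ) (sphere T S c ρ) := by
      rw [Finset.disjoint_left]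
      intro v hv hv'
      rw [ball, Finset.mem_filter] at hv
      rw [sphere, Finset.mem_filter] at hv'
      omega
    rw [h3, Finset.sum_union h4]
    have h5 : (sphere T S c (ρ + 1)).card =
        (S.filter (fun v => T.dist c v = ρ + 1 + 1)).card := rfl
    have h6 : (S.filter (fun v => T.dist c v = ρ + 1)).card = (sphere T S c ρ).card := rfl
    have h7 : ∑ v ∈ S.filter (fun v => T.dist c v = ρ + 1), (T.degree v - 2) =
      ∑ v ∈ sphere T S c ρ, (T.degree v - 2) := rfl
    rw [h5]
    rw [h6, h7] at h2
    omega

end Pool.Agent.Helper64.FB
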