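import Pool.Agent.Helper64.FB.State
import Pool.Agent.Helper64.Burn.Process

set_option autoImplicit false

/-!
FB-3. Segments and the pair step.
-/

namespace Pool.Agent.Helper64.FB

open Finset Pool.Agent.Helper64.Burn

/-- A segment of length `L` with windows inside, followed by segments of total length `R`;
high windows are far from the quiet point at the end. -/
structure Seg (L : ℕ) (h : ℕ → ℕ) (R : ℕ) : Prop where
  hl : ∀ i, i < L → h i ≤ i
  hr : ∀ i, i < L → i + h i < L
  quiet : ∀ i, i < L → 0 < h i → 10 ^ 9 * h i ^ 2 ≤ (L - i) + R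

theorem Seg.height {L : ℕ} {h : ℕ → ℕ} {R φ : ℕ} {U F : Finset ℕ} {a : ℕ} (S : Seg L h R)
    (hU : St φ U F)
    (hb : 4 * ((L - a) + R) + (inner L h a L).card ≤ 4 * ∑ x ∈ U, (2 * x + 1)) :
    ∀ i, i < L → a + h i ≤ i → h i ≤ U.card / 31000 := by
  intro i hi hai
  rcases Nat.eq_zero_or_pos (h i) with h0 | h0
  · rw [h0]; exact Nat.zero_le _
  have hq := S.quiet i hi h0
  have hsum : (L - a) + R ≤ ∑ x ∈ U, (2 * x + 1) := by omega
  have hne : U.Nonempty := by
    rw [Finset.nonempty_iff_ne_empty]
    rintro rfl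
    simp only [Finset.sum_empty] at hsum
    omega
  obtain ⟨-, hf, -⟩ := hU.facts hne
  have htop := sum_le_top (U := U)
  have h1 : 10 ^ 9 * h i ^ 2 ≤ (top U + 1) ^ 2 := by omega
  have h2 : (1000 * (top U + 1)) ^ 2 ≤ (1003 * U.card) ^ 2 := Nat.pow_le_pow_left hf 2
  have h3 : (h i * 31000) ^ 2 ≤ U.card ^ 2 := by nlinarith
  rw [Nat.le_div_iff_mul_le (by norm_num)]
  exact (Nat.pow_le_pow_iff_left (by norm_num)).1 h3

theorem pair_step {L : ℕ} {h : ℕ → ℕ} {R φ : ℕ} {U F : Finset ℕ} {a : ℕ} (S : Seg L h R)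
    (hU : St φ U F) (hm : 31000 ≤ U.card) (haL : a + 8 * U.card ≤ L)
    (hb : 4 * ((L - a) + R) + (inner L h a L).card ≤ 4 * ∑ x ∈ U, (2 * x + 1)) :
    ∃ (J : Finset ℕ) (b : ℕ), J ⊆ U ∧ J.Nonempty ∧ St φ (U \ J) F ∧ a ≤ b ∧
      10 * (b - a) ≤ 61 * U.card ∧ b ≤ L ∧
      (∀ J', Disjoint J' J → Cov L h J' b L → Cov L h (J' ∪ J) a L) ∧
      4 * ∑ x ∈ J, (2 * x + 1) + (inner L h b L).card ≤ 4 * (b - a) + (inner L h a L).card := by
  classical
  have hne : U.Nonempty := Finset.card_pos.1 (by omega)
  have hheight := S.height hU hb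
  obtain ⟨-, hf, -⟩ := hU.facts hne
  have hpool := hU.pool_card hm
  have hKU : top U ∈ U := top_mem hne
  obtain ⟨K, hK⟩ : ∃ K, K = top U := ⟨_, rfl⟩
  obtain ⟨m, hmc⟩ : ∃ m, m = U.card := ⟨_, rfl⟩
  rw [← hK] at hf hKU
  rw [← hmc] at hf hpool hheight haL hm ⊢
  by_cases hloc : ((cuts L h).filter (fun z => a < z ∧ z ≤ a + (4 * K + 2))).card <
      (pool U F).card
  · -- a good pair
    have hex : ∃ x ∈ pool U F,
        a + (2 * x + 1) ∉ cuts L h ∧ a + (2 * x + 1) + (2 * K + 1) ∉ cuts L h := by
      by_contra hcon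
      push Not at hcon
      have hle : ∀ x ∈ pool U F, x < K := by
        intro x hx
        obtain ⟨hxU, hx1, -⟩ := Finset.mem_filter.1 hx
        have := le_top hxU
        omega
      have hg : ∀ x ∈ pool U F,
          ∃ z ∈ (cuts L h).filter (fun z => a < z ∧ z ≤ a + (4 * K + 2)),
            z = a + (2 * x + 1) ∨ z = a + (2 * x + 1) + (2 * K + 1) := by
        intro x hx
        have hx2 := hle x hx
        by_cases hxz : a + (2 * x + 1) ∈ cuts L h
        · refine ⟨_, Finset.mem_filter.2 ⟨hxz, by omega⟩, Or.inl rfl⟩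
        · refine ⟨_, Finset.mem_filter.2 ⟨hcon x hx hxz, by omega⟩, Or.inr rfl⟩
      choose! g hg1 hg2 using hg
      have hle2 := Finset.card_le_card_of_injOn g hg1 (by
        intro x hx x' hx' hxx
        rw [Finset.mem_coe] at hx hx'
        have hx2 := hle x hx
        have hx2' := hle x' hx'
        rcases hg2 x hx with h1 | h1 <;> rcases hg2 x' hx' with h2 | h2 <;> omega)
      omega
    obtain ⟨x, hx, hx1, hx2⟩ := hex
    obtain ⟨hxU, hxK, hxr⟩ := Finset.mem_filter.1 hx
    rw [← hK] at hxK
    have hxle := le_top hxU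
    rw [← hK] at hxle
    have hxlt : x < K := by omega
    have hJ : U \ {x, K} = (U.erase x).erase (top U) := by
      rw [← hK]
      ext y
      simp only [Finset.mem_sdiff, Finset.mem_insert, Finset.mem_singleton, Finset.mem_erase]
      tauto
    have hsumJ : ∑ y ∈ ({x, K} : Finset ℕ), (2 * y + 1) = (2 * x + 1) + (2 * K + 1) :=
      Finset.sum_pair hxK
    refine ⟨{x, K}, a + (2 * x + 1) + (2 * K + 1), ?_, ⟨x, by simp⟩, ?_, by omega, by omega,
      by omega, ?_, ?_⟩
    · intro y hy
      rw [Finset.mem_insert, Finset.mem_singleton] at hy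
      rcases hy with rfl | rfl
      · exact hxU
      · exact hKU
    · rw [hJ]
      exact hU.erase_pair hx
    · intro J' hdisj hc
      have hxJ' : x ∉ J' := fun hh => (Finset.disjoint_left.1 hdisj) hh (by simp)
      have hKJ' : K ∉ J' := fun hh => (Finset.disjoint_left.1 hdisj) hh (by simp)
      refine Cov.good (r := x) S.hl (by simp) hx1 (Cov.good (r := K) S.hl ?_ hx2
        (hc.mono ?_))
      · exact Finset.mem_erase.2 ⟨Ne.symm hxK, by simp⟩
      · intro y hy
        refine Finset.mem_erase.2 ⟨?_, Finset.mem_erase.2 ⟨?_, Finset.mem_union_left _ hy⟩⟩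
        · rintro rfl; exact hKJ' hy
        · rintro rfl; exact hxJ' hy
    · rw [hsumJ]
      have hmono : (inner L h (a + (2 * x + 1) + (2 * K + 1)) L).card ≤
          (inner L h a L).card := by
        refine Finset.card_le_card ?_
        intro z hz
        simp only [Burn.inner, Finset.mem_filter] at hz ⊢
        exact ⟨hz.1, by omega, hz.2.2⟩
      omega
  · -- three forced steps
    push Not at hloc
    have h3 := top_three (U := U) (by omega)
    rw [← hK, ← hmc] at h3
    obtain ⟨r2, hr2⟩ : ∃ r2, r2 = top (U.erase K) := ⟨_, rfl⟩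
    rw [← hr2] at h3
    obtain ⟨r3, hr3⟩ : ∃ r3, r3 = top ((U.erase K).erase r2) := ⟨_, rfl⟩
    rw [← hr3] at h3
    obtain ⟨ht2, ht3⟩ := h3
    have hc1 : (U.erase K).card = m - 1 := by rw [Finset.card_erase_of_mem hKU, hmc]
    have hne1 : (U.erase K).Nonempty := Finset.card_pos.1 (by omega)
    have hr2U : r2 ∈ U.erase K := by rw [hr2]; exact top_mem hne1
    have hc2 : ((U.erase K).erase r2).card = m - 2 := by
      rw [Finset.card_erase_of_mem hr2U, hc1]; omega
    have hne2 : ((U.erase K).erase r2).Nonempty := Finset.card_pos.1 (by omega)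
    have hr3U : r3 ∈ (U.erase K).erase r2 := by rw [hr3]; exact top_mem hne2
    obtain ⟨hr2K, hr2U'⟩ := Finset.mem_erase.1 hr2U
    obtain ⟨hr32, hr3U'⟩ := Finset.mem_erase.1 hr3U
    obtain ⟨hr3K, hr3U''⟩ := Finset.mem_erase.1 hr3U'
    have hle2 := le_top hr2U'
    have hle3 := le_top hr3U''
    rw [← hK] at hle2 hle3
    have hSt : St φ (((U.erase K).erase r2).erase r3) F := by
      have s1 : St φ (U.erase K) F := by rw [hK]; exact hU.erase_top hne
      have s2 : St φ ((U.erase K).erase r2) F := by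
        have := s1.erase_top hne1
        rwa [← hr2] at this
      have := s2.erase_top hne2
      rwa [← hr3] at this
    have hJ : U \ {K, r2, r3} = ((U.erase K).erase r2).erase r3 := by
      ext y
      simp only [Finset.mem_sdiff, Finset.mem_insert, Finset.mem_singleton, Finset.mem_erase]
      tauto
    have hsumJ : ∑ y ∈ ({K, r2, r3} : Finset ℕ), (2 * y + 1) =
        (2 * K + 1) + ((2 * r2 + 1) + (2 * r3 + 1)) := by
      rw [Finset.sum_insert, Finset.sum_pair (Ne.symm hr32)]
      simp only [Finset.mem_insert, Finset.mem_singleton]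
      rintro (h1 | h1)
      · exact hr2K h1.symm
      · exact hr3K h1.symm
    obtain ⟨η, hη⟩ : ∃ η, η = m / 31000 := ⟨_, rfl⟩
    rw [← hη] at hheight
    have hη1 : 31000 * η ≤ m := by omega
    obtain ⟨b, hbd⟩ : ∃ b, b = a + (2 * K + 1) - 2 * η + (2 * r2 + 1) - 2 * η +
      (2 * r3 + 1) - 2 * η := ⟨_, rfl⟩
    have hb1 : b + 6 * η = a + (2 * K + 1) + (2 * r2 + 1) + (2 * r3 + 1) := by omega
    have hbge : a + (4 * K + 2) ≤ b := by omega
    refine ⟨{K, r2, r3}, b, ?_, ⟨K, by simp⟩, ?_, by omega, by omega, by omega, ?_, ?_⟩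
    · intro y hy
      rw [Finset.mem_insert, Finset.mem_insert, Finset.mem_singleton] at hy
      rcases hy with rfl | rfl | rfl
      · exact hKU
      · exact hr2U'
      · exact hr3U''
    · rw [hJ]
      exact hSt
    · intro J' hdisj hc
      have hK' : K ∉ J' := fun hh => (Finset.disjoint_left.1 hdisj) hh (by simp)
      have hr2' : r2 ∉ J' := fun hh => (Finset.disjoint_left.1 hdisj) hh (by simp)
      have hr3' : r3 ∉ J' := fun hh => (Finset.disjoint_left.1 hdisj) hh (by simp)
      rw [hbd] at hc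
      refine Cov.bad (r := K) (η := η) (by simp) (fun i hi h1 _ => hheight i hi h1)
        (Cov.bad (r := r2) (η := η) ?_ (fun i hi h1 _ => hheight i hi (by omega))
        (Cov.bad (r := r3) (η := η) ?_ (fun i hi h1 _ => hheight i hi (by omega))
        (hc.mono ?_)))
      · exact Finset.mem_erase.2 ⟨hr2K, by simp⟩
      · exact Finset.mem_erase.2 ⟨hr32, Finset.mem_erase.2 ⟨hr3K, by simp⟩⟩
      · intro y hy
        refine Finset.mem_erase.2 ⟨?_, Finset.mem_erase.2 ⟨?_, Finset.mem_erase.2
          ⟨?_, Finset.mem_union_left _ hy⟩⟩⟩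
        · rintro rfl; exact hr3' hy
        · rintro rfl; exact hr2' hy
        · rintro rfl; exact hK' hy
    · rw [hsumJ]
      have hdrop : (inner L h b L).card +
          ((cuts L h).filter (fun z => a < z ∧ z ≤ a + (4 * K + 2))).card ≤
          (inner L h a L).card := by
        have hdisj : Disjoint (inner L h b L)
            ((cuts L h).filter (fun z => a < z ∧ z ≤ a + (4 * K + 2))) := by
          rw [Finset.disjoint_left]
          intro z hz hz'
          simp only [Burn.inner, Finset.mem_filter] at hz hz'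
          omega
        have hsub : inner L h b L ∪
            ((cuts L h).filter (fun z => a < z ∧ z ≤ a + (4 * K + 2))) ⊆ inner L h a L := by
          intro z hz
          rw [Finset.mem_union] at hz
          simp only [Burn.inner, Finset.mem_filter] at hz ⊢
          rcases hz with ⟨h1, h2, h3⟩ | ⟨h1, h2, h3⟩
          · exact ⟨h1, by omega, h3⟩
          · exact ⟨h1, h2, by omega⟩
        have := Finset.card_le_card hsub
        rwa [Finset.card_union_of_disjoint hdisj] at this
      omega

end Pool.Agent.Helper64.FB
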