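import Pool.Agent.Helper64.FB.Coord
import Pool.Agent.Helper64.Burn.Process

set_option autoImplicit false

/-!
FB-22. A piece becomes a line with windows.
-/

namespace Pool.Agent.Helper64.FB

open Finset Pool.Agent.Helper64.Burn

variable {W : Type*} [DecidableEq W]

theorem piece_line {T : SimpleGraph W} (hT : T.IsTree) {S : Finset W} (hS : Conv T S)
    {d : ℕ} {x : ℕ → W} {pos ht : W → ℕ} (C : Coord T S d x pos ht) {hH : W → ℕ} {p : ℕ}
    (hp : ∀ v, hH v ≤ p) :
    ∃ h : ℕ → ℕ, (∀ i, i < d + 1 + 2 * p → h i ≤ i) ∧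
      (∀ i, i < d + 1 + 2 * p → i + h i < d + 1 + 2 * p) ∧
      (d + 1 + 2 * p) + ∑ i ∈ Finset.range (d + 1 + 2 * p), h i ≤
        S.card + ∑ v ∈ S, hH v + 2 * p ∧
      (∀ M, (∀ v ∈ S, ht v ≤ M) → ∀ i, h i ≤ M + p) ∧
      ∀ J, Cov (d + 1 + 2 * p) h J 0 (d + 1 + 2 * p) →
        ∃ c : ℕ → W, ∀ v ∈ S, ∃ r ∈ J, T.dist (c r) v + hH v ≤ r := by
  have hconn : T.Connected := hT.1
  have hle : ∀ v ∈ S, pos v ≤ d := fun v hv => by
    have := C.right v hv
    omega
  let A : ℕ → Finset W := fun i => S.filter (fun v => pos v + p = i)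
  have hA : ∀ i v, v ∈ A i ↔ v ∈ S ∧ pos v + p = i := fun i v => Finset.mem_filter
  refine ⟨fun i => (A i).sup (fun v => ht v + hH v), ?_, ?_, ?_, ?_, ?_⟩
  · intro i _
    refine Finset.sup_le ?_
    intro v hv
    obtain ⟨h1, h2⟩ := (hA i v).1 hv
    have h3 := C.left v h1
    have h4 := hp v
    omega
  · intro i hi
    have h0 : (A i).sup (fun v => ht v + hH v) ≤ d + 2 * p - i := by
      refine Finset.sup_le ?_
      intro v hv
      obtain ⟨h1, h2⟩ := (hA i v).1 hv
      have h3 := C.right v h1
      have h4 := hp v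
      omega
    show i + (A i).sup (fun v => ht v + hH v) < d + 1 + 2 * p
    omega
  · have hmaps : ∀ v ∈ S, pos v + p ∈ Finset.range (d + 1 + 2 * p) := by
      intro v hv
      have := hle v hv
      rw [Finset.mem_range]
      omega
    have hcard : S.card = ∑ i ∈ Finset.range (d + 1 + 2 * p), (A i).card :=
      Finset.card_eq_sum_card_fiberwise hmaps
    have hsum : ∑ i ∈ Finset.range (d + 1 + 2 * p), ∑ v ∈ A i, hH v = ∑ v ∈ S, hH v :=
      Finset.sum_fiberwise_of_maps_to hmaps hH
    have hind : ∑ i ∈ Finset.range (d + 1 + 2 * p),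
        (if p ≤ i ∧ i ≤ p + d then 1 else 0) = d + 1 := by
      rw [← Finset.card_filter]
      have : (Finset.range (d + 1 + 2 * p)).filter (fun i => p ≤ i ∧ i ≤ p + d) =
          Finset.Icc p (p + d) := by
        ext i
        rw [Finset.mem_filter, Finset.mem_range, Finset.mem_Icc]
        constructor
        · exact fun h => h.2
        · exact fun h => ⟨by omega, h⟩
      rw [this, Nat.card_Icc]
      omega
    have hkey : ∀ i ∈ Finset.range (d + 1 + 2 * p),
        (if p ≤ i ∧ i ≤ p + d then 1 else 0) + (A i).sup (fun v => ht v + hH v) ≤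
          (A i).card + ∑ v ∈ A i, hH v := by
      intro i _
      by_cases hi : p ≤ i ∧ i ≤ p + d
      · rw [if_pos hi]
        have hmem : x (i - p) ∈ A i := by
          rw [hA]
          have h1 : i - p ≤ d := by omega
          refine ⟨C.mem _ h1, ?_⟩
          rw [(C.self hconn h1).1]
          omega
        obtain ⟨v, hv, hveq⟩ := Finset.exists_mem_eq_sup (A i) ⟨_, hmem⟩
          (fun v => ht v + hH v)
        rw [hveq]
        obtain ⟨hv1, hv2⟩ := (hA i v).1 hv
        have h1 : (Finset.range (ht v + 1)) ⊆ (A i).image ht := by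
          intro t htm
          rw [Finset.mem_range] at htm
          obtain ⟨u, hu, hu1, hu2⟩ := C.chain hconn hS hv1 (t := t) (by omega)
          rw [Finset.mem_image]
          exact ⟨u, (hA i u).2 ⟨hu, by rw [hu1]; exact hv2⟩, hu2⟩
        have h2 := (Finset.card_le_card h1).trans Finset.card_image_le
        rw [Finset.card_range] at h2
        have h3 : hH v ≤ ∑ v ∈ A i, hH v :=
          Finset.single_le_sum (f := hH) (fun _ _ => Nat.zero_le _) hv
        show 1 + (ht v + hH v) ≤ _
        omega
      · rw [if_neg hi]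
        have hemp : A i = ∅ := by
          rw [Finset.eq_empty_iff_forall_notMem]
          intro v hv
          obtain ⟨hv1, hv2⟩ := (hA i v).1 hv
          have := hle v hv1
          omega
        rw [hemp]
        simp
    have htot := Finset.sum_le_sum hkey
    rw [Finset.sum_add_distrib, Finset.sum_add_distrib, hind, ← hcard, hsum] at htot
    show d + 1 + 2 * p + ∑ i ∈ Finset.range (d + 1 + 2 * p),
      (A i).sup (fun v => ht v + hH v) ≤ _
    omega
  · intro M hM i
    refine Finset.sup_le ?_
    intro v hv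
    obtain ⟨h1, h2⟩ := (hA i v).1 hv
    have h3 := hM v h1
    have h4 := hp v
    omega
  · intro J hJ
    obtain ⟨c, hc⟩ := hJ
    refine ⟨fun r => x (min (c r - p).toNat d), ?_⟩
    intro v hv
    have hpos := hle v hv
    have hmem : v ∈ A (pos v + p) := (hA _ _).2 ⟨hv, rfl⟩
    have hge : ht v + hH v ≤ (A (pos v + p)).sup (fun v => ht v + hH v) :=
      Finset.le_sup (f := fun v => ht v + hH v) hmem
    have hub1 : (A (pos v + p)).sup (fun v => ht v + hH v) ≤ pos v + p := by
      refine Finset.sup_le ?_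
      intro u hu
      obtain ⟨h1, h2⟩ := (hA _ u).1 hu
      have h3 := C.left u h1
      have h4 := hp u
      omega
    have hub2 : (A (pos v + p)).sup (fun v => ht v + hH v) ≤ d + 2 * p - (pos v + p) := by
      refine Finset.sup_le ?_
      intro u hu
      obtain ⟨h1, h2⟩ := (hA _ u).1 hu
      have h3 := C.right u h1
      have h4 := hp u
      omega
    obtain ⟨r, hr, h1, h2⟩ := hc (pos v + p) (by omega) (by
      show 0 + (A (pos v + p)).sup (fun v => ht v + hH v) ≤ pos v + p
      omega) (by
      show pos v + p + (A (pos v + p)).sup (fun v => ht v + hH v) < d + 1 + 2 * p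
      omega)
    refine ⟨r, hr, ?_⟩
    have hd := C.dist v hv (min (c r - p).toNat d) (min_le_right _ _)
    show T.dist (x (min (c r - p).toNat d)) v + hH v ≤ r
    rw [hd]
    obtain ⟨H, hH'⟩ : ∃ H, H = (A (pos v + p)).sup (fun v => ht v + hH v) := ⟨_, rfl⟩
    have h1' : ((pos v + p : ℕ) : ℤ) + (H : ℤ) ≤ c r + r := by rw [hH']; exact h1
    have h2' : c r + (H : ℤ) ≤ ((pos v + p : ℕ) : ℤ) + r := by rw [hH']; exact h2
    rw [← hH'] at hge
    push_cast at h1' h2'
    rcases le_total (c r - p).toNat d with hm | hm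
    · rw [min_eq_left hm]
      omega
    · rw [min_eq_right hm]
      omega

end Pool.Agent.Helper64.FB
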