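import Pool.Agent.Helper64.FB.State
import Pool.Agent.Helper64.Burn.Process

set_option autoImplicit false

/-!
FB-11. Small pieces: one interval each.
-/

namespace Pool.Agent.Helper64.FB

open Finset Pool.Agent.Helper64.Burn

theorem small_radii {ι : Type*} [DecidableEq ι] {k φ : ℕ} (hk : 10 ^ 6 * φ ≤ k) (hφ : 0 < φ)
    {L : ι → ℕ} {F : Finset ℕ} (I : Finset ι) (hc : F.card + I.card ≤ φ)
    (hI : ∀ s ∈ I, 100 * L s ≤ 190 * k) :
    ∃ r : ι → ℕ, (∀ s ∈ I, r s < k ∧ r s ∉ F ∧ 4000 * φ ≤ r s ∧ L s ≤ 2 * r s + 1 ∧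
      2 * r s + 1 ≤ L s + 8100 * φ) ∧ ∀ s ∈ I, ∀ s' ∈ I, r s = r s' → s = s' := by
  induction I using Finset.induction_on with
  | empty => exact ⟨fun _ => 0, by simp, by simp⟩
  | insert a I ha ih =>
    rw [Finset.card_insert_of_notMem ha] at hc
    obtain ⟨r, h1, h2⟩ := ih (by omega) fun s hs => hI s (Finset.mem_insert_of_mem hs)
    have hLa := hI a (Finset.mem_insert_self a I)
    obtain ⟨b, hb⟩ : ∃ b, b = max (4000 * φ) (L a / 2) := ⟨_, rfl⟩
    -- a free radius
    obtain ⟨x, hx, hxF⟩ : ∃ x ∈ (Finset.range φ).image (fun j => b + j), x ∉ F ∪ I.image r := by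
      by_contra hcon
      push Not at hcon
      have h3 : (Finset.range φ).image (fun j => b + j) ⊆ F ∪ I.image r := hcon
      have h4 := Finset.card_le_card h3
      rw [Finset.card_image_of_injective _ (fun i j h => by simpa using h), Finset.card_range] at h4
      have h5 := (Finset.card_union_le F (I.image r)).trans
        (Nat.add_le_add_left (Finset.card_image_le (s := I) (f := r)) F.card)
      omega
    obtain ⟨j, hj, rfl⟩ := Finset.mem_image.1 hx
    rw [Finset.mem_range] at hj
    rw [Finset.mem_union, not_or] at hxF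
    have hb1 : 4000 * φ ≤ b := hb ▸ le_max_left _ _
    have hb2 : L a / 2 ≤ b := hb ▸ le_max_right _ _
    have hb3 : b = 4000 * φ ∨ b = L a / 2 := by
      rcases max_choice (4000 * φ) (L a / 2) with h | h
      · exact Or.inl (hb.trans h)
      · exact Or.inr (hb.trans h)
    have hne : ∀ s ∈ I, s ≠ a := fun s hs h => ha (h ▸ hs)
    refine ⟨Function.update r a (b + j), ?_, ?_⟩
    · intro s hs
      rcases Finset.mem_insert.1 hs with rfl | hs
      · rw [Function.update_self]
        refine ⟨?_, hxF.1, by omega, by omega, ?_⟩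
        · rcases hb3 with h | h <;> omega
        · rcases hb3 with h | h <;> omega
      · rw [Function.update_of_ne (hne s hs)]
        exact h1 s hs
    · intro s hs s' hs' hss
      rcases Finset.mem_insert.1 hs with h3 | h3
      · rcases Finset.mem_insert.1 hs' with h4 | h4
        · rw [h3, h4]
        · rw [h3, Function.update_self, Function.update_of_ne (hne s' h4)] at hss
          exact absurd (Finset.mem_image.2 ⟨s', h4, hss.symm⟩) hxF.2
      · rcases Finset.mem_insert.1 hs' with h4 | h4
        · rw [h4, Function.update_self, Function.update_of_ne (hne s h3)] at hss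
          exact absurd (Finset.mem_image.2 ⟨s, h3, hss⟩) hxF.2
        · rw [Function.update_of_ne (hne s h3), Function.update_of_ne (hne s' h4)] at hss
          exact h2 s h3 s' h4 hss

theorem cov_single {L r : ℕ} {h : ℕ → ℕ} (hl : ∀ i, i < L → h i ≤ i)
    (hr : ∀ i, i < L → i + h i < L) (hL : L ≤ 2 * r + 1) : Cov L h {r} 0 L := by
  refine ⟨fun _ => (r : ℤ), fun i hi _ _ => ⟨r, Finset.mem_singleton_self r, ?_, ?_⟩⟩
  · have := hr i hi
    push_cast
    omega
  · have := hl i hi
    push_cast
    omega

end Pool.Agent.Helper64.FB
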