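import Pool.Agent.Helper64.FB.BigPieces
import Pool.Agent.Helper64.FB.Small

set_option autoImplicit false

/-!
FB-13. Covering a family of pieces, small or long.
-/

namespace Pool.Agent.Helper64.FB

open Finset Pool.Agent.Helper64.Burn

theorem pieces {ι : Type*} [DecidableEq ι] {k φ : ℕ} {I : Finset ι} {L : ι → ℕ}
    {h : ι → ℕ → ℕ} {F : Finset ℕ}
    (hk : 10 ^ 6 * φ ≤ k) (hF : F ⊆ Finset.range k) (hbig : ∀ f ∈ F, 4000 * φ ≤ f)
    (hcard : F.card + 6 * I.card + 5 ≤ φ)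
    (hl : ∀ s ∈ I, ∀ i, i < L s → h s i ≤ i)
    (hr : ∀ s ∈ I, ∀ i, i < L s → i + h s i < L s)
    (hcase : ∀ s ∈ I, 100 * L s ≤ 190 * k ∨ ∀ i, i < L s → 10 ^ 11 * h s i ≤ k)
    (hb : ∑ s ∈ I, (L s + ∑ i ∈ Finset.range (L s), h s i + 120000 * φ) ≤
      ∑ x ∈ Finset.range k \ F, (2 * x + 1)) :
    ∃ J : ι → Finset ℕ,
      (∀ s ∈ I, J s ⊆ Finset.range k \ F ∧ Cov (L s) (h s) (J s) 0 (L s)) ∧
      ∀ s ∈ I, ∀ s' ∈ I, s ≠ s' → Disjoint (J s) (J s') := by
  set I1 : Finset ι := I.filter (fun s => 100 * L s ≤ 190 * k) with hI1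
  set I2 : Finset ι := I.filter (fun s => ¬ 100 * L s ≤ 190 * k) with hI2
  have hcc : I1.card + I2.card = I.card := Finset.card_filter_add_card_filter_not _
  have m1 : ∀ s ∈ I1, s ∈ I ∧ 100 * L s ≤ 190 * k := fun s hs => Finset.mem_filter.1 hs
  have m2 : ∀ s ∈ I2, s ∈ I ∧ ¬ 100 * L s ≤ 190 * k := fun s hs => Finset.mem_filter.1 hs
  obtain ⟨r, hr1, hr2⟩ := small_radii hk (by omega) (L := L) (F := F) I1 (by omega)
    (fun s hs => (m1 s hs).2)
  set F1 : Finset ℕ := F ∪ I1.image r with hF1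
  have hinj : Set.InjOn r (I1 : Set ι) := fun s hs s' hs' e => hr2 s hs s' hs' e
  have hdisj : Disjoint F (I1.image r) := by
    rw [Finset.disjoint_left]
    intro x hx hx'
    obtain ⟨s, hs, rfl⟩ := Finset.mem_image.1 hx'
    exact (hr1 s hs).2.1 hx
  have hF1card : F1.card = F.card + I1.card := by
    rw [hF1, Finset.card_union_of_disjoint hdisj, Finset.card_image_of_injOn hinj]
  -- budget
  have hsplit : ∑ x ∈ Finset.range k \ F, (2 * x + 1) =
      ∑ x ∈ Finset.range k \ F1, (2 * x + 1) + ∑ s ∈ I1, (2 * r s + 1) := by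
    have e1 : I1.image r ⊆ Finset.range k \ F := by
      intro x hx
      obtain ⟨s, hs, rfl⟩ := Finset.mem_image.1 hx
      exact Finset.mem_sdiff.2 ⟨Finset.mem_range.2 (hr1 s hs).1, (hr1 s hs).2.1⟩
    have e2 : (Finset.range k \ F) \ I1.image r = Finset.range k \ F1 := by
      rw [hF1]
      ext x
      simp only [Finset.mem_sdiff, Finset.mem_union]
      tauto
    rw [← Finset.sum_sdiff e1, e2, Finset.sum_image (fun s hs s' hs' e => hr2 s hs s' hs' e)]
  have hsum1 : ∑ s ∈ I1, (2 * r s + 1) ≤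
      ∑ s ∈ I1, (L s + ∑ i ∈ Finset.range (L s), h s i + 120000 * φ) := by
    refine Finset.sum_le_sum fun s hs => ?_
    have := (hr1 s hs).2.2.2.2
    have h0 : 0 ≤ ∑ i ∈ Finset.range (L s), h s i := Nat.zero_le _
    omega
  have hsumI : ∑ s ∈ I1, (L s + ∑ i ∈ Finset.range (L s), h s i + 120000 * φ) +
      ∑ s ∈ I2, (L s + ∑ i ∈ Finset.range (L s), h s i + 120000 * φ) =
      ∑ s ∈ I, (L s + ∑ i ∈ Finset.range (L s), h s i + 120000 * φ) :=
    Finset.sum_filter_add_sum_filter_not I _ _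
  have hb2 : ∑ s ∈ I2, (L s + ∑ i ∈ Finset.range (L s), h s i + 120000 * φ) ≤
      ∑ x ∈ Finset.range k \ F1, (2 * x + 1) := by omega
  -- enumeration of the long pieces
  rcases I2.eq_empty_or_nonempty with hemp | hne
  · refine ⟨fun s => {r s}, ?_, ?_⟩
    · intro s hs
      have hs1 : s ∈ I1 := by
        by_contra hcon
        have : s ∈ I2 := Finset.mem_filter.2 ⟨hs, fun h' => hcon (Finset.mem_filter.2 ⟨hs, h'⟩)⟩
        rw [hemp] at this
        exact absurd this (Finset.notMem_empty s)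
      refine ⟨?_, cov_single (hl s hs) (hr s hs) (hr1 s hs1).2.2.2.1⟩
      rw [Finset.singleton_subset_iff]
      exact Finset.mem_sdiff.2 ⟨Finset.mem_range.2 (hr1 s hs1).1, (hr1 s hs1).2.1⟩
    · intro s hs s' hs' hss
      have hmem : ∀ s ∈ I, s ∈ I1 := by
        intro s hs
        by_contra hcon
        have : s ∈ I2 := Finset.mem_filter.2 ⟨hs, fun h' => hcon (Finset.mem_filter.2 ⟨hs, h'⟩)⟩
        rw [hemp] at this
        exact absurd this (Finset.notMem_empty s)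
      rw [Finset.disjoint_singleton]
      exact fun e => hss (hr2 s (hmem s hs) s' (hmem s' hs') e)
  obtain ⟨s0, hs0⟩ := hne
  set n := I2.card with hn
  let e : I2 ≃ Fin n := I2.equivFin
  let g : ℕ → ι := fun j => if hj : j < n then (e.symm ⟨j, hj⟩ : ι) else s0
  have hg : ∀ j, g j ∈ I2 := by
    intro j
    show (if hj : j < n then (e.symm ⟨j, hj⟩ : ι) else s0) ∈ I2
    split_ifs with hj
    · exact (e.symm ⟨j, hj⟩).2
    · exact hs0
  let q : ι → ℕ := fun s => if hs : s ∈ I2 then (e ⟨s, hs⟩ : ℕ) else 0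
  have hq : ∀ s ∈ I2, q s < n := by
    intro s hs
    show (if hs : s ∈ I2 then (e ⟨s, hs⟩ : ℕ) else 0) < n
    rw [dif_pos hs]
    exact (e ⟨s, hs⟩).2
  have hgq : ∀ s ∈ I2, g (q s) = s := by
    intro s hs
    have h1 : q s = (e ⟨s, hs⟩ : ℕ) := by
      show (if hs : s ∈ I2 then (e ⟨s, hs⟩ : ℕ) else 0) = _
      rw [dif_pos hs]
    have h2 : g (q s) = (e.symm ⟨q s, hq s hs⟩ : ι) := by
      show (if hj : q s < n then (e.symm ⟨q s, hj⟩ : ι) else s0) = _
      rw [dif_pos (hq s hs)]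
    rw [h2]
    have h3 : (⟨q s, hq s hs⟩ : Fin n) = e ⟨s, hs⟩ := Fin.ext h1
    rw [h3, Equiv.symm_apply_apply]
  have hsumn : ∀ f : ι → ℕ, ∑ j ∈ Finset.range n, f (g j) = ∑ s ∈ I2, f s := by
    intro f
    rw [← Fin.sum_univ_eq_sum_range (fun j => f (g j)) n, ← Finset.sum_coe_sort I2 f]
    refine Fintype.sum_equiv e.symm _ _ fun j => ?_
    have h2 : g (j : ℕ) = (e.symm j : ι) := by
      show (if hj : (j : ℕ) < n then (e.symm ⟨j, hj⟩ : ι) else s0) = _
      rw [dif_pos j.2]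
    rw [h2]
  obtain ⟨J, hJ1, hJ2⟩ := big_pieces (k := k) (φ := φ) (n := n) (L := fun j => L (g j))
    (h := fun j => h (g j)) (F := F1) hk
    (by
      intro f hf
      rcases Finset.mem_union.1 hf with h' | h'
      · exact hbig f h'
      · obtain ⟨s, hs, rfl⟩ := Finset.mem_image.1 h'
        exact (hr1 s hs).2.2.1)
    (by omega)
    (fun j _ => by
      have := (m2 _ (hg j)).2
      show 19 * k ≤ 10 * L (g j)
      omega)
    (fun j _ => hl _ (m2 _ (hg j)).1)
    (fun j _ => hr _ (m2 _ (hg j)).1)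
    (fun j _ => by
      rcases hcase _ (m2 _ (hg j)).1 with h' | h'
      · exact absurd h' (m2 _ (hg j)).2
      · exact h')
    (by
      rw [hsumn (fun s => L s + ∑ i ∈ Finset.range (L s), h s i + 120000 * φ)]
      exact hb2)
  have hsub : Finset.range k \ F1 ⊆ Finset.range k \ F :=
    Finset.sdiff_subset_sdiff subset_rfl Finset.subset_union_left
  have hmem : ∀ s ∈ I, s ∉ I2 → s ∈ I1 := by
    intro s hs hs2
    by_contra hcon
    exact hs2 (Finset.mem_filter.2 ⟨hs, fun h' => hcon (Finset.mem_filter.2 ⟨hs, h'⟩)⟩)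
  refine ⟨fun s => if s ∈ I2 then J (q s) else {r s}, ?_, ?_⟩
  · intro s hs
    show (if s ∈ I2 then J (q s) else {r s}) ⊆ _ ∧
      Cov (L s) (h s) (if s ∈ I2 then J (q s) else {r s}) 0 (L s)
    split_ifs with hs2
    · obtain ⟨h1, h2⟩ := hJ1 (q s) (hq s hs2)
      simp only [hgq s hs2] at h2
      exact ⟨h1.trans hsub, h2⟩
    · have hs1 := hmem s hs hs2
      refine ⟨?_, cov_single (hl s hs) (hr s hs) (hr1 s hs1).2.2.2.1⟩
      rw [Finset.singleton_subset_iff]
      exact Finset.mem_sdiff.2 ⟨Finset.mem_range.2 (hr1 s hs1).1, (hr1 s hs1).2.1⟩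
  · have key : ∀ s ∈ I1, ∀ s' ∈ I2, Disjoint ({r s} : Finset ℕ) (J (q s')) := by
      intro s hs s' hs'
      rw [Finset.disjoint_singleton_left]
      intro hx
      have h1 := (hJ1 (q s') (hq s' hs')).1 hx
      exact (Finset.mem_sdiff.1 h1).2
        (Finset.mem_union_right _ (Finset.mem_image_of_mem r hs))
    intro s hs s' hs' hss
    show Disjoint (if s ∈ I2 then J (q s) else {r s}) (if s' ∈ I2 then J (q s') else {r s'})
    split_ifs with h1 h2 h2
    · refine hJ2 _ _ (hq s h1) (hq s' h2) fun e => hss ?_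
      rw [← hgq s h1, ← hgq s' h2, e]
    · exact (key s' (hmem s' hs' h2) s h1).symm
    · exact key s (hmem s hs h1) s' h2
    · rw [Finset.disjoint_singleton]
      exact fun e => hss (hr2 s (hmem s hs h1) s' (hmem s' hs' h2) e)

end Pool.Agent.Helper64.FB
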