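import Pool.Agent.Helper64.FB.TwoSided

set_option autoImplicit false

/-!
FB-10. Existence of a quiet point for a family of pieces, and covering the dangerous windows.
-/

namespace Pool.Agent.Helper64.FB

open Finset Pool.Agent.Helper64.Burn

/-- Pairs (piece, position) whose window is high and close to `Q`. -/
def dng (L : ℕ → ℕ) (h : ℕ → ℕ → ℕ) (n Q : ℕ) : Finset (ℕ × ℕ) :=
  ((Finset.range n) ×ˢ (Finset.range (off L n))).filter (fun z => z.2 < L z.1 ∧ 0 < h z.1 z.2 ∧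
    ¬ (off L z.1 + z.2 + 10 ^ 9 * h z.1 z.2 ^ 2 < Q ∨
      Q + 10 ^ 9 * h z.1 z.2 ^ 2 ≤ off L z.1 + z.2))

theorem le_off {L : ℕ → ℕ} {n s : ℕ} (hs : s < n) : L s ≤ off L n :=
  Finset.single_le_sum (f := L) (fun _ _ => Nat.zero_le _) (Finset.mem_range.2 hs)

theorem mem_dng {L : ℕ → ℕ} {h : ℕ → ℕ → ℕ} {n Q s i : ℕ} (hs : s < n) (hi : i < L s)
    (hpos : 0 < h s i) (hn : (s, i) ∉ dng L h n Q) :
    off L s + i + 10 ^ 9 * h s i ^ 2 < Q ∨ Q + 10 ^ 9 * h s i ^ 2 ≤ off L s + i := by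
  by_contra hcon
  exact hn (Finset.mem_filter.2 ⟨Finset.mem_product.2 ⟨Finset.mem_range.2 hs,
    Finset.mem_range.2 (lt_of_lt_of_le hi (le_off hs))⟩, hi, hpos, hcon⟩)

theorem card_Q (A x T : ℕ) (P : Prop) [Decidable P] :
    ((Finset.range T).filter (fun Q => P ∧ ¬ (x + A < Q ∨ Q + A ≤ x))).card ≤
      if P then 2 * A else 0 := by
  split_ifs with hP
  · rcases Nat.lt_or_ge x A with h1 | h1
    · have h3 : (Finset.range T).filter (fun Q => P ∧ ¬ (x + A < Q ∨ Q + A ≤ x)) ⊆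
          Finset.range (x + A + 1) := by
        intro Q hQ
        have hQ2 := (Finset.mem_filter.1 hQ).2
        simp only [not_or, not_lt, not_le] at hQ2
        exact Finset.mem_range.2 (by omega)
      have h4 := Finset.card_le_card h3
      rw [Finset.card_range] at h4
      omega
    · have h3 : (Finset.range T).filter (fun Q => P ∧ ¬ (x + A < Q ∨ Q + A ≤ x)) ⊆
          Finset.Ioc (x - A) (x + A) := by
        intro Q hQ
        have hQ2 := (Finset.mem_filter.1 hQ).2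
        simp only [not_or, not_lt, not_le] at hQ2
        exact Finset.mem_Ioc.2 ⟨by omega, by omega⟩
      have h4 := Finset.card_le_card h3
      rw [Nat.card_Ioc] at h4
      omega
  · rw [Nat.le_zero, Finset.card_eq_zero]
    exact Finset.filter_eq_empty_iff.2 fun Q _ hQ => hP hQ.1

theorem sum_dng {L : ℕ → ℕ} {h : ℕ → ℕ → ℕ} {n p : ℕ}
    (hp : ∀ s, s < n → ∀ i, i < L s → h s i ≤ p) :
    ∑ Q ∈ Finset.range (off L n), (dng L h n Q).card ≤
      2 * 10 ^ 9 * p * ∑ s ∈ Finset.range n, ∑ i ∈ Finset.range (L s), h s i := by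
  have h1 : ∑ Q ∈ Finset.range (off L n), (dng L h n Q).card =
      ∑ z ∈ (Finset.range n) ×ˢ (Finset.range (off L n)),
        ((Finset.range (off L n)).filter (fun Q => (z.2 < L z.1 ∧ 0 < h z.1 z.2) ∧
          ¬ (off L z.1 + z.2 + 10 ^ 9 * h z.1 z.2 ^ 2 < Q ∨
            Q + 10 ^ 9 * h z.1 z.2 ^ 2 ≤ off L z.1 + z.2))).card := by
    simp only [dng, Finset.card_filter, and_assoc]
    exact Finset.sum_comm
  rw [h1, Finset.sum_product, Finset.mul_sum]
  refine Finset.sum_le_sum fun s hs => ?_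
  rw [Finset.mul_sum]
  have hs' := Finset.mem_range.1 hs
  have h2 : ∀ i ∈ Finset.range (off L n), ((Finset.range (off L n)).filter (fun Q =>
      (i < L s ∧ 0 < h s i) ∧ ¬ (off L s + i + 10 ^ 9 * h s i ^ 2 < Q ∨
        Q + 10 ^ 9 * h s i ^ 2 ≤ off L s + i))).card ≤
      if i < L s then 2 * 10 ^ 9 * p * h s i else 0 := by
    intro i _
    refine (card_Q _ _ _ _).trans ?_
    by_cases hi : i < L s
    · rw [if_pos hi]
      split_ifs with h3
      · have h4 : h s i ^ 2 ≤ p * h s i := by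
          rw [sq]
          exact Nat.mul_le_mul_right _ (hp s hs' i hi)
        nlinarith
      · exact Nat.zero_le _
    · rw [if_neg hi, if_neg (fun h3 => hi h3.1)]
  refine (Finset.sum_le_sum h2).trans (le_of_eq ?_)
  rw [← Finset.sum_filter]
  refine Finset.sum_congr ?_ fun _ _ => rfl
  ext i
  simp only [Finset.mem_filter, Finset.mem_range]
  have := le_off (L := L) hs'
  omega

theorem exists_quiet_pt {L : ℕ → ℕ} {h : ℕ → ℕ → ℕ} {n p : ℕ}
    (hp : ∀ s, s < n → ∀ i, i < L s → h s i ≤ p) (hpos : 0 < off L n) :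
    ∃ Q, Q < off L n ∧ (dng L h n Q).card * off L n ≤
      2 * 10 ^ 9 * p * ∑ s ∈ Finset.range n, ∑ i ∈ Finset.range (L s), h s i := by
  by_contra hcon
  push Not at hcon
  have h1 := sum_dng hp
  obtain ⟨X, hX⟩ : ∃ X, X = 2 * 10 ^ 9 * p *
    ∑ s ∈ Finset.range n, ∑ i ∈ Finset.range (L s), h s i := ⟨_, rfl⟩
  obtain ⟨T, hT⟩ : ∃ T, T = off L n := ⟨_, rfl⟩
  rw [← hX] at h1 hcon
  rw [← hT] at h1 hcon hpos
  have h2 : ∑ Q ∈ Finset.range T, X < ∑ Q ∈ Finset.range T, (dng L h n Q).card * T := by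
    refine Finset.sum_lt_sum_of_nonempty ⟨0, Finset.mem_range.2 hpos⟩ ?_
    intro Q hQ
    exact hcon Q (Finset.mem_range.1 hQ)
  rw [Finset.sum_const, Finset.card_range, smul_eq_mul, ← Finset.sum_mul] at h2
  have h3 := Nat.mul_le_mul_right T h1
  rw [Nat.mul_comm X T] at h3
  omega

theorem exists_piece {L : ℕ → ℕ} {n Q : ℕ} (hQ : Q < off L n) :
    ∃ i0, i0 < n ∧ off L i0 ≤ Q ∧ Q < off L (i0 + 1) := by
  induction n with
  | zero => simp [off] at hQ
  | succ n ih =>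
    rcases Nat.lt_or_ge Q (off L n) with h | h
    · obtain ⟨i0, h1, h2⟩ := ih h
      exact ⟨i0, by omega, h2⟩
    · exact ⟨n, Nat.lt_succ_self n, h, hQ⟩

/-- The windows in `D` get their own intervals. -/
theorem cov_add {L : ℕ} {h h' : ℕ → ℕ} {J : Finset ℕ} {a a' : ℕ} {D : Finset ℕ}
    (hh' : ∀ i, i ∉ D → h' i = h i) (f : ℕ → ℕ)
    (hf : ∀ i j, i ∈ D → j ∈ D → f i = f j → i = j) (hfJ : ∀ i ∈ D, f i ∉ J)
    (hfh : ∀ i ∈ D, h i ≤ f i) (hc : Cov L h' J a a') : Cov L h (J ∪ D.image f) a a' := by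
  classical
  obtain ⟨c, hc⟩ := hc
  refine ⟨fun r => if hr : ∃ i ∈ D, f i = r then (hr.choose : ℤ) else c r, ?_⟩
  intro i hi h1 h2
  by_cases hD : i ∈ D
  · refine ⟨f i, Finset.mem_union_right _ (Finset.mem_image_of_mem _ hD), ?_⟩
    have hr : ∃ j ∈ D, f j = f i := ⟨i, hD, rfl⟩
    have he : hr.choose = i := hf _ _ hr.choose_spec.1 hD hr.choose_spec.2
    have hfi := hfh i hD
    simp only [dif_pos hr, he]
    omega
  · have e := hh' i hD
    obtain ⟨r, hr, hr'⟩ := hc i hi (by rw [e]; exact h1) (by rw [e]; exact h2)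
    rw [e] at hr'
    refine ⟨r, Finset.mem_union_left _ hr, ?_⟩
    have hn : ¬ ∃ j ∈ D, f j = r := by
      rintro ⟨j, hj, rfl⟩
      exact hfJ j hj hr
    simp only [dif_neg hn]
    exact hr'

end Pool.Agent.Helper64.FB
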