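import Pool.Agent.Helper64.Burn.Radii

set_option autoImplicit false

/-!
FB-1. Sets of radii with few holes (constants 400 and 402). Copy of the proofs in
`Burn/Radii.lean` with other constants.
-/

namespace Pool.Agent.Helper64.FB

open Finset Pool.Agent.Helper64.Burn

/-- Few holes, with the constants 400 and 402. -/
def HC4 (V : Finset ℕ) : Prop :=
  ∀ j, (holes V j).card = 0 ∨ 400 * (holes V j).card + 402 * j ≤ V.card

theorem HC4.erase_top {U : Finset ℕ} (h : HC4 U) (hU : U.Nonempty) : HC4 (U.erase (top U)) := by
  intro j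
  have hsub : holes (U.erase (top U)) j ⊆ holes U (j + 1) := by
    intro y hy
    simp only [holes, Finset.mem_filter, Finset.mem_range] at hy ⊢
    obtain ⟨h1, h2, h3⟩ := hy
    have h4 : top (U.erase (top U)) ≤ top U := top_mono (Finset.erase_subset _ _)
    have h5 : y < top U := by omega
    refine ⟨h5, ?_, ?_⟩
    · intro hyU
      exact h2 (Finset.mem_erase.2 ⟨by omega, hyU⟩)
    · have := rk_erase_top hU h5
      omega
  have hc := Finset.card_le_card hsub
  have hcard : (U.erase (top U)).card = U.card - 1 := Finset.card_erase_of_mem (top_mem hU)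
  rcases h (j + 1) with h1 | h1
  · left; omega
  · right; omega

theorem HC4.erase_pair {U : Finset ℕ} (h : HC4 U) {x : ℕ} (hx : x ∈ U) (hxt : x ≠ top U)
    (hr : 402 * rk U x ≤ U.card) : HC4 ((U.erase x).erase (top U)) := by
  intro j
  have hU : U.Nonempty := ⟨x, hx⟩
  have htm : top U ∈ U.erase x := Finset.mem_erase.2 ⟨Ne.symm hxt, top_mem hU⟩
  have hxlt : x < top U := by
    have := le_top hx
    omega
  have hswap : (U.erase x).erase (top U) = (U.erase (top U)).erase x := by
    rw [Finset.erase_right_comm]
  have htople : top ((U.erase x).erase (top U)) ≤ top U :=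
    top_mono ((Finset.erase_subset _ _).trans (Finset.erase_subset _ _))
  have hrk : ∀ y, y < top U → rk ((U.erase x).erase (top U)) y + 1 ≤ rk U y := by
    intro y hy
    have h1 := rk_erase_top hU hy
    have h2 : rk ((U.erase x).erase (top U)) y ≤ rk (U.erase (top U)) y := by
      rw [hswap]
      exact rk_mono (Finset.erase_subset _ _) y
    omega
  have hsub : (holes ((U.erase x).erase (top U)) j).erase x ⊆ holes U (j + 1) := by
    intro y hy
    rw [Finset.mem_erase] at hy
    obtain ⟨hyx, hy⟩ := hy
    simp only [holes, Finset.mem_filter, Finset.mem_range] at hy ⊢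
    obtain ⟨h1, h2, h3⟩ := hy
    have h5 : y < top U := by omega
    refine ⟨h5, ?_, ?_⟩
    · intro hyU
      exact h2 (Finset.mem_erase.2 ⟨by omega, Finset.mem_erase.2 ⟨hyx, hyU⟩⟩)
    · have := hrk y h5
      omega
  have hc := Finset.card_le_card hsub
  have hcard : ((U.erase x).erase (top U)).card = U.card - 2 := by
    rw [Finset.card_erase_of_mem htm, Finset.card_erase_of_mem hx]; omega
  by_cases hxh : x ∈ holes ((U.erase x).erase (top U)) j
  · rw [Finset.card_erase_of_mem hxh] at hc
    have h3 := (Finset.mem_filter.1 hxh).2.2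
    have h4 := hrk x hxlt
    right
    rcases h (j + 1) with h1 | h1
    · omega
    · omega
  · rw [Finset.erase_eq_of_notMem hxh] at hc
    rcases h (j + 1) with h1 | h1
    · left; omega
    · right; omega

theorem HC4.top_le {U : Finset ℕ} (h : HC4 U) (hU : U.Nonempty) :
    400 * (top U + 1) ≤ 401 * U.card ∧ 400 * (Finset.range (top U + 1) \ U).card ≤ U.card := by
  have hsub : Finset.range (top U + 1) \ U ⊆ holes U 0 := by
    intro y hy
    obtain ⟨h1, h2⟩ := Finset.mem_sdiff.1 hy
    have h3 := Finset.mem_range.1 h1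
    have h4 : y ≠ top U := by
      rintro rfl
      exact h2 (top_mem hU)
    simp only [holes, Finset.mem_filter, Finset.mem_range]
    exact ⟨by omega, h2, Nat.zero_le _⟩
  have hc := Finset.card_le_card hsub
  have h0 := h 0
  have hc0 : 400 * (Finset.range (top U + 1) \ U).card ≤ U.card := by
    rcases h0 with h0 | h0 <;> omega
  refine ⟨?_, hc0⟩
  have h1 : Finset.range (top U + 1) ⊆ U ∪ (Finset.range (top U + 1) \ U) := by
    intro y hy
    by_cases hyU : y ∈ U
    · exact Finset.mem_union_left _ hyU
    · exact Finset.mem_union_right _ (Finset.mem_sdiff.2 ⟨hy, hyU⟩)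
  have h2 := (Finset.card_le_card h1).trans (Finset.card_union_le _ _)
  rw [Finset.card_range] at h2
  omega

/-- Removing all elements above `y`. -/
theorem HC4.restrict {U : Finset ℕ} (h : HC4 U) (y : ℕ) : HC4 (U.filter (fun u => u ≤ y)) := by
  generalize hn : U.card = n
  induction n using Nat.strong_induction_on generalizing U with
  | _ n ih =>
  by_cases hall : ∀ u ∈ U, u ≤ y
  · rwa [Finset.filter_true_of_mem hall]
  · push Not at hall
    obtain ⟨u, hu, huy⟩ := hall
    have hU : U.Nonempty := ⟨u, hu⟩
    have htop : y < top U := lt_of_lt_of_le huy (le_top hu)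
    have hcard : (U.erase (top U)).card < n := by
      rw [← hn]
      exact Finset.card_erase_lt_of_mem (top_mem hU)
    have h1 := ih _ hcard (h.erase_top hU) rfl
    have h2 : (U.erase (top U)).filter (fun u => u ≤ y) = U.filter (fun u => u ≤ y) := by
      ext z
      simp only [Finset.mem_filter, Finset.mem_erase]
      constructor
      · rintro ⟨⟨-, h3⟩, h4⟩
        exact ⟨h3, h4⟩
      · rintro ⟨h3, h4⟩
        exact ⟨⟨by omega, h3⟩, h4⟩
    rwa [h2] at h1

theorem HC4.of_full {U : Finset ℕ} (h : ∀ y, y < top U → y ∈ U) : HC4 U := by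
  intro j
  left
  rw [Finset.card_eq_zero, holes, Finset.filter_eq_empty_iff]
  intro y hy
  rintro ⟨h1, _⟩
  exact h1 (h y (Finset.mem_range.1 hy))

end Pool.Agent.Helper64.FB
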