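import Pool.Agent.Helper64.FB.Fit
import Pool.Agent.Helper64.FB.Crude

set_option autoImplicit false

/-!
FB-7. A whole segment, and the last segment.
-/

namespace Pool.Agent.Helper64.FB

open Finset Pool.Agent.Helper64.Burn

theorem sum_sdiff_seg {U J : Finset ℕ} (hJ : J ⊆ U) :
    ∑ x ∈ U \ J, (2 * x + 1) + ∑ x ∈ J, (2 * x + 1) = ∑ x ∈ U, (2 * x + 1) :=
  Finset.sum_sdiff hJ

theorem card_sdiff_lt_seg {U J : Finset ℕ} (hJ : J ⊆ U) (hne : J.Nonempty) :
    (U \ J).card < U.card := by
  have h1 := Finset.card_sdiff_add_card_eq_card hJ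
  have h2 := Finset.card_pos.2 hne
  omega

theorem seg_lemma : ∀ (m : ℕ) {L : ℕ} {h : ℕ → ℕ} {R φ : ℕ} {U F : Finset ℕ} {a : ℕ},
    U.card = m → Seg L h R → St φ U F → F.card + 5 ≤ φ → a ≤ L → 7 * U.card ≤ 5 * (L - a) →
    4 * ((L - a) + R) + (inner L h a L).card ≤ 4 * ∑ x ∈ U, (2 * x + 1) →
    ∃ J F' : Finset ℕ, J ⊆ U ∧ F' ⊆ F ∪ J ∧ F'.card ≤ F.card + 5 ∧ St φ (U \ J) F' ∧
      Cov L h J a L ∧
      4 * ∑ x ∈ J, (2 * x + 1) ≤ 4 * (L - a) + (inner L h a L).card + 4 * (30000 * φ) := by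
  intro m
  induction m using Nat.strong_induction_on with
  | _ m ih =>
  intro L h R φ U F a hm S hU hF haL h7 hb
  rcases Nat.lt_or_ge m 31000 with h1 | h1
  · -- few radii
    have hm' : U.card ≤ 14000 * φ := by omega
    obtain ⟨J, hJ, hSt, hCov, hbud⟩ :=
      crude_step S hU (by omega) haL hm' (Or.inr (by omega)) hb
    exact ⟨J, F, hJ, Finset.subset_union_left, by omega, hSt, hCov, by omega⟩
  · rcases Nat.lt_or_ge L (a + 8 * m) with h2 | h2
    · rcases Nat.lt_or_ge m (14000 * φ) with h3 | h3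
      · obtain ⟨J, hJ, hSt, hCov, hbud⟩ :=
          crude_step S hU (by omega) haL (by omega) (Or.inl (by omega)) hb
        exact ⟨J, F, hJ, Finset.subset_union_left, by omega, hSt, hCov, by omega⟩
      · obtain ⟨J, hJ, hJc, hSt, hCov, hbud⟩ :=
          fit_step S hU hF (by omega) h7 (by omega) hb
        refine ⟨J, F ∪ J, hJ, subset_rfl, ?_, hSt, hCov, by omega⟩
        have := Finset.card_union_le F J
        omega
    · obtain ⟨J1, b, hJ1, hne, hSt1, hab, hba, hbL, hcomb, hbud1⟩ :=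
        pair_step S hU (by omega) (by omega) hb
      have hs := sum_sdiff_seg hJ1
      have hc := card_sdiff_lt_seg hJ1 hne
      have hb' : 4 * ((L - b) + R) + (inner L h b L).card ≤ 4 * ∑ x ∈ U \ J1, (2 * x + 1) := by
        omega
      obtain ⟨J0, F', hJ0, hF', hF'c, hSt0, hCov0, hbud0⟩ :=
        ih (U \ J1).card (by omega) rfl S hSt1 hF hbL (by omega) hb'
      have hdisj : Disjoint J0 J1 := Finset.disjoint_of_subset_left hJ0 Finset.sdiff_disjoint
      refine ⟨J0 ∪ J1, F', ?_, ?_, hF'c, ?_, hcomb J0 hdisj hCov0, ?_⟩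
      · exact Finset.union_subset (hJ0.trans Finset.sdiff_subset) hJ1
      · intro x hx
        rcases Finset.mem_union.1 (hF' hx) with h4 | h4
        · exact Finset.mem_union_left _ h4
        · exact Finset.mem_union_right _ (Finset.mem_union_left _ h4)
      · have e : U \ (J0 ∪ J1) = (U \ J1) \ J0 := by
          ext x
          simp only [Finset.mem_sdiff, Finset.mem_union]
          tauto
        rw [e]
        exact hSt0
      · have e2 : ∑ x ∈ J0 ∪ J1, (2 * x + 1) = ∑ x ∈ J0, (2 * x + 1) + ∑ x ∈ J1, (2 * x + 1) :=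
          Finset.sum_union hdisj
        omega

theorem last_seg : ∀ (m : ℕ) {L : ℕ} {h : ℕ → ℕ} {φ : ℕ} {U F : Finset ℕ} {a : ℕ},
    U.card = m → Seg L h 0 → St φ U F → a ≤ L →
    4 * (L - a) + (inner L h a L).card ≤ 4 * ∑ x ∈ U, (2 * x + 1) →
    Cov L h U a L := by
  intro m
  induction m using Nat.strong_induction_on with
  | _ m ih =>
  intro L h φ U F a hm S hU haL hb
  have hb0 : 4 * ((L - a) + 0) + (inner L h a L).card ≤ 4 * ∑ x ∈ U, (2 * x + 1) := by
    rw [Nat.add_zero]; exact hb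
  have hht := S.height hU hb0
  rcases Nat.lt_or_ge m 31000 with h1 | h1
  · refine Cov.crude (η := 0) U.card U a L rfl ?_ ?_
    · intro i hi h2 _
      have h3 := hht i hi h2
      have h4 : U.card / 31000 = 0 := Nat.div_eq_of_lt (by omega)
      omega
    · simp only [Nat.mul_zero, Nat.sub_zero]
      omega
  · rcases Nat.lt_or_ge L (a + 8 * m) with h2 | h2
    · refine Cov.crude (η := U.card / 31000) U.card U a L rfl ?_ ?_
      · intro i hi h3 _
        exact hht i hi h3
      · have h5 := sum_sub_ge (U.card / 31000) U.card U rfl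
        have h6 : 31000 * (U.card / 31000) ≤ U.card := Nat.mul_div_le _ _
        obtain ⟨d, hd⟩ : ∃ d, d = U.card - U.card / 31000 := ⟨_, rfl⟩
        rw [← hd] at h5
        have h7 : U.card ≤ 2 * d := by omega
        have h8 : 16 ≤ d := by omega
        have h9 : 16 * d ≤ d ^ 2 := by
          rw [pow_two]
          exact Nat.mul_le_mul_right d h8
        omega
    · obtain ⟨J1, b, hJ1, hne, hSt1, hab, hba, hbL, hcomb, hbud1⟩ :=
        pair_step S hU (by omega) (by omega) hb0
      have hs := sum_sdiff_seg hJ1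
      have hc := card_sdiff_lt_seg hJ1 hne
      have h3 := ih (U \ J1).card (by omega) rfl S hSt1 hbL (by omega)
      have h4 := hcomb (U \ J1) Finset.sdiff_disjoint h3
      rwa [Finset.sdiff_union_of_subset hJ1] at h4

end Pool.Agent.Helper64.FB
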