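import Mathlib

set_option autoImplicit false

/-!
FB-18. The selection of a radius (pure).
-/

namespace Pool.Agent.Helper64.FB

open Finset

theorem select {g X : ℕ → ℕ} {P : Finset ℕ} {θ B : ℕ} (hθ : 0 < θ)
    (hg : ∀ ρ, g ρ + X ρ ≤ g (ρ + 1)) (hpos : ∀ r ∈ P, 1 ≤ g r) (hlt : ∀ r ∈ P, g r < 2 ^ B)
    (hP : θ * B < P.card) : ∃ r ∈ P, θ * X r ≤ g r := by
  by_contra hcon
  push Not at hcon
  have hmono : Monotone g := monotone_nat_of_le_succ fun n => le_trans (Nat.le_add_right _ _) (hg n)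
  set m := P.card with hm
  set e := P.orderEmbOfFin hm.symm with he
  have hmem : ∀ i : Fin m, e i ∈ P := fun i => P.orderEmbOfFin_mem hm.symm i
  -- one step
  have hstep : ∀ i (h : i + 1 < m), θ * g (e ⟨i, by omega⟩) + g (e ⟨i, by omega⟩)
      ≤ θ * g (e ⟨i + 1, h⟩) := by
    intro i h
    have h1 : e ⟨i, by omega⟩ < e ⟨i + 1, h⟩ := by
      apply e.strictMono
      exact Fin.mk_lt_mk.2 (Nat.lt_succ_self i)
    have h2 : g (e ⟨i, by omega⟩ + 1) ≤ g (e ⟨i + 1, h⟩) := hmono h1
    have h3 := hg (e ⟨i, by omega⟩)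
    have h4 := hcon _ (hmem ⟨i, by omega⟩)
    have h5 : θ * (g (e ⟨i, by omega⟩) + X (e ⟨i, by omega⟩)) ≤ θ * g (e ⟨i + 1, h⟩) :=
      Nat.mul_le_mul_left _ (le_trans h3 h2)
    rw [Nat.mul_add] at h5
    omega
  -- many steps
  have hmany : ∀ i j (h : i + j < m), (θ + j) * g (e ⟨i, by omega⟩)
      ≤ θ * g (e ⟨i + j, h⟩) := by
    intro i j
    induction j with
    | zero => intro h; simp
    | succ j ih =>
      intro h
      have h1 := ih (by omega)
      have h2 := hstep (i + j) (by omega)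
      have h3 : g (e ⟨i, by omega⟩) ≤ g (e ⟨i + j, by omega⟩) := by
        apply hmono
        apply e.monotone
        exact Fin.mk_le_mk.2 (Nat.le_add_right _ _)
      have h4 : (θ + (j + 1)) * g (e ⟨i, by omega⟩)
          = (θ + j) * g (e ⟨i, by omega⟩) + g (e ⟨i, by omega⟩) := by ring
      have h5 : θ * g (e ⟨i + j + 1, by omega⟩) = θ * g (e ⟨i + (j + 1), h⟩) := rfl
      omega
  have hdouble : ∀ k (h : k * θ < m), 2 ^ k ≤ g (e ⟨k * θ, h⟩) := by
    intro k
    induction k with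
    | zero =>
      intro h
      have := hpos _ (hmem ⟨0 * θ, h⟩)
      simpa using this
    | succ k ih =>
      intro h
      have hlt1 : k * θ + θ < m := by
        have : (k + 1) * θ = k * θ + θ := by ring
        omega
      have h1 := ih (by omega)
      have h2 := hmany (k * θ) θ hlt1
      have h3 : g (e ⟨(k + 1) * θ, h⟩) = g (e ⟨k * θ + θ, hlt1⟩) := by
        congr 2
        apply Fin.ext
        show (k + 1) * θ = k * θ + θ
        ring
      have h4 : 2 * g (e ⟨k * θ, by omega⟩) ≤ g (e ⟨k * θ + θ, hlt1⟩) := by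
        have h5 : θ * (2 * g (e ⟨k * θ, by omega⟩)) ≤ θ * g (e ⟨k * θ + θ, hlt1⟩) := by
          have : θ * (2 * g (e ⟨k * θ, by omega⟩)) = (θ + θ) * g (e ⟨k * θ, by omega⟩) := by ring
          omega
        exact Nat.le_of_mul_le_mul_left h5 hθ
      rw [h3, pow_succ]
      omega
  have hB : B * θ < m := by rw [Nat.mul_comm]; exact hP
  have h1 := hdouble B hB
  have h2 := hlt _ (hmem ⟨B * θ, hB⟩)
  omega

end Pool.Agent.Helper64.FB
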