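import Pool.Agent.Helper64.FB.Metric

set_option autoImplicit false

/-!
FB-15. Splitting a convex set by a ball.
-/

namespace Pool.Agent.Helper64.FB

open Finset Pool.Agent.Helper64.Burn

variable {W : Type*} [DecidableEq W]

/-- Ball in `S`. -/
noncomputable def ball (T : SimpleGraph W) (S : Finset W) (c : W) (ρ : ℕ) : Finset W :=
  S.filter (fun v => T.dist c v ≤ ρ)

/-- Sphere of radius `ρ + 1` in `S`. -/
noncomputable def sphere (T : SimpleGraph W) (S : Finset W) (c : W) (ρ : ℕ) : Finset W :=
  S.filter (fun v => T.dist c v = ρ + 1)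

/-- The part of `S` behind `u`, seen from `c`. -/
noncomputable def branch (T : SimpleGraph W) (S : Finset W) (c u : W) : Finset W :=
  S.filter (fun v => T.dist c u + T.dist u v = T.dist c v)

omit [DecidableEq W] in
theorem mem_branch {T : SimpleGraph W} {S : Finset W} {c u v : W} :
    v ∈ branch T S c u ↔ v ∈ S ∧ T.dist c u + T.dist u v = T.dist c v := by
  unfold branch
  exact Finset.mem_filter

omit [DecidableEq W] in
theorem mem_sphere {T : SimpleGraph W} {S : Finset W} {c v : W} {ρ : ℕ} :
    v ∈ sphere T S c ρ ↔ v ∈ S ∧ T.dist c v = ρ + 1 := by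
  unfold sphere
  exact Finset.mem_filter

omit [DecidableEq W] in
theorem mem_ball {T : SimpleGraph W} {S : Finset W} {c v : W} {ρ : ℕ} :
    v ∈ ball T S c ρ ↔ v ∈ S ∧ T.dist c v ≤ ρ := by
  unfold ball
  exact Finset.mem_filter

theorem branch_conv {T : SimpleGraph W} (hT : T.IsTree) {S : Finset W} (hS : Conv T S)
    {c u : W} (hcu : 0 < T.dist c u) : Conv T (branch T S c u) := by
  obtain ⟨u', h1, h2⟩ := exists_between hT.connected c u (t := T.dist c u - 1) (by omega)
  have h3 : T.dist u' u = 1 := by omega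
  have hadj : T.Adj u u' := (SimpleGraph.dist_eq_one_iff_adj.1 h3).symm
  have hcu' : T.dist c u = T.dist c u' + 1 := by omega
  have key : ∀ v, T.dist c u + T.dist u v = T.dist c v ↔ T.dist v u' = T.dist v u + 1 := by
    intro v
    constructor
    · intro h
      have e1 : T.dist c v ≤ T.dist c u' + T.dist u' v := hT.connected.dist_triangle
      have e2 : T.dist v u' ≤ T.dist v u + T.dist u u' := hT.connected.dist_triangle
      have e3 : T.dist u u' = T.dist u' u := SimpleGraph.dist_comm
      have e4 : T.dist v u' = T.dist u' v := SimpleGraph.dist_comm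
      have e5 : T.dist v u = T.dist u v := SimpleGraph.dist_comm
      omega
    · intro h
      have e1 := edge_cross hT hadj h hcu'
      have e2 : T.dist v c = T.dist c v := SimpleGraph.dist_comm
      have e3 : T.dist v u = T.dist u v := SimpleGraph.dist_comm
      have e4 : T.dist u' c = T.dist c u' := SimpleGraph.dist_comm
      omega
  intro x hx y hy z hz
  rw [mem_branch, key] at hx hy
  rw [mem_branch, key]
  refine ⟨hS x hx.1 y hy.1 z hz, ?_⟩
  by_contra hcon
  have e0 : T.dist z u = T.dist z u' + 1 := by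
    rcases hT.dist_eq_dist_add_one_of_adj z hadj with h | h
    · exact h
    · exact absurd h hcon
  have e1 := edge_cross hT hadj hx.2 e0
  have e2 := edge_cross hT hadj hy.2 e0
  have e3 : T.dist x y ≤ T.dist x u + T.dist u y := hT.connected.dist_triangle
  have e4 : T.dist u y = T.dist y u := SimpleGraph.dist_comm
  have e5 : T.dist z y = T.dist y z := SimpleGraph.dist_comm
  omega

theorem branch_disjoint {T : SimpleGraph W} (hT : T.IsTree) {S : Finset W} {c u u' : W}
    {ρ : ℕ} (hu : u ∈ sphere T S c ρ) (hu' : u' ∈ sphere T S c ρ) (hne : u ≠ u') :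
    Disjoint (branch T S c u) (branch T S c u') := by
  rw [Finset.disjoint_left]
  intro v hv hv'
  rw [mem_branch] at hv hv'
  rw [mem_sphere] at hu hu'
  exact hne (between_unique hT hv.2 hv'.2 (hu.2.trans hu'.2.symm))

theorem branch_ball_disjoint {T : SimpleGraph W} {S : Finset W} {c u : W}
    {ρ : ℕ} (hu : u ∈ sphere T S c ρ) : Disjoint (ball T S c ρ) (branch T S c u) := by
  rw [Finset.disjoint_left]
  intro v hv hv'
  rw [mem_branch] at hv'
  rw [mem_ball] at hv
  rw [mem_sphere] at hu
  omega

theorem exists_branch {T : SimpleGraph W} (hT : T.IsTree) {S : Finset W} (hS : Conv T S)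
    {c : W} (hc : c ∈ S) {ρ : ℕ} {v : W} (hv : v ∈ S) (hv' : v ∉ ball T S c ρ) :
    ∃ u ∈ sphere T S c ρ, v ∈ branch T S c u := by
  have h1 : ρ + 1 ≤ T.dist c v := by
    by_contra hcon
    exact hv' (mem_ball.2 ⟨hv, by omega⟩)
  obtain ⟨z, hz1, hz2⟩ := exists_between hT.connected c v h1
  exact ⟨z, mem_sphere.2 ⟨hS c hc v hv z hz2, hz1⟩, mem_branch.2 ⟨hv, hz2⟩⟩

theorem self_mem_branch {T : SimpleGraph W} {S : Finset W} {c u : W} (hu : u ∈ S) :
    u ∈ branch T S c u := by
  rw [mem_branch]
  exact ⟨hu, by rw [SimpleGraph.dist_self, add_zero]⟩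

/-- `S` is the disjoint union of the ball and the branches. -/
theorem sum_split {T : SimpleGraph W} (hT : T.IsTree) {S : Finset W} (hS : Conv T S)
    {c : W} (hc : c ∈ S) (ρ : ℕ) (f : W → ℕ) :
    ∑ v ∈ ball T S c ρ, f v + ∑ u ∈ sphere T S c ρ, ∑ v ∈ branch T S c u, f v =
      ∑ v ∈ S, f v := by
  have h1 : ∑ v ∈ (sphere T S c ρ).biUnion (branch T S c), f v =
      ∑ u ∈ sphere T S c ρ, ∑ v ∈ branch T S c u, f v :=
    Finset.sum_biUnion fun u hu u' hu' hne => branch_disjoint hT hu hu' hne
  have h2 : Disjoint (ball T S c ρ) ((sphere T S c ρ).biUnion (branch T S c)) := by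
    rw [Finset.disjoint_biUnion_right]
    exact fun u hu => branch_ball_disjoint hu
  rw [← h1, ← Finset.sum_union h2]
  congr 1
  ext v
  rw [Finset.mem_union, Finset.mem_biUnion]
  constructor
  · rintro (h | ⟨u, _, h⟩)
    · exact (mem_ball.1 h).1
    · exact (mem_branch.1 h).1
  · intro h
    by_cases hb : v ∈ ball T S c ρ
    · exact Or.inl hb
    · exact Or.inr (exists_branch hT hS hc h hb)

/-- The branches as a family of sets. -/
noncomputable def branches (T : SimpleGraph W) (S : Finset W) (c : W) (ρ : ℕ) :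
    Finset (Finset W) := (sphere T S c ρ).image (branch T S c)

theorem branch_injOn {T : SimpleGraph W} (hT : T.IsTree) {S : Finset W} {c : W} {ρ : ℕ} :
    ∀ u ∈ sphere T S c ρ, ∀ u' ∈ sphere T S c ρ, branch T S c u = branch T S c u' → u = u' := by
  intro u hu u' hu' h
  by_contra hne
  have h1 := branch_disjoint hT hu hu' hne
  rw [Finset.disjoint_left] at h1
  have h2 : u ∈ branch T S c u := self_mem_branch (mem_sphere.1 hu).1
  exact h1 h2 (h ▸ h2)

end Pool.Agent.Helper64.FB
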