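import Pool.Agent.Helper64.FB.Step
import Pool.Agent.Helper64.FB.Level

set_option autoImplicit false

/-!
FB-21. Stage 1: a tree is decomposed into paid balls and good pieces.
-/

namespace Pool.Agent.Helper64.FB

open Finset Pool.Agent.Helper64.Burn

variable {W : Type*} [DecidableEq W]

/-- The state of Stage 1. -/
structure Inv [Fintype W] (T : SimpleGraph W) [DecidableRel T.Adj] (p w : ℕ) (P : Finset ℕ)
    (𝒮 : Finset (Finset W)) (R : Finset ℕ) (c : ℕ → W) : Prop where
  ne : ∀ S ∈ 𝒮, S.Nonempty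
  conv : ∀ S ∈ 𝒮, Conv T S
  disj : ∀ S ∈ 𝒮, ∀ S' ∈ 𝒮, S ≠ S' → Disjoint S S'
  sub : R ⊆ P
  cover : ∀ v, (∃ S ∈ 𝒮, v ∈ S) ∨ ∃ r ∈ R, T.dist (c r) v + p ≤ r
  gain : (R = ∅ ∧ 𝒮 = {Finset.univ}) ∨
    ∑ r ∈ R, (2 * r + 1) + ∑ S ∈ 𝒮, (S.card + w) ≤ Fintype.card W
  cardR : R.card + ∑ S ∈ 𝒮, ∑ v ∈ S, (T.degree v - 2) ≤ ∑ v, (T.degree v - 2)
  cardS : 𝒮.card + 2 * ∑ S ∈ 𝒮, ∑ v ∈ S, (T.degree v - 2) ≤ 1 + 2 * ∑ v, (T.degree v - 2)

theorem Inv.init [Fintype W] [Nonempty W] (T : SimpleGraph W) [DecidableRel T.Adj]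
    (p w : ℕ) (P : Finset ℕ) (c : ℕ → W) : Inv T p w P {Finset.univ} ∅ c where
  ne S hS := by
    rw [Finset.mem_singleton.1 hS]
    exact Finset.univ_nonempty
  conv S hS := by
    rw [Finset.mem_singleton.1 hS]
    intro x _ y _ z _
    exact Finset.mem_univ z
  disj S hS S' hS' hne := by
    rw [Finset.mem_singleton] at hS hS'
    exact absurd (hS.trans hS'.symm) hne
  sub := Finset.empty_subset P
  cover v := Or.inl ⟨Finset.univ, Finset.mem_singleton_self _, Finset.mem_univ v⟩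
  gain := Or.inl ⟨rfl, rfl⟩
  cardR := by
    rw [Finset.sum_singleton, Finset.card_empty, zero_add]
  cardS := by
    rw [Finset.sum_singleton, Finset.card_singleton]

private theorem sum_union_le' {ι : Type*} [DecidableEq ι] (A B : Finset ι) (f : ι → ℕ) :
    ∑ x ∈ A ∪ B, f x ≤ ∑ x ∈ A, f x + ∑ x ∈ B, f x := by
  rw [← Finset.sum_union_inter]
  exact Nat.le_add_right _ _

private theorem sum_branches {T : SimpleGraph W} (hT : T.IsTree) (S : Finset W) (c : W) (ρ : ℕ)
    (f : Finset W → ℕ) :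
    ∑ X ∈ branches T S c ρ, f X = ∑ u ∈ sphere T S c ρ, f (branch T S c u) := by
  unfold branches
  exact Finset.sum_image fun u hu u' hu' h => branch_injOn hT u hu u' hu' h

theorem Inv.step [Fintype W] {T : SimpleGraph W} [DecidableRel T.Adj] (hT : T.IsTree)
    {p w p' B D : ℕ} {P : Finset ℕ} {𝒮 : Finset (Finset W)} {R : Finset ℕ} {c : ℕ → W}
    (hI : Inv T p w P 𝒮 R c)
    (hp' : 0 < p') (hw : 0 < w) (hwp : 8 * w ≤ p') (hpp : 8 * p ≤ p')
    (hP : ∀ r ∈ P, p + p' ≤ r ∧ 2 * (r - p) + 2 ≤ D)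
    (hPc : 2 * w * B + ∑ v, (T.degree v - 2) < P.card) (hc : Fintype.card W < 2 ^ B)
    {S : Finset W} (hS : S ∈ 𝒮) (hbad : Bad T S D p') :
    ∃ (𝒮' : Finset (Finset W)) (R' : Finset ℕ) (c' : ℕ → W), Inv T p w P 𝒮' R' c' ∧
      ∑ S ∈ 𝒮', ∑ v ∈ S, (T.degree v - 2) < ∑ S ∈ 𝒮, ∑ v ∈ S, (T.degree v - 2) := by
  have hconv := hI.conv S hS
  have hRc : R.card ≤ ∑ v, (T.degree v - 2) := le_trans (Nat.le_add_right _ _) hI.cardR
  have hPR : 2 * w * B < (P \ R).card := by
    have h1 := Finset.le_card_sdiff R P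
    omega
  have hSc : S.card < 2 ^ B := lt_of_le_of_lt (Finset.card_le_univ S) hc
  obtain ⟨r, hr, c0, hc0, h1, h2⟩ := Pool.Agent.Helper64.FB.step hT hconv hp' hw hwp hpp
    (P := P \ R) (fun r hr => hP r (Finset.mem_sdiff.1 hr).1) hPR hSc hbad
  obtain ⟨hrP, hrR⟩ := Finset.mem_sdiff.1 hr
  have hpr : p ≤ r := by
    have := (hP r hrP).1
    omega
  -- the sums
  set ρ := r - p with hρ
  set b := ∑ v ∈ ball T S c0 ρ, (T.degree v - 2) with hb
  have hsp1 := sum_split hT hconv hc0 ρ (fun _ => 1)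
  have hsp2 := sum_split hT hconv hc0 ρ (fun v => T.degree v - 2)
  simp only [Finset.sum_const, smul_eq_mul, mul_one] at hsp1
  rw [← hb] at hsp2
  have hsc := sphere_card hT hconv hc0 ρ
  rw [← hb] at hsc
  have hers : ∀ f : Finset W → ℕ, ∑ X ∈ 𝒮.erase S, f X + f S = ∑ X ∈ 𝒮, f X := fun f =>
    Finset.sum_erase_add 𝒮 f hS
  have hnew : ∀ f : Finset W → ℕ, ∑ X ∈ 𝒮.erase S ∪ branches T S c0 ρ, f X ≤
      ∑ X ∈ 𝒮.erase S, f X + ∑ u ∈ sphere T S c0 ρ, f (branch T S c0 u) := fun f => by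
    rw [← sum_branches hT S c0 ρ f]
    exact sum_union_le' _ _ f
  have hF := hnew (fun X => ∑ v ∈ X, (T.degree v - 2))
  have hF' := hers (fun X => ∑ v ∈ X, (T.degree v - 2))
  have hG := hnew (fun X => X.card + w)
  have hG' := hers (fun X => X.card + w)
  rw [Finset.sum_add_distrib (s := sphere T S c0 ρ), Finset.sum_const, smul_eq_mul] at hG
  have hsub : ∀ u, branch T S c0 u ⊆ S := fun u => Finset.filter_subset _ _
  have hspS : ∀ u ∈ sphere T S c0 ρ, u ∈ S ∧ T.dist c0 u = ρ + 1 := fun u hu =>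
    Finset.mem_filter.1 hu
  have hmem : ∀ X ∈ branches T S c0 ρ, ∃ u ∈ sphere T S c0 ρ, branch T S c0 u = X := fun X hX =>
    Finset.mem_image.1 hX
  refine ⟨𝒮.erase S ∪ branches T S c0 ρ, insert r R, Function.update c r c0, ?_, ?_⟩
  · constructor
    · intro X hX
      rcases Finset.mem_union.1 hX with hX | hX
      · exact hI.ne X (Finset.mem_of_mem_erase hX)
      · obtain ⟨u, hu, rfl⟩ := hmem X hX
        exact ⟨u, self_mem_branch (hspS u hu).1⟩
    · intro X hX
      rcases Finset.mem_union.1 hX with hX | hX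
      · exact hI.conv X (Finset.mem_of_mem_erase hX)
      · obtain ⟨u, hu, rfl⟩ := hmem X hX
        exact branch_conv hT hconv (by rw [(hspS u hu).2]; exact Nat.succ_pos _)
    · intro X hX Y hY hne
      rcases Finset.mem_union.1 hX with hX | hX
      · rcases Finset.mem_union.1 hY with hY | hY
        · exact hI.disj X (Finset.mem_of_mem_erase hX) Y (Finset.mem_of_mem_erase hY) hne
        · obtain ⟨u, hu, rfl⟩ := hmem Y hY
          exact Finset.disjoint_of_subset_right (hsub u) (hI.disj X (Finset.mem_of_mem_erase hX) S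
            hS (Finset.ne_of_mem_erase hX))
      · obtain ⟨u, hu, rfl⟩ := hmem X hX
        rcases Finset.mem_union.1 hY with hY | hY
        · exact Finset.disjoint_of_subset_left (hsub u) (hI.disj S hS Y
            (Finset.mem_of_mem_erase hY) (Finset.ne_of_mem_erase hY).symm)
        · obtain ⟨u', hu', rfl⟩ := hmem Y hY
          exact branch_disjoint hT hu hu' fun h => hne (by rw [h])
    · exact Finset.insert_subset hrP hI.sub
    · intro v
      have hold : ∀ r' ∈ R, T.dist (c r') v + p ≤ r' →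
          ∃ r' ∈ insert r R, T.dist (Function.update c r c0 r') v + p ≤ r' := by
        intro r' hr' h
        refine ⟨r', Finset.mem_insert_of_mem hr', ?_⟩
        have hne : r' ≠ r := by
          rintro rfl
          exact hrR hr'
        rw [Function.update_of_ne hne]
        exact h
      rcases hI.cover v with ⟨X, hX, hv⟩ | ⟨r', hr', h⟩
      · by_cases hXS : X = S
        · subst hXS
          by_cases hvb : v ∈ ball T X c0 ρ
          · right
            refine ⟨r, Finset.mem_insert_self r R, ?_⟩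
            rw [Function.update_self]
            have h3 : T.dist c0 v ≤ ρ := (Finset.mem_filter.1 hvb).2
            omega
          · obtain ⟨u, hu, hvu⟩ := exists_branch hT hconv hc0 hv hvb
            left
            exact ⟨branch T X c0 u, Finset.mem_union_right _ (Finset.mem_image_of_mem _ hu), hvu⟩
        · left
          exact ⟨X, Finset.mem_union_left _ (Finset.mem_erase.2 ⟨hXS, hX⟩), hv⟩
      · right
        exact hold r' hr' h
    · right
      rw [Finset.sum_insert hrR]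
      rcases hI.gain with ⟨hR0, hS0⟩ | hgain
      · have hSu : S = Finset.univ := by
          rw [hS0] at hS
          exact Finset.mem_singleton.1 hS
        have he : 𝒮.erase S = ∅ := by
          rw [hS0, hSu]
          simp
        rw [hR0, Finset.sum_empty]
        rw [he, Finset.sum_empty] at hG
        rw [he]
        have h3 : S.card ≤ Fintype.card W := Finset.card_le_univ S
        omega
      · omega
    · rw [Finset.card_insert_of_notMem hrR]
      have h3 := hI.cardR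
      omega
    · have h3 := hI.cardS
      have h4 : (𝒮.erase S ∪ branches T S c0 ρ).card ≤
          (𝒮.erase S).card + (sphere T S c0 ρ).card :=
        (Finset.card_union_le _ _).trans (Nat.add_le_add_left Finset.card_image_le _)
      have h5 : (𝒮.erase S).card + 1 = 𝒮.card := Finset.card_erase_add_one hS
      omega
  · omega

theorem stage [Fintype W] {T : SimpleGraph W} [DecidableRel T.Adj] (hT : T.IsTree)
    {p w p' B D : ℕ} {P : Finset ℕ}
    (hp' : 0 < p') (hw : 0 < w) (hwp : 8 * w ≤ p') (hpp : 8 * p ≤ p')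
    (hP : ∀ r ∈ P, p + p' ≤ r ∧ 2 * (r - p) + 2 ≤ D)
    (hPc : 2 * w * B + ∑ v, (T.degree v - 2) < P.card) (hc : Fintype.card W < 2 ^ B) :
    ∃ (𝒮 : Finset (Finset W)) (R : Finset ℕ) (c : ℕ → W), Inv T p w P 𝒮 R c ∧
      ∀ S ∈ 𝒮, ¬ Bad T S D p' := by
  have key : ∀ (N : ℕ) (𝒮 : Finset (Finset W)) (R : Finset ℕ) (c : ℕ → W),
      Inv T p w P 𝒮 R c → ∑ S ∈ 𝒮, ∑ v ∈ S, (T.degree v - 2) = N →
      ∃ (𝒮 : Finset (Finset W)) (R : Finset ℕ) (c : ℕ → W), Inv T p w P 𝒮 R c ∧
        ∀ S ∈ 𝒮, ¬ Bad T S D p' := by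
    intro N
    induction N using Nat.strong_induction_on with
    | _ N ih =>
      intro 𝒮 R c hI hN
      by_cases hall : ∀ S ∈ 𝒮, ¬ Bad T S D p'
      · exact ⟨𝒮, R, c, hI, hall⟩
      · push Not at hall
        obtain ⟨S, hS, hbad⟩ := hall
        obtain ⟨𝒮', R', c', hI', hlt⟩ := Inv.step hT hI hp' hw hwp hpp hP hPc hc hS hbad
        exact ih _ (by rw [← hN]; exact hlt) 𝒮' R' c' hI' rfl
  have : Nonempty W := hT.connected.nonempty
  exact key _ _ _ _ (Inv.init T p w P fun _ => Classical.arbitrary W) rfl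

end Pool.Agent.Helper64.FB
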