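import Pool.Agent.Helper64.FB.Rad

set_option autoImplicit false

/-!
FB-2. The state of the process: the unused radii `U` and few large used radii `F`
(special holes).
-/

namespace Pool.Agent.Helper64.FB

open Finset Pool.Agent.Helper64.Burn

/-- The radii together with the special holes below the top. -/
def full (U F : Finset ℕ) : Finset ℕ := U ∪ F.filter (fun f => f < top U)

structure St (φ : ℕ) (U F : Finset ℕ) : Prop where
  disj : Disjoint U F
  big : ∀ f ∈ F, 4000 * φ ≤ f
  card : F.card ≤ φ
  hc : HC4 (full U F)

/-- The radii `x` for which the pair `x`, `top U` may be used. -/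
def pool (U F : Finset ℕ) : Finset ℕ :=
  U.filter (fun x => x ≠ top U ∧ 402 * rk (full U F) x ≤ (full U F).card)

/-- The special holes below the top. -/
theorem full_top {U F : Finset ℕ} (hU : U.Nonempty) : top (full U F) = top U := by
  apply le_antisymm
  · refine Finset.sup_le fun x hx => ?_
    rcases Finset.mem_union.1 hx with h1 | h1
    · exact le_top h1
    · exact (Finset.mem_filter.1 h1).2.le
  · exact top_mono Finset.subset_union_left

theorem full_card {U F : Finset ℕ} (hd : Disjoint U F) :
    (full U F).card = U.card + (F.filter (fun f => f < top U)).card :=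
  Finset.card_union_of_disjoint (hd.mono_right (Finset.filter_subset _ _))

theorem full_empty (F : Finset ℕ) : full ∅ F = ∅ := by
  ext x
  simp [full, top]

theorem hc4_empty : HC4 ∅ := HC4.of_full fun y hy => by simp [top] at hy

/-- Passing to a subset of the radii. -/
theorem hc_sub {U U' F : Finset ℕ} (hU' : U' ⊆ U) (hd : Disjoint U F)
    (h : HC4 (U' ∪ F.filter (fun f => f < top U))) : HC4 (full U' F) := by
  rcases U'.eq_empty_or_nonempty with rfl | hne
  · rw [full_empty]
    exact hc4_empty
  · have h1 : full U' F = (U' ∪ F.filter (fun f => f < top U)).filter (fun u => u ≤ top U') := by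
      ext x
      simp only [full, Finset.mem_union, Finset.mem_filter]
      constructor
      · rintro (h1 | ⟨h1, h2⟩)
        · exact ⟨Or.inl h1, le_top h1⟩
        · exact ⟨Or.inr ⟨h1, h2.trans_le (top_mono hU')⟩, h2.le⟩
      · rintro ⟨h1 | ⟨h1, h2⟩, h3⟩
        · exact Or.inl h1
        · refine Or.inr ⟨h1, lt_of_le_of_ne h3 ?_⟩
          rintro rfl
          exact Finset.disjoint_left.1 hd (hU' (top_mem hne)) h1
    rw [h1]
    exact h.restrict _

theorem St.facts {φ : ℕ} {U F : Finset ℕ} (h : St φ U F) (hU : U.Nonempty) :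
    3900 * (F.filter (fun f => f < top U)).card ≤ U.card ∧
    1000 * (top U + 1) ≤ 1003 * U.card ∧
    360 * (Finset.range (top U + 1) \ U).card ≤ U.card := by
  have hV : (full U F).Nonempty := hU.mono Finset.subset_union_left
  obtain ⟨h1, h2⟩ := h.hc.top_le hV
  rw [full_top hU, full_card h.disj] at h1 h2
  have hx : 3900 * (F.filter (fun f => f < top U)).card ≤ U.card := by
    rcases (F.filter (fun f => f < top U)).eq_empty_or_nonempty with h3 | ⟨f, hf⟩
    · rw [h3]
      simp
    · obtain ⟨hf1, hf2⟩ := Finset.mem_filter.1 hf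
      have h3 := h.big f hf1
      have h4 : (F.filter (fun f => f < top U)).card ≤ φ :=
        (Finset.card_filter_le _ _).trans h.card
      omega
  refine ⟨hx, by omega, ?_⟩
  have hsub : Finset.range (top U + 1) \ U ⊆
      (Finset.range (top U + 1) \ full U F) ∪ F.filter (fun f => f < top U) := by
    intro y hy
    rw [Finset.mem_sdiff] at hy
    by_cases hyF : y ∈ F.filter (fun f => f < top U)
    · exact Finset.mem_union_right _ hyF
    · refine Finset.mem_union_left _ (Finset.mem_sdiff.2 ⟨hy.1, fun h5 => ?_⟩)
      rcases Finset.mem_union.1 h5 with h6 | h6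
      · exact hy.2 h6
      · exact hyF h6
  have h5 := (Finset.card_le_card hsub).trans (Finset.card_union_le _ _)
  omega

theorem St.erase_top {φ : ℕ} {U F : Finset ℕ} (h : St φ U F) (hU : U.Nonempty) :
    St φ (U.erase (top U)) F where
  disj := h.disj.mono_left (Finset.erase_subset _ _)
  big := h.big
  card := h.card
  hc := by
    refine hc_sub (Finset.erase_subset _ _) h.disj ?_
    have h1 := h.hc.erase_top (hU.mono Finset.subset_union_left)
    rw [full_top hU] at h1
    have h2 : (full U F).erase (top U) =
        U.erase (top U) ∪ F.filter (fun f => f < top U) := by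
      rw [full, Finset.erase_union_distrib]
      congr 1
      apply Finset.erase_eq_of_notMem
      exact fun h3 => lt_irrefl _ (Finset.mem_filter.1 h3).2
    rwa [h2] at h1

theorem St.erase_pair {φ : ℕ} {U F : Finset ℕ} (h : St φ U F) {x : ℕ} (hx : x ∈ pool U F) :
    St φ ((U.erase x).erase (top U)) F where
  disj := h.disj.mono_left ((Finset.erase_subset _ _).trans (Finset.erase_subset _ _))
  big := h.big
  card := h.card
  hc := by
    obtain ⟨hxU, hxt, hr⟩ := Finset.mem_filter.1 hx
    have hU : U.Nonempty := ⟨x, hxU⟩
    refine hc_sub ((Finset.erase_subset _ _).trans (Finset.erase_subset _ _)) h.disj ?_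
    have h1 := h.hc.erase_pair (Finset.mem_union_left _ hxU) (by rwa [full_top hU]) hr
    rw [full_top hU] at h1
    have h2 : ((full U F).erase x).erase (top U) =
        (U.erase x).erase (top U) ∪ F.filter (fun f => f < top U) := by
      rw [full, Finset.erase_union_distrib, Finset.erase_union_distrib]
      congr 1
      rw [Finset.erase_eq_of_notMem (a := x), Finset.erase_eq_of_notMem]
      · exact fun h3 => lt_irrefl _ (Finset.mem_filter.1 h3).2
      · exact fun h3 => Finset.disjoint_left.1 h.disj hxU (Finset.mem_filter.1 h3).1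
    rwa [h2] at h1

theorem St.take {φ : ℕ} {U F J : Finset ℕ} (h : St φ U F) (hJ : J ⊆ U)
    (hbig : ∀ x ∈ J, 4000 * φ ≤ x) (hc : F.card + J.card ≤ φ) : St φ (U \ J) (F ∪ J) where
  disj := by
    rw [Finset.disjoint_union_right]
    exact ⟨h.disj.mono_left Finset.sdiff_subset, Finset.sdiff_disjoint⟩
  big f hf := by
    rcases Finset.mem_union.1 hf with h1 | h1
    · exact h.big f h1
    · exact hbig f h1
  card := (Finset.card_union_le _ _).trans hc
  hc := by
    rcases (U \ J).eq_empty_or_nonempty with h0 | hne
    · rw [h0, full_empty]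
      exact hc4_empty
    · have h1 : full (U \ J) (F ∪ J) = (full U F).filter (fun u => u ≤ top (U \ J)) := by
        have h2 := top_mem hne
        rw [Finset.mem_sdiff] at h2
        have h3 : top (U \ J) ≤ top U := top_mono Finset.sdiff_subset
        ext x
        simp only [full, Finset.mem_union, Finset.mem_filter, Finset.mem_sdiff]
        constructor
        · rintro (h4 | ⟨h4 | h4, h5⟩)
          · exact ⟨Or.inl h4.1, le_top (Finset.mem_sdiff.2 h4)⟩
          · exact ⟨Or.inr ⟨h4, h5.trans_le h3⟩, h5.le⟩
          · exact ⟨Or.inl (hJ h4), h5.le⟩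
        · rintro ⟨h4 | ⟨h4, h5⟩, h6⟩
          · by_cases hxJ : x ∈ J
            · refine Or.inr ⟨Or.inr hxJ, lt_of_le_of_ne h6 ?_⟩
              rintro rfl
              exact h2.2 hxJ
            · exact Or.inl ⟨h4, hxJ⟩
          · refine Or.inr ⟨Or.inl h4, lt_of_le_of_ne h6 ?_⟩
            rintro rfl
            exact Finset.disjoint_left.1 h.disj h2.1 h4
      rw [h1]
      exact h.hc.restrict _

theorem St.init {φ k : ℕ} {F : Finset ℕ} (hbig : ∀ f ∈ F, 4000 * φ ≤ f) (hc : F.card ≤ φ) :
    St φ (Finset.range k \ F) F where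
  disj := Finset.sdiff_disjoint
  big := hbig
  card := hc
  hc := by
    rcases (Finset.range k \ F).eq_empty_or_nonempty with h0 | hne
    · rw [h0, full_empty]
      exact hc4_empty
    · refine HC4.of_full fun y hy => ?_
      rw [full_top hne] at hy
      have h2 := top_mem hne
      rw [Finset.mem_sdiff, Finset.mem_range] at h2
      by_cases hyF : y ∈ F
      · exact Finset.mem_union_right _ (Finset.mem_filter.2 ⟨hyF, hy⟩)
      · exact Finset.mem_union_left _ (Finset.mem_sdiff.2
          ⟨Finset.mem_range.2 (hy.trans h2.1), hyF⟩)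

theorem St.pool_card {φ : ℕ} {U F : Finset ℕ} (h : St φ U F) (hm : 31000 ≤ U.card) :
    U.card ≤ 500 * (pool U F).card := by
  have hU : U.Nonempty := Finset.card_pos.1 (by omega)
  have hVc := full_card h.disj
  obtain ⟨h1, -, -⟩ := h.facts hU
  have h2 := Burn.pool_card ((full U F).card / 402) (full U F) (by omega)
  have hsub : (full U F).filter (fun x => rk (full U F) x ≤ (full U F).card / 402) ⊆
      (pool U F ∪ F.filter (fun f => f < top U)) ∪ {top U} := by
    intro x hx
    obtain ⟨hx1, hx2⟩ := Finset.mem_filter.1 hx
    by_cases hxt : x = top U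
    · exact Finset.mem_union_right _ (Finset.mem_singleton.2 hxt)
    · refine Finset.mem_union_left _ ?_
      rcases Finset.mem_union.1 hx1 with h3 | h3
      · exact Finset.mem_union_left _ (Finset.mem_filter.2 ⟨h3, hxt, by omega⟩)
      · exact Finset.mem_union_right _ h3
  have h3 := (Finset.card_le_card hsub).trans (Finset.card_union_le _ _)
  have h4 := Finset.card_union_le (pool U F) (F.filter (fun f => f < top U))
  rw [Finset.card_singleton] at h3
  omega

/-- The `e` largest radii. -/
theorem St.tops {φ : ℕ} {U F : Finset ℕ} (h : St φ U F) {e : ℕ} (he : e ≤ U.card) :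
    ∃ E, E ⊆ U ∧ E.card = e ∧ St φ (U \ E) F ∧ ∀ x ∈ E, ∀ y ∈ U \ E, y < x := by
  induction e with
  | zero => exact ⟨∅, Finset.empty_subset _, rfl, by rwa [Finset.sdiff_empty], by simp⟩
  | succ e ih =>
    obtain ⟨E, h1, h2, h3, h4⟩ := ih (by omega)
    have hne : (U \ E).Nonempty := by
      apply Finset.card_pos.1
      rw [Finset.card_sdiff_of_subset h1]
      omega
    have ht := top_mem hne
    have ht' := Finset.mem_sdiff.1 ht
    have h5 : U \ insert (top (U \ E)) E = (U \ E).erase (top (U \ E)) := by
      ext x
      simp only [Finset.mem_sdiff, Finset.mem_insert, Finset.mem_erase, not_or]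
      tauto
    refine ⟨insert (top (U \ E)) E, Finset.insert_subset ht'.1 h1, ?_, ?_, ?_⟩
    · rw [Finset.card_insert_of_notMem ht'.2, h2]
    · rw [h5]
      exact h3.erase_top hne
    · intro x hx y hy
      rw [h5, Finset.mem_erase] at hy
      rcases Finset.mem_insert.1 hx with rfl | hx
      · exact lt_of_le_of_ne (le_top hy.2) hy.1
      · exact h4 x hx y hy.2

end Pool.Agent.Helper64.FB
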