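import Pool.Agent.Helper64.FB.BallCount
import Pool.Agent.Helper64.FB.Select

set_option autoImplicit false

/-!
FB-20. One ball of Stage 1.
-/

namespace Pool.Agent.Helper64.FB

open Finset Pool.Agent.Helper64.Burn

variable {W : Type*} [DecidableEq W]

/-- A piece is bad if it is long and has a high junction. -/
def Bad (T : SimpleGraph W) (S : Finset W) (D p' : ℕ) : Prop :=
  ∃ (d : ℕ) (x : ℕ → W) (pos ht : W → ℕ), Coord T S d x pos ht ∧ D ≤ d ∧ ∃ v ∈ S, p' ≤ ht v

/-- the step when the junction is in the left half -/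
private theorem step_left [Fintype W] {T : SimpleGraph W} [DecidableRel T.Adj] (hT : T.IsTree)
    {S : Finset W} (hS : Conv T S) {p p' w B D : ℕ} {P : Finset ℕ}
    (hw : 0 < w) (hwp : 8 * w ≤ p') (hpp : 8 * p ≤ p')
    (hP : ∀ r ∈ P, p + p' ≤ r ∧ 2 * (r - p) + 2 ≤ D)
    (hPc : 2 * w * B < P.card) (hSc : S.card < 2 ^ B)
    {d : ℕ} {x : ℕ → W} {pos ht : W → ℕ} (C : Coord T S d x pos ht) (hd : D ≤ d)
    {v : W} (hv : v ∈ S) (hht : p' ≤ ht v) (hpos : 2 * pos v ≤ d) :
    ∃ r ∈ P, ∃ c ∈ S,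
      (2 * r + 1) + (sphere T S c (r - p)).card * w ≤ (ball T S c (r - p)).card ∧
      1 ≤ ∑ v ∈ ball T S c (r - p), (T.degree v - 2) := by
  have hTc : T.Connected := hT.1
  have hcard : (P.image (fun r => r - p)).card = P.card := by
    apply Finset.card_image_of_injOn
    intro r hr r' hr' hrr
    have h1 := (hP r hr).1
    have h2 := (hP r' hr').1
    simp only at hrr
    omega
  obtain ⟨ρ, hρ, hsel⟩ := select (g := gN S pos ht (pos v)) (X := xN S pos ht (pos v))
    (P := P.image (fun r => r - p)) (θ := 2 * w) (B := B) (by omega)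
    (fun ρ => gN_step C.left (pos v) ρ)
    (by
      intro ρ hρ
      obtain ⟨r, hr, rfl⟩ := Finset.mem_image.1 hρ
      have h1 := (hP r hr).1
      have h2 := gN_ge hTc hS C hv hht (ρ := r - p) (by omega)
      omega)
    (by
      intro ρ _
      exact lt_of_le_of_lt (Finset.card_filter_le _ _) hSc)
    (by rw [hcard]; exact hPc)
  obtain ⟨r, hr, rfl⟩ := Finset.mem_image.1 hρ
  obtain ⟨h1, h2⟩ := hP r hr
  have h3 : pos v + (r - p) ≤ d := by omega
  have h4 : 2 * (r - p) ≤ d := by omega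
  have h5 : max (pos v) (r - p) ≤ d := by omega
  refine ⟨r, hr, x (max (pos v) (r - p)), C.mem _ h5, ?_, ?_⟩
  · have hb := ball_card hTc C h3 h4
    have hs := sphere_le hTc C h3 h4
    have hg := gN_ge hTc hS C hv hht (ρ := r - p) (by omega)
    have hs' : (sphere T S (x (max (pos v) (r - p))) (r - p)).card * w ≤
        (xN S pos ht (pos v) (r - p) + 2) * w := Nat.mul_le_mul_right _ hs
    have e1 : (xN S pos ht (pos v) (r - p) + 2) * w =
        w * xN S pos ht (pos v) (r - p) + 2 * w := by ring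
    have e2 : 2 * w * xN S pos ht (pos v) (r - p) =
        2 * (w * xN S pos ht (pos v) (r - p)) := by ring
    have e3 : 2 * w * xN S pos ht (pos v) (r - p) ≤ gN S pos ht (pos v) (r - p) := hsel
    rw [e2] at e3
    rw [e1] at hs'
    omega
  · have hpd : pos v ≤ d := by omega
    have hjm : x (pos v) ∈ S := C.mem _ hpd
    have hself := C.self hTc hpd
    have hdist := C.dist (x (pos v)) hjm _ h5
    rw [hself.1, hself.2] at hdist
    have hmem : x (pos v) ∈ ball T S (x (max (pos v) (r - p))) (r - p) := by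
      unfold ball
      rw [Finset.mem_filter]
      refine ⟨hjm, ?_⟩
      rw [hdist]
      omega
    have hdeg := junction_degree hT hS C hv (by omega)
    calc 1 ≤ T.degree (x (pos v)) - 2 := by omega
      _ ≤ ∑ v ∈ ball T S (x (max (pos v) (r - p))) (r - p), (T.degree v - 2) :=
        Finset.single_le_sum (f := fun v => T.degree v - 2) (fun _ _ => Nat.zero_le _) hmem

theorem step [Fintype W] {T : SimpleGraph W} [DecidableRel T.Adj] (hT : T.IsTree)
    {S : Finset W} (hS : Conv T S) {p p' w B D : ℕ} {P : Finset ℕ}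
    (hp' : 0 < p') (hw : 0 < w) (hwp : 8 * w ≤ p') (hpp : 8 * p ≤ p')
    (hP : ∀ r ∈ P, p + p' ≤ r ∧ 2 * (r - p) + 2 ≤ D)
    (hPc : 2 * w * B < P.card) (hSc : S.card < 2 ^ B) (hbad : Bad T S D p') :
    ∃ r ∈ P, ∃ c ∈ S,
      (2 * r + 1) + (sphere T S c (r - p)).card * w ≤ (ball T S c (r - p)).card ∧
      1 ≤ ∑ v ∈ ball T S c (r - p), (T.degree v - 2) := by
  obtain ⟨d, x, pos, ht, C, hd, v, hv, hht⟩ := hbad
  rcases Nat.le_total (2 * pos v) d with h | h
  · exact step_left hT hS hw hwp hpp hP hPc hSc C hd hv hht h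
  · refine step_left hT hS hw hwp hpp hP hPc hSc C.rev hd hv hht ?_
    omega

end Pool.Agent.Helper64.FB
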