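import Pool.Agent.Helper64.FB.Stage
import Pool.Agent.Helper64.FB.PieceLine
import Pool.Agent.Helper64.FB.Pieces
import Pool.Agent.Helper64.FB.Degrees

set_option autoImplicit false

/-!
FB-24. Assembly for a tree with cells of height at most `p`.
-/

namespace Pool.Agent.Helper64.FB

open Finset Pool.Agent.Helper64.Burn

variable {W : Type*} [DecidableEq W]

theorem tree_main [Fintype W] {T : SimpleGraph W} [DecidableRel T.Adj] (hT : T.IsTree)
    {hH : W → ℕ} {p k l : ℕ} (hp : ∀ x, hH x ≤ p) (hk : ∑ x, (1 + hH x) ≤ k ^ 2)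
    (hD : ∑ v, (T.degree v - 2) ≤ l)
    (hC : 10 ^ 20 * (l + p + 1) * (Nat.log 2 k + 1) ≤ k) :
    (∃ c : ℕ → W, ∀ x, ∃ r, r < k ∧ T.dist (c r) x + hH x ≤ r) ∨
    ∃ (L : ℕ) (A : ℕ → W), PathSeq T L A ∧
      ∀ v, ∃ j, j < L ∧ T.dist (A j) v ≤ 10 ^ 8 * (l + p + 1) := by
  classical
  have hWne : Nonempty W := hT.connected.nonempty
  have hlog : 1 ≤ Nat.log 2 k + 1 := by omega
  have hC1 : 10 ^ 20 * (l + p + 1) ≤ k := le_trans (Nat.le_mul_of_pos_right _ hlog) hC
  have hk2 : k < 2 ^ (Nat.log 2 k + 1) := Nat.lt_pow_succ_log_self (by norm_num) k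
  generalize Nat.log 2 k + 1 = lg at hlog hC hk2
  obtain ⟨φ, hφ⟩ : ∃ φ, φ = 13 * (l + 1) := ⟨_, rfl⟩
  obtain ⟨w, hw⟩ : ∃ w, w = 2 * p + 120000 * φ := ⟨_, rfl⟩
  obtain ⟨p', hp'⟩ : ∃ p', p' = 8 * (w + p) := ⟨_, rfl⟩
  have hwl : w ≤ 1560000 * (l + p + 1) := by omega
  have hw0 : 0 < w := by omega
  have hB : k ^ 2 < 2 ^ (2 * lg) := by
    calc k ^ 2 < (2 ^ lg) ^ 2 := Nat.pow_lt_pow_left hk2 (by norm_num)
      _ = 2 ^ (2 * lg) := by rw [← pow_mul]; congr 1; ring
  have hcardW : Fintype.card W ≤ k ^ 2 := by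
    refine le_trans ?_ hk
    rw [Finset.sum_add_distrib]
    simp
  obtain ⟨P, hP⟩ : ∃ P, P = Finset.Ico (k - k / 10) (k - k / 16) := ⟨_, rfl⟩
  have hPcard : P.card = k - k / 16 - (k - k / 10) := by rw [hP, Nat.card_Ico]
  have h4w : 2 * w * (2 * lg) ≤ k / 100 := by
    rw [Nat.le_div_iff_mul_le (by norm_num)]
    refine le_trans ?_ hC
    have : 2 * w * (2 * lg) * 100 = 400 * w * lg := by ring
    rw [this]
    refine Nat.mul_le_mul_right _ ?_
    omega
  obtain ⟨𝒮, R, c, hI, hgood⟩ := stage hT (p := p) (w := w) (p' := p') (B := 2 * lg)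
    (D := 2 * (k - k / 16)) (P := P) (by omega) hw0 (by omega) (by omega) (by
      intro r hr
      rw [hP, Finset.mem_Ico] at hr
      omega) (by
      rw [hPcard]
      omega) (lt_of_le_of_lt hcardW hB)
  rcases hI.gain with ⟨hR, hS⟩ | hgain
  · -- nothing was removed
    subst hR
    have hnb : ¬ Bad T Finset.univ (2 * (k - k / 16)) p' := hgood _ (by rw [hS]; simp)
    have hconv : Conv T (Finset.univ : Finset W) := fun _ _ _ _ _ _ => Finset.mem_univ _
    obtain ⟨d, x, pos, ht, C⟩ := exists_coord hT hconv Finset.univ_nonempty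
    rcases Nat.lt_or_ge d (2 * (k - k / 16)) with hd | hd
    · left
      refine ⟨fun _ => x (d / 2), ?_⟩
      intro v
      refine ⟨k - 1, by omega, ?_⟩
      have h1 := C.dist v (Finset.mem_univ _) (d / 2) (by omega)
      have h2 := C.left v (Finset.mem_univ _)
      have h3 := C.right v (Finset.mem_univ _)
      have h4 := hp v
      simp only [h1]
      omega
    · right
      refine ⟨d + 1, x, ⟨by omega, ?_, ?_⟩, ?_⟩
      · intro i hi
        have h1 := C.dist (x (i + 1)) (Finset.mem_univ _) i (by omega)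
        have h2 := C.self hT.connected (j := i + 1) (by omega)
        rw [h2.1, h2.2] at h1
        exact SimpleGraph.dist_eq_one_iff_adj.1 (by omega)
      · intro i j hi hj hij
        have h1 := C.self hT.connected (j := i) (by omega)
        have h2 := C.self hT.connected (j := j) (by omega)
        rw [hij, h2.1] at h1
        exact h1.1.symm
      · intro v
        have h3 := C.right v (Finset.mem_univ _)
        refine ⟨pos v, by omega, ?_⟩
        have h1 := C.dist v (Finset.mem_univ _) (pos v) (by omega)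
        have h2 : ht v < p' := by
          by_contra hcon
          exact hnb ⟨d, x, pos, ht, C, hd, v, Finset.mem_univ _, not_lt.1 hcon⟩
        omega
  · left
    -- lines for the pieces
    have hpl : ∀ S : Finset W, ∃ (L : ℕ) (h : ℕ → ℕ), S ∈ 𝒮 →
        (∀ i, i < L → h i ≤ i) ∧ (∀ i, i < L → i + h i < L) ∧
        L + ∑ i ∈ Finset.range L, h i ≤ S.card + ∑ v ∈ S, hH v + 2 * p ∧
        (100 * L ≤ 190 * k ∨ ∀ i, i < L → 10 ^ 11 * h i ≤ k) ∧
        ∀ J, Cov L h J 0 L → ∃ c : ℕ → W, ∀ v ∈ S, ∃ r ∈ J, T.dist (c r) v + hH v ≤ r := by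
      intro S
      by_cases hS : S ∈ 𝒮
      · obtain ⟨d, x, pos, ht, C⟩ := exists_coord hT (hI.conv S hS) (hI.ne S hS)
        obtain ⟨h, h1, h2, h3, h4, h5⟩ := piece_line hT (hI.conv S hS) C hp
        refine ⟨d + 1 + 2 * p, h, fun _ => ⟨h1, h2, h3, ?_, h5⟩⟩
        rcases Nat.lt_or_ge d (2 * (k - k / 16)) with hd | hd
        · left
          omega
        · right
          intro i _
          have h6 := h4 p' (by
            intro v hv
            by_contra hcon
            exact hgood S hS ⟨d, x, pos, ht, C, hd, v, hv, by omega⟩) i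
          omega
      · exact ⟨0, fun _ => 0, fun h => absurd h hS⟩
    choose L h hLh using hpl
    have hR : R ⊆ P := hI.sub
    have hcR := hI.cardR
    have hcS := hI.cardS
    obtain ⟨J, hJ1, hJ2⟩ := pieces (k := k) (φ := φ) (I := 𝒮) (L := L) (h := h) (F := R)
      (by omega) (by
        intro r hr
        have := hR hr
        rw [hP, Finset.mem_Ico] at this
        exact Finset.mem_range.2 (by omega)) (by
        intro r hr
        have := hR hr
        rw [hP, Finset.mem_Ico] at this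
        omega) (by omega)
      (fun S hS => (hLh S hS).1) (fun S hS => (hLh S hS).2.1)
      (fun S hS => (hLh S hS).2.2.2.1) (by
        have e1 : ∑ S ∈ 𝒮, (L S + ∑ i ∈ Finset.range (L S), h S i + 120000 * φ) ≤
            ∑ S ∈ 𝒮, (S.card + w) + ∑ S ∈ 𝒮, ∑ v ∈ S, hH v := by
          rw [← Finset.sum_add_distrib]
          refine Finset.sum_le_sum ?_
          intro S hS
          have := (hLh S hS).2.2.1
          omega
        have e2 : ∑ S ∈ 𝒮, ∑ v ∈ S, hH v ≤ ∑ v, hH v := by
          rw [← Finset.sum_biUnion (by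
            intro S hS S' hS' hne
            exact hI.disj S hS S' hS' hne)]
          exact Finset.sum_le_sum_of_subset (Finset.subset_univ _)
        have e3 : ∑ x ∈ Finset.range k \ R, (2 * x + 1) + ∑ x ∈ R, (2 * x + 1) = k ^ 2 := by
          rw [← sum_range_radii k]
          refine Finset.sum_sdiff ?_
          intro r hr
          have := hR hr
          rw [hP, Finset.mem_Ico] at this
          exact Finset.mem_range.2 (by omega)
        rw [Finset.sum_add_distrib] at hk
        simp only [Finset.sum_const, Finset.card_univ, smul_eq_mul, mul_one] at hk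
        omega)
    have hcc : ∀ S : Finset W, ∃ c : ℕ → W, S ∈ 𝒮 → ∀ v ∈ S, ∃ r ∈ J S,
        T.dist (c r) v + hH v ≤ r := by
      intro S
      by_cases hS : S ∈ 𝒮
      · obtain ⟨c', hc'⟩ := (hLh S hS).2.2.2.2 (J S) (hJ1 S hS).2
        exact ⟨c', fun _ => hc'⟩
      · exact ⟨c, fun h => absurd h hS⟩
    choose cc hcc using hcc
    refine ⟨fun r => if hr : ∃ S ∈ 𝒮, r ∈ J S then cc hr.choose r else c r, ?_⟩
    intro v
    rcases hI.cover v with ⟨S, hS, hv⟩ | ⟨r, hr, hrv⟩
    · obtain ⟨r, hr, hrv⟩ := hcc S hS v hv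
      have h1 := (hJ1 S hS).1 hr
      rw [Finset.mem_sdiff, Finset.mem_range] at h1
      refine ⟨r, h1.1, ?_⟩
      have hex : ∃ S ∈ 𝒮, r ∈ J S := ⟨S, hS, hr⟩
      have hch : hex.choose = S := by
        by_contra hne
        exact Finset.disjoint_left.1 (hJ2 _ hex.choose_spec.1 S hS hne)
          hex.choose_spec.2 hr
      simp only [dif_pos hex, hch]
      exact hrv
    · have h1 := hR hr
      rw [hP, Finset.mem_Ico] at h1
      refine ⟨r, by omega, ?_⟩
      have hnex : ¬ ∃ S ∈ 𝒮, r ∈ J S := by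
        rintro ⟨S, hS, hrS⟩
        have h2 := (hJ1 S hS).1 hrS
        rw [Finset.mem_sdiff] at h2
        exact h2.2 hr
      simp only [dif_neg hnex]
      have := hp v
      omega

end Pool.Agent.Helper64.FB
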