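import Pool.Agent.Helper64.FB.FinalTwo

set_option autoImplicit false

/-!
FB-9. A family of pieces on a line, with a quiet point `Q` inside piece `i0`.
-/

namespace Pool.Agent.Helper64.FB

open Finset Pool.Agent.Helper64.Burn

/-- Left end of piece `s`. -/
def off (L : ℕ → ℕ) (s : ℕ) : ℕ := ∑ j ∈ Finset.range s, L j

structure Fam (k : ℕ) (L : ℕ → ℕ) (h : ℕ → ℕ → ℕ) (n Q i0 : ℕ) : Prop where
  len : ∀ s, s < n → 7 * k ≤ 5 * L s
  hl : ∀ s, s < n → ∀ i, i < L s → h s i ≤ i
  hr : ∀ s, s < n → ∀ i, i < L s → i + h s i < L s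
  i0n : i0 < n
  Q1 : off L i0 ≤ Q
  Q2 : Q < off L (i0 + 1)
  quiet : ∀ s, s < n → ∀ i, i < L s → 0 < h s i →
    off L s + i + 10 ^ 9 * h s i ^ 2 < Q ∨ Q + 10 ^ 9 * h s i ^ 2 ≤ off L s + i

theorem off_succ (L : ℕ → ℕ) (s : ℕ) : off L (s + 1) = off L s + L s := by
  rw [off, off, Finset.sum_range_succ]

theorem off_mono (L : ℕ → ℕ) {s t : ℕ} (h : s ≤ t) : off L s ≤ off L t :=
  Finset.sum_le_sum_of_subset (Finset.range_mono h)

theorem two_sided {k : ℕ} {L : ℕ → ℕ} {h : ℕ → ℕ → ℕ} {n Q i0 φ : ℕ} (D : Fam k L h n Q i0) :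
    ∀ (m lo hi : ℕ) (U F : Finset ℕ), hi - lo = m → lo ≤ i0 → i0 ≤ hi → hi < n →
    U ⊆ Finset.range k → St φ U F → F.card + 5 * (m + 1) ≤ φ →
    4 * (off L (hi + 1) - off L lo) + ∑ s ∈ Finset.Icc lo hi, (inner (L s) (h s) 0 (L s)).card +
      4 * ((m + 2) * (30000 * φ)) ≤ 4 * ∑ x ∈ U, (2 * x + 1) →
    ∃ J : ℕ → Finset ℕ, (∀ s, lo ≤ s → s ≤ hi → J s ⊆ U ∧ Cov (L s) (h s) (J s) 0 (L s)) ∧
      ∀ s s', lo ≤ s → s ≤ hi → lo ≤ s' → s' ≤ hi → s ≠ s' → Disjoint (J s) (J s') := by
  intro m
  induction m with
  | zero =>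
    intro lo hi U F hm hlo hhi hn _ hU hF hb
    obtain rfl : lo = i0 := by omega
    obtain rfl : hi = lo := by omega
    have h1 := D.Q1
    have h2 := D.Q2
    rw [off_succ] at h2
    refine ⟨fun _ => U, ?_, ?_⟩
    · intro s hs1 hs2
      obtain rfl : s = hi := by omega
      refine ⟨Finset.Subset.refl _, ?_⟩
      show Cov (L s) (h s) U 0 (L s)
      refine final_two (q := Q - off L s) (φ := φ) (F := F) (D.hl s hn) (D.hr s hn) (by omega)
        ?_ hU (by omega) ?_
      · intro i hi hpos
        have := D.quiet s hn i hi hpos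
        omega
      · rw [Finset.Icc_self, Finset.sum_singleton] at hb
        have hsu := off_succ L s
        omega
    · intro s s' hs1 hs2 hs3 hs4 hne
      omega
  | succ m ih =>
    intro lo hi U F hm hlo hhi hn hUk hU hF hb
    have hQ1 := D.Q1
    have hQ2 := D.Q2
    have hUc : U.card ≤ k := by
      have := Finset.card_le_card hUk
      rwa [Finset.card_range] at this
    by_cases hl : lo < i0
    · have hsl := off_succ L lo
      have hm1 := off_mono L (show lo + 1 ≤ i0 by omega)
      have hm2 := off_mono L (show i0 + 1 ≤ hi + 1 by omega)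
      have hIcc : Finset.Icc lo hi = insert lo (Finset.Icc (lo + 1) hi) := by
        ext s
        simp only [Finset.mem_Icc, Finset.mem_insert]
        omega
      rw [hIcc, Finset.sum_insert (by simp)] at hb
      have hmul : (m + 1 + 2) * (30000 * φ) = (m + 2) * (30000 * φ) + 30000 * φ := by ring
      rw [hmul] at hb
      have hS : Seg (L lo) (h lo) (off L (hi + 1) - off L (lo + 1)) := by
        refine ⟨D.hl lo (by omega), D.hr lo (by omega), ?_⟩
        intro i hi' hpos
        have := D.quiet lo (by omega) i hi' hpos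
        omega
      obtain ⟨J, F', hJU, hF'J, hF'c, hSt, hCov, hcost⟩ := seg_lemma U.card (a := 0) rfl hS hU
        (by omega) (Nat.zero_le _) (by
          have := D.len lo (by omega)
          omega) (by omega)
      have hsum : ∑ x ∈ U \ J, (2 * x + 1) + ∑ x ∈ J, (2 * x + 1) = ∑ x ∈ U, (2 * x + 1) :=
        Finset.sum_sdiff hJU
      obtain ⟨J', hJ'1, hJ'2⟩ := ih (lo + 1) hi (U \ J) F' (by omega) (by omega) hhi hn
        (Finset.sdiff_subset.trans hUk) hSt (by omega) (by omega)
      refine ⟨fun s => if s = lo then J else J' s, ?_, ?_⟩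
      · intro s hs1 hs2
        by_cases hs : s = lo
        · subst hs
          simp only [if_true]
          exact ⟨hJU, hCov⟩
        · simp only [if_neg hs]
          obtain ⟨h3, h4⟩ := hJ'1 s (by omega) hs2
          exact ⟨h3.trans Finset.sdiff_subset, h4⟩
      · intro s s' hs1 hs2 hs3 hs4 hne
        by_cases hs : s = lo
        · have hs' : s' ≠ lo := by omega
          simp only [if_pos hs, if_neg hs']
          exact (Finset.disjoint_sdiff).mono_right (hJ'1 s' (by omega) hs4).1
        · by_cases hs' : s' = lo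
          · simp only [if_neg hs, if_pos hs']
            exact ((Finset.disjoint_sdiff).mono_right (hJ'1 s (by omega) hs2).1).symm
          · simp only [if_neg hs, if_neg hs']
            exact hJ'2 s s' (by omega) hs2 (by omega) hs4 hne
    · obtain rfl : lo = i0 := by omega
      have hsl := off_succ L hi
      have hm1 := off_mono L (show lo + 1 ≤ hi by omega)
      have hm2 := off_mono L (show lo ≤ hi by omega)
      have hIcc : Finset.Icc lo hi = insert hi (Finset.Icc lo (hi - 1)) := by
        ext s
        simp only [Finset.mem_Icc, Finset.mem_insert]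
        omega
      rw [hIcc, Finset.sum_insert (by simp; omega)] at hb
      have hmul : (m + 1 + 2) * (30000 * φ) = (m + 2) * (30000 * φ) + 30000 * φ := by ring
      rw [hmul] at hb
      have hS : Seg (L hi) (fun j => h hi (L hi - 1 - j)) (off L hi - off L lo) := by
        refine ⟨?_, ?_, ?_⟩
        · intro i hi'
          have := D.hr hi hn (L hi - 1 - i) (by omega)
          show h hi (L hi - 1 - i) ≤ i
          omega
        · intro i hi'
          have := D.hl hi hn (L hi - 1 - i) (by omega)
          show i + h hi (L hi - 1 - i) < L hi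
          omega
        · intro i hi' hpos
          have := D.quiet hi hn (L hi - 1 - i) (by omega) hpos
          show 10 ^ 9 * h hi (L hi - 1 - i) ^ 2 ≤ _
          omega
      have hrefl := inner_reflect (D.hl hi hn) (D.hr hi hn)
      obtain ⟨J, F', hJU, hF'J, hF'c, hSt, hCov, hcost⟩ := seg_lemma U.card (a := 0) rfl hS hU
        (by omega) (Nat.zero_le _) (by
          have := D.len hi hn
          omega) (by omega)
      have hsum : ∑ x ∈ U \ J, (2 * x + 1) + ∑ x ∈ J, (2 * x + 1) = ∑ x ∈ U, (2 * x + 1) :=
        Finset.sum_sdiff hJU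
      have hCov' : Cov (L hi) (h hi) J 0 (L hi) := by
        refine Cov.reflect le_rfl ?_
        rw [Nat.sub_self, Nat.sub_zero]
        exact hCov
      have ehi : hi - 1 + 1 = hi := by omega
      obtain ⟨J', hJ'1, hJ'2⟩ := ih lo (hi - 1) (U \ J) F' (by omega) le_rfl (by omega) (by omega)
        (Finset.sdiff_subset.trans hUk) hSt (by omega) (by rw [ehi]; omega)
      refine ⟨fun s => if s = hi then J else J' s, ?_, ?_⟩
      · intro s hs1 hs2
        by_cases hs : s = hi
        · subst hs
          simp only [if_true]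
          exact ⟨hJU, hCov'⟩
        · simp only [if_neg hs]
          obtain ⟨h3, h4⟩ := hJ'1 s hs1 (by omega)
          exact ⟨h3.trans Finset.sdiff_subset, h4⟩
      · intro s s' hs1 hs2 hs3 hs4 hne
        by_cases hs : s = hi
        · have hs' : s' ≠ hi := by omega
          simp only [if_pos hs, if_neg hs']
          exact (Finset.disjoint_sdiff).mono_right (hJ'1 s' hs3 (by omega)).1
        · by_cases hs' : s' = hi
          · simp only [if_neg hs, if_pos hs']
            exact ((Finset.disjoint_sdiff).mono_right (hJ'1 s hs1 (by omega)).1).symm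
          · simp only [if_neg hs, if_neg hs']
            exact hJ'2 s s' hs1 (by omega) hs3 (by omega) hne

end Pool.Agent.Helper64.FB
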